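import Mathlib

/-!
# Averages over product spaces
-/

set_option autoImplicit false
set_option linter.unusedSectionVars false

namespace Pool.Agent.H1.TC

open Finset
open scoped BigOperators

section mg
variable {ι α : Type*} [DecidableEq ι]

/-- `y` on `S` and `a` elsewhere. -/
def mg (S : Finset ι) (y a : ι → α) : ι → α := fun i => if i ∈ S then y i else a i

theorem mg_mem {S : Finset ι} {y a : ι → α} {i : ι} (h : i ∈ S) : mg S y a i = y i := if_pos h

theorem mg_not_mem {S : Finset ι} {y a : ι → α} {i : ι} (h : i ∉ S) : mg S y a i = a i := if_neg h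

end mg

variable {ι α : Type*} [Fintype ι] [DecidableEq ι] [Fintype α] [Nonempty α]

/-- Exchanging two points on `S`. -/
def swp (S : Finset ι) : ((ι → α) × (ι → α)) ≃ ((ι → α) × (ι → α)) where
  toFun p := (mg S p.2 p.1, mg S p.1 p.2)
  invFun p := (mg S p.2 p.1, mg S p.1 p.2)
  left_inv p := by
    refine Prod.ext ?_ ?_ <;> funext i <;> by_cases h : i ∈ S <;> simp [mg, h]
  right_inv p := by
    refine Prod.ext ?_ ?_ <;> funext i <;> by_cases h : i ∈ S <;> simp [mg, h]

theorem expect_swp (S : Finset ι) (F : (ι → α) → (ι → α) → ℝ) :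
    𝔼 y : ι → α, 𝔼 z : ι → α, F (mg S z y) (mg S y z) = 𝔼 y : ι → α, 𝔼 z : ι → α, F y z := by
  rw [← Finset.expect_product' univ univ fun y z : ι → α => F (mg S z y) (mg S y z),
    ← Finset.expect_product' univ univ fun y z : ι → α => F y z, Finset.univ_product_univ]
  exact Fintype.expect_equiv (swp S) _ _ fun p => rfl

theorem expect_mg (S : Finset ι) (F : (ι → α) → ℝ) :
    𝔼 y : ι → α, 𝔼 z : ι → α, F (mg S z y) = 𝔼 y : ι → α, F y := by
  rw [expect_swp S fun y _ => F y]
  refine Finset.expect_congr rfl fun y _ => ?_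
  rw [Fintype.expect_const]

/-- Independence. -/
theorem expect_indep (S : Finset ι) (f g : (ι → α) → ℝ) (hf : ∀ y z, f (mg S y z) = f y)
    (hg : ∀ y z, g (mg S y z) = g z) :
    𝔼 y : ι → α, f y * g y = (𝔼 y : ι → α, f y) * 𝔼 y : ι → α, g y := by
  rw [← expect_mg S fun y => f y * g y, Finset.expect_comm, Finset.expect_mul_expect]
  refine Finset.expect_congr rfl fun y _ => Finset.expect_congr rfl fun z _ => ?_
  rw [hf, hg]

theorem expect_coord (i : ι) (f : α → ℝ) : 𝔼 y : ι → α, f (y i) = 𝔼 x : α, f x := by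
  have h := Fintype.expect_equiv (Equiv.funSplitAt i α) (fun y => f (y i)) (fun p => f p.1)
    fun y => rfl
  rw [h, ← Finset.univ_product_univ, Finset.expect_product' univ univ fun x _ => f x]
  refine Finset.expect_congr rfl fun y _ => ?_
  have : Nonempty ({ j // j ≠ i } → α) := ⟨fun _ => Classical.arbitrary α⟩
  rw [Fintype.expect_const]

/-- The indicator of a statement. -/
noncomputable def ind (p : Prop) : ℝ := by
  classical
  exact if p then 1 else 0

theorem ind_pos {p : Prop} (h : p) : ind p = 1 := by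
  unfold ind
  rw [if_pos h]

theorem ind_neg {p : Prop} (h : ¬ p) : ind p = 0 := by
  unfold ind
  rw [if_neg h]

theorem ind_nonneg (p : Prop) : 0 ≤ ind p := by
  by_cases h : p
  · rw [ind_pos h]; norm_num
  · rw [ind_neg h]

theorem ind_le_one (p : Prop) : ind p ≤ 1 := by
  by_cases h : p
  · rw [ind_pos h]
  · rw [ind_neg h]; norm_num

theorem ind_mono {p q : Prop} (h : p → q) : ind p ≤ ind q := by
  by_cases hp : p
  · rw [ind_pos hp, ind_pos (h hp)]
  · rw [ind_neg hp]
    exact ind_nonneg q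

theorem ind_congr {p q : Prop} (h : p ↔ q) : ind p = ind q :=
  le_antisymm (ind_mono h.1) (ind_mono h.2)

theorem ind_or (p q : Prop) : ind (p ∨ q) ≤ ind p + ind q := by
  by_cases hp : p
  · rw [ind_pos (Or.inl hp), ind_pos hp]
    linarith [ind_nonneg q]
  · rw [ind_neg hp, zero_add]
    exact ind_mono fun h => h.resolve_left hp

theorem ind_le_of {p : Prop} {c : ℝ} (hc : 0 ≤ c) (h : p → 1 ≤ c) : ind p ≤ c := by
  by_cases hp : p
  · rw [ind_pos hp]
    exact h hp
  · rw [ind_neg hp]
    exact hc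

theorem ind_exists_mem {κ : Type*} (s : Finset κ) (p : κ → Prop) :
    ind (∃ g ∈ s, p g) ≤ ∑ g ∈ s, ind (p g) := by
  refine ind_le_of (Finset.sum_nonneg fun g _ => ind_nonneg _) ?_
  rintro ⟨g, hg, hp⟩
  calc (1 : ℝ) = ind (p g) := (ind_pos hp).symm
    _ ≤ _ := Finset.single_le_sum (f := fun g => ind (p g)) (fun g _ => ind_nonneg _) hg

/-! ### Signs -/

/-- The sign of a bit. -/
def sg (b : Bool) : ℝ := if b then 1 else -1

@[simp] theorem sg_true : sg true = 1 := rfl
@[simp] theorem sg_false : sg false = -1 := rfl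
theorem sg_not (b : Bool) : sg (!b) = -sg b := by cases b <;> simp
theorem sg_sq (b : Bool) : sg b ^ 2 = 1 := by cases b <;> simp
theorem abs_sg (b : Bool) : |sg b| = 1 := by cases b <;> simp

/-- Changing one bit. -/
def fl (i : ι) (y : ι → Bool) : ι → Bool := Function.update y i (!y i)

theorem fl_self (i : ι) (y : ι → Bool) : fl i y i = !y i := by simp [fl]

theorem fl_ne {i j : ι} (h : j ≠ i) (y : ι → Bool) : fl i y j = y j := by simp [fl, h]

/-- Changing one bit. -/
def flE (i : ι) : (ι → Bool) ≃ (ι → Bool) where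
  toFun := fl i
  invFun := fl i
  left_inv y := by
    funext j
    by_cases h : j = i
    · subst h
      simp [fl]
    · simp [fl, h]
  right_inv y := by
    funext j
    by_cases h : j = i
    · subst h
      simp [fl]
    · simp [fl, h]

theorem expect_fl (i : ι) (F : (ι → Bool) → ℝ) : 𝔼 y : ι → Bool, F (fl i y) = 𝔼 y : ι → Bool, F y :=
  Fintype.expect_equiv (flE i) _ _ fun _ => rfl

theorem expect_half (i : ι) (F : (ι → Bool) → ℝ) :
    𝔼 y : ι → Bool, F y = 𝔼 y : ι → Bool, (F y + F (fl i y)) / 2 := by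
  have h : 𝔼 y : ι → Bool, (F y + F (fl i y)) / 2 =
      (𝔼 y : ι → Bool, (F y + F (fl i y))) / 2 := (Finset.expect_div _ _ _).symm
  rw [h, Finset.expect_add_distrib, expect_fl]
  ring

end Pool.Agent.H1.TC
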