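import Pool.Agent.H1.TC.Av
import Pool.Agent.H1.HL.Act

/-!
# Sums with random signs
-/

set_option autoImplicit false
set_option linter.unusedSectionVars false

namespace Pool.Agent.H1.TC

open Finset Pool.Agent.H1.LT Pool.Agent.H1.HL
open scoped BigOperators

variable {ι : Type*} [Fintype ι] [DecidableEq ι]

/-- A sum with signs. -/
def rs (s : Finset ι) (w : ι → ℝ) (y : ι → Bool) : ℝ := ∑ i ∈ s, w i * sg (y i)

theorem rs_insert {s : Finset ι} {i : ι} (h : i ∉ s) (w : ι → ℝ) (y : ι → Bool) :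
    rs (insert i s) w y = rs s w y + w i * sg (y i) := by
  unfold rs
  rw [Finset.sum_insert h, add_comm]

theorem rs_fl {s : Finset ι} {i : ι} (h : i ∉ s) (w : ι → ℝ) (y : ι → Bool) :
    rs s w (fl i y) = rs s w y := by
  unfold rs
  refine Finset.sum_congr rfl fun j hj => ?_
  rw [fl_ne]
  rintro rfl
  exact h hj

theorem second_moment (s : Finset ι) (w : ι → ℝ) :
    𝔼 y : ι → Bool, rs s w y ^ 2 = ∑ i ∈ s, w i ^ 2 := by
  induction s using Finset.induction_on with
  | empty => simp [rs]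
  | insert i s hi ih =>
    rw [Finset.sum_insert hi, expect_half i]
    have h : ∀ y : ι → Bool, (rs (insert i s) w y ^ 2 + rs (insert i s) w (fl i y) ^ 2) / 2 =
        w i ^ 2 + rs s w y ^ 2 := by
      intro y
      rw [rs_insert hi, rs_insert hi, rs_fl hi, fl_self, sg_not]
      have := sg_sq (y i)
      linear_combination (w i ^ 2) * this
    simp_rw [h]
    rw [Finset.expect_add_distrib, Fintype.expect_const, ih]

theorem fourth_moment (s : Finset ι) (w : ι → ℝ) :
    𝔼 y : ι → Bool, rs s w y ^ 4 ≤ 3 * (∑ i ∈ s, w i ^ 2) ^ 2 := by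
  induction s using Finset.induction_on with
  | empty => simp [rs]
  | insert i s hi ih =>
    rw [Finset.sum_insert hi, expect_half i]
    have h : ∀ y : ι → Bool, (rs (insert i s) w y ^ 4 + rs (insert i s) w (fl i y) ^ 4) / 2 =
        rs s w y ^ 4 + (6 * w i ^ 2 * rs s w y ^ 2 + w i ^ 4) := by
      intro y
      rw [rs_insert hi, rs_insert hi, rs_fl hi, fl_self, sg_not]
      have := sg_sq (y i)
      linear_combination (6 * rs s w y ^ 2 * w i ^ 2 + w i ^ 4 * (sg (y i) ^ 2 + 1)) * this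
    simp_rw [h]
    rw [Finset.expect_add_distrib, Finset.expect_add_distrib, Fintype.expect_const,
      ← Finset.mul_expect, second_moment]
    nlinarith [sq_nonneg (w i ^ 2)]

theorem mgf (s : Finset ι) (w : ι → ℝ) (l : ℝ) :
    𝔼 y : ι → Bool, Real.exp (l * rs s w y) ≤ Real.exp (l ^ 2 / 2 * ∑ i ∈ s, w i ^ 2) := by
  induction s using Finset.induction_on with
  | empty => simp [rs]
  | insert i s hi ih =>
    rw [Finset.sum_insert hi, expect_half i]
    have h : ∀ y : ι → Bool, (Real.exp (l * rs (insert i s) w y) +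
        Real.exp (l * rs (insert i s) w (fl i y))) / 2 =
        Real.exp (l * rs s w y) * Real.cosh (l * w i) := by
      intro y
      rw [rs_insert hi, rs_insert hi, rs_fl hi, fl_self, sg_not, Real.cosh_eq]
      have e1 : l * (rs s w y + w i * sg (y i)) = l * rs s w y + l * w i * sg (y i) := by ring
      have e2 : l * (rs s w y + w i * -sg (y i)) = l * rs s w y + -(l * w i * sg (y i)) := by ring
      rw [e1, e2, Real.exp_add, Real.exp_add]
      cases y i
      · rw [sg_false]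
        simp only [mul_neg, mul_one, neg_neg]
        ring
      · rw [sg_true]
        simp only [mul_one]
        ring
    simp_rw [h]
    rw [← Finset.expect_mul]
    calc (𝔼 y : ι → Bool, Real.exp (l * rs s w y)) * Real.cosh (l * w i) ≤
        Real.exp (l ^ 2 / 2 * ∑ i ∈ s, w i ^ 2) * Real.exp ((l * w i) ^ 2 / 2) :=
          mul_le_mul ih (Real.cosh_le_exp_half_sq _) (Real.cosh_pos _).le (Real.exp_pos _).le
      _ = _ := by
          rw [← Real.exp_add]
          congr 1
          ring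

theorem hoeffding_one (s : Finset ι) (w : ι → ℝ) {T : ℝ} (hT : 0 ≤ T)
    (hv : 0 < ∑ i ∈ s, w i ^ 2) :
    𝔼 y : ι → Bool, ind (T * √(∑ i ∈ s, w i ^ 2) < rs s w y) ≤ Real.exp (-(T ^ 2 / 2)) := by
  obtain ⟨v, hv'⟩ : ∃ v, v = ∑ i ∈ s, w i ^ 2 := ⟨_, rfl⟩
  rw [← hv'] at hv ⊢
  have hs : 0 < √v := Real.sqrt_pos.mpr hv
  have hs2 : √v * √v = v := Real.mul_self_sqrt hv.le
  have h1 : ∀ y : ι → Bool, ind (T * √v < rs s w y) ≤
      Real.exp (T / √v * rs s w y) * Real.exp (-(T ^ 2)) := by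
    intro y
    refine ind_le_of (by positivity) fun h => ?_
    rw [← Real.exp_add]
    apply Real.one_le_exp
    have : T ^ 2 ≤ T / √v * rs s w y := by
      calc T ^ 2 = T / √v * (T * √v) := by field_simp
        _ ≤ _ := mul_le_mul_of_nonneg_left h.le (by positivity)
    linarith
  refine (Finset.expect_le_expect fun y _ => h1 y).trans ?_
  rw [← Finset.expect_mul]
  have h2 := mgf s w (T / √v)
  rw [← hv'] at h2
  calc _ ≤ Real.exp ((T / √v) ^ 2 / 2 * v) * Real.exp (-(T ^ 2)) :=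
        mul_le_mul_of_nonneg_right h2 (Real.exp_pos _).le
    _ = Real.exp (-(T ^ 2 / 2)) := by
        rw [← Real.exp_add]
        congr 1
        rw [div_pow, Real.sq_sqrt hv.le]
        field_simp
        ring

/-- Hoeffding's inequality. -/
theorem hoeffding_rs (s : Finset ι) (w : ι → ℝ) {T : ℝ} (hT : 0 ≤ T) :
    𝔼 y : ι → Bool, ind (T * √(∑ i ∈ s, w i ^ 2) < |rs s w y|) ≤
      2 * Real.exp (-(T ^ 2 / 2)) := by
  rcases (Finset.sum_nonneg fun i (_ : i ∈ s) => sq_nonneg (w i)).lt_or_eq with hv | hv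
  · have h1 := hoeffding_one s w hT hv
    have h2 := hoeffding_one s (fun i => -w i) hT (by simpa using hv)
    simp only [even_two, Even.neg_pow] at h2
    have h3 : ∀ y : ι → Bool, ind (T * √(∑ i ∈ s, w i ^ 2) < |rs s w y|) ≤
        ind (T * √(∑ i ∈ s, w i ^ 2) < rs s w y) +
        ind (T * √(∑ i ∈ s, w i ^ 2) < rs s (fun i => -w i) y) := by
      intro y
      refine le_trans (ind_mono fun h => ?_) (ind_or _ _)
      have e : rs s (fun i => -w i) y = -rs s w y := by
        unfold rs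
        rw [← Finset.sum_neg_distrib]
        exact Finset.sum_congr rfl fun i _ => by ring
      rw [e]
      exact lt_abs.mp h
    refine (Finset.expect_le_expect fun y _ => h3 y).trans ?_
    rw [Finset.expect_add_distrib]
    linarith
  · have h0 : ∀ i ∈ s, w i = 0 := by
      intro i hi
      have := (Finset.sum_eq_zero_iff_of_nonneg fun i _ => sq_nonneg (w i)).mp hv.symm i hi
      exact pow_eq_zero_iff (two_ne_zero) |>.mp this
    have h1 : ∀ y : ι → Bool, ind (T * √(∑ i ∈ s, w i ^ 2) < |rs s w y|) = 0 := by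
      intro y
      apply ind_neg
      have : rs s w y = 0 := Finset.sum_eq_zero fun i hi => by rw [h0 i hi, zero_mul]
      rw [this, abs_zero, not_lt]
      positivity
    simp_rw [h1]
    rw [Finset.expect_const_zero]
    positivity

/-- The Paley-Zygmund inequality. -/
theorem paley (s : Finset ι) (w : ι → ℝ) (hv : 0 < ∑ i ∈ s, w i ^ 2) :
    3 / 16 ≤ 𝔼 y : ι → Bool, ind ((∑ i ∈ s, w i ^ 2) / 4 ≤ rs s w y ^ 2) := by
  obtain ⟨v, hv'⟩ : ∃ v, v = ∑ i ∈ s, w i ^ 2 := ⟨_, rfl⟩
  have h2 := second_moment s w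
  have h4 := fourth_moment s w
  rw [← hv'] at hv h2 h4 ⊢
  have h1 : ∀ y : ι → Bool, rs s w y ^ 2 ≤
      v / 4 + rs s w y ^ 2 * ind (v / 4 ≤ rs s w y ^ 2) := by
    intro y
    by_cases h : v / 4 ≤ rs s w y ^ 2
    · rw [ind_pos h]
      linarith
    · rw [ind_neg h]
      linarith
  have h3 := Finset.expect_le_expect fun y (_ : y ∈ (univ : Finset (ι → Bool))) => h1 y
  rw [h2, Finset.expect_add_distrib, Fintype.expect_const] at h3
  have h5 := Finset.expect_mul_sq_le_sq_mul_sq univ (fun y : ι → Bool => rs s w y ^ 2)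
    (fun y => ind (v / 4 ≤ rs s w y ^ 2))
  have h6 : ∀ y : ι → Bool, ind (v / 4 ≤ rs s w y ^ 2) ^ 2 = ind (v / 4 ≤ rs s w y ^ 2) := by
    intro y
    by_cases h : v / 4 ≤ rs s w y ^ 2
    · rw [ind_pos h]; norm_num
    · rw [ind_neg h]; norm_num
  have h7 : ∀ y : ι → Bool, (rs s w y ^ 2) ^ 2 = rs s w y ^ 4 := fun y => by ring
  simp_rw [h6, h7] at h5
  have hp : 0 ≤ 𝔼 y : ι → Bool, ind (v / 4 ≤ rs s w y ^ 2) :=
    Finset.expect_nonneg fun _ _ => ind_nonneg _
  have h8 : (3 / 4 * v) ^ 2 ≤ (3 * v ^ 2) * 𝔼 y : ι → Bool, ind (v / 4 ≤ rs s w y ^ 2) := by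
    calc (3 / 4 * v) ^ 2 ≤ (𝔼 y : ι → Bool, rs s w y ^ 2 * ind (v / 4 ≤ rs s w y ^ 2)) ^ 2 :=
          pow_le_pow_left₀ (by positivity) (by linarith) 2
      _ ≤ _ := h5
      _ ≤ _ := mul_le_mul_of_nonneg_right h4 hp
  have hv2 : 0 < v ^ 2 := by positivity
  nlinarith

/-- Littlewood-Offord for some of the summands. -/
theorem lo_sub {κ : Type*} [Fintype κ] [DecidableEq κ] (a : κ → ℝ) (M : Finset κ) {δ t : ℝ}
    (hδ : 0 < δ) (ht : 0 ≤ t) (ha : ∀ i ∈ M, δ ≤ |a i|) (c : ℝ) :
    𝔼 e : κ → Bool, ind (|c + ∑ i, a i * sg (e i)| ≤ t) ≤ (t / δ + 1) / √(M.card + 1) := by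
  classical
  have hcM : (0 : ℝ) < √((M.card : ℝ) + 1) := Real.sqrt_pos.mpr (by positivity)
  have key : ∀ c' : ℝ, 𝔼 e : {i // i ∈ M} → Bool,
      ind (|c' + ∑ i : {i // i ∈ M}, a i * sg (e i)| ≤ t) ≤
      (t / δ + 1) / √(M.card + 1) := by
    intro c'
    rw [Fintype.expect_eq_sum_div_card]
    have h1 := lo_many (fun i : {i // i ∈ M} => a i) hδ (fun i => ha i i.2)
      ((-t - c' + ∑ i : {i // i ∈ M}, a i) / 2) (⌊t / δ⌋₊ + 1)
    have h2 : ∑ e : {i // i ∈ M} → Bool,
        ind (|c' + ∑ i : {i // i ∈ M}, a i * sg (e i)| ≤ t) ≤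
        ((univ.filter fun e : {i // i ∈ M} → Bool =>
          (-t - c' + ∑ i : {i // i ∈ M}, a i) / 2 ≤
            ∑ i : {i // i ∈ M}, (if e i then a i else 0) ∧
          ∑ i : {i // i ∈ M}, (if e i then a i else 0) <
            (-t - c' + ∑ i : {i // i ∈ M}, a i) / 2 + (⌊t / δ⌋₊ + 1 : ℕ) * δ).card : ℝ) := by
      rw [Finset.card_filter]
      push_cast
      refine Finset.sum_le_sum fun e _ => ?_
      refine ind_le_of (by split_ifs <;> norm_num) fun h => ?_
      rw [if_pos]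
      have e1 : ∑ i : {i // i ∈ M}, a i * sg (e i) =
          2 * (∑ i : {i // i ∈ M}, (if e i then a i else 0)) - ∑ i : {i // i ∈ M}, a i := by
        rw [Finset.mul_sum, ← Finset.sum_sub_distrib]
        refine Finset.sum_congr rfl fun i _ => ?_
        cases e i <;> simp [sg]
        ring
      rw [e1, abs_le] at h
      have h3 : t < (⌊t / δ⌋₊ + 1) * δ := by
        have := Nat.lt_floor_add_one (t / δ)
        rwa [div_lt_iff₀ hδ] at this
      constructor
      · linarith [h.1]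
      · push_cast
        linarith [h.2]
    have h4 : ((univ.filter fun e : {i // i ∈ M} → Bool =>
          (-t - c' + ∑ i : {i // i ∈ M}, a i) / 2 ≤
            ∑ i : {i // i ∈ M}, (if e i then a i else 0) ∧
          ∑ i : {i // i ∈ M}, (if e i then a i else 0) <
            (-t - c' + ∑ i : {i // i ∈ M}, a i) / 2 + (⌊t / δ⌋₊ + 1 : ℕ) * δ).card : ℝ) ≤
        (⌊t / δ⌋₊ + 1 : ℕ) * (M.card.choose (M.card / 2) : ℕ) := by
      have := h1
      rw [Fintype.card_coe] at this
      exact_mod_cast this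
    have h5 := choose_half_le M.card
    have h6 : (⌊t / δ⌋₊ : ℝ) ≤ t / δ := Nat.floor_le (by positivity)
    have hcard : (Fintype.card ({i // i ∈ M} → Bool) : ℝ) = 2 ^ M.card := by
      rw [Fintype.card_fun, Fintype.card_bool, Fintype.card_coe]
      push_cast
      rfl
    rw [hcard, div_le_iff₀ (by positivity)]
    calc _ ≤ _ := h2
      _ ≤ _ := h4
      _ ≤ (t / δ + 1) * (2 ^ M.card / √(M.card + 1)) := by
          exact mul_le_mul (by push_cast; linarith) h5 (Nat.cast_nonneg _) (by positivity)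
      _ = _ := by ring
  have h := Fintype.expect_equiv (Equiv.piEquivPiSubtypeProd (fun i => i ∈ M) fun _ => Bool)
    (fun e => ind (|c + ∑ i, a i * sg (e i)| ≤ t))
    (fun p => ind (|(c + ∑ i : {i // ¬ i ∈ M}, a i * sg (p.2 i)) +
      ∑ i : {i // i ∈ M}, a i * sg (p.1 i)| ≤ t)) (by
    intro e
    refine ind_congr ?_
    have e1 : ∑ i, a i * sg (e i) = ∑ i : {i // i ∈ M}, a i * sg (e i) +
        ∑ i : {i // ¬ i ∈ M}, a i * sg (e i) := by
      rw [← Fintype.sum_subtype_add_sum_subtype (fun i => i ∈ M) fun i => a i * sg (e i)]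
      congr 1
      refine Finset.sum_congr ?_ fun _ _ => rfl
      ext i
      simp
    rw [e1]
    have e2 : c + (∑ i : {i // i ∈ M}, a i * sg (e i) + ∑ i : {i // ¬ i ∈ M}, a i * sg (e i)) =
        (c + ∑ i : {i // ¬ i ∈ M}, a i * sg (e i)) + ∑ i : {i // i ∈ M}, a i * sg (e i) := by
      ring
    rw [e2]
    rfl)
  rw [h, ← Finset.univ_product_univ, Finset.expect_product, Finset.expect_comm]
  refine Finset.expect_le (Finset.univ_nonempty) fun e _ => ?_
  exact key (c + ∑ i : {i // ¬ i ∈ M}, a i * sg (e i))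

end Pool.Agent.H1.TC
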