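import Pool.Agent.H1.TC.Ball

/-!
# Small balls for sums over blocks
-/

set_option autoImplicit false
set_option linter.unusedSectionVars false

namespace Pool.Agent.H1.TC

open Finset Pool.Agent.H1.LT Pool.Agent.H1.HL
open scoped BigOperators

variable {ι : Type*} [Fintype ι] [DecidableEq ι] {B : ℕ}

/-- A block. -/
def blk (col : ι → Fin B) (b : Fin B) : Finset ι := univ.filter fun i => col i = b

theorem mem_blk {col : ι → Fin B} {b : Fin B} {i : ι} : i ∈ blk col b ↔ col i = b := by
  simp [blk]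

/-- The squares of the weights in a block. -/
def vb (col : ι → Fin B) (w : ι → ℝ) (b : Fin B) : ℝ := ∑ i ∈ blk col b, w i ^ 2

theorem vb_nonneg (col : ι → Fin B) (w : ι → ℝ) (b : Fin B) : 0 ≤ vb col w b :=
  Finset.sum_nonneg fun _ _ => sq_nonneg _

/-- Changing the signs of blocks. -/
def twist (col : ι → Fin B) (σ : Fin B → Bool) (y : ι → Bool) : ι → Bool :=
  fun i => (y i == σ (col i))

theorem sg_beq (x z : Bool) : sg (x == z) = sg x * sg z := by cases x <;> cases z <;> simp

/-- Changing the signs of blocks. -/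
def twistE (col : ι → Fin B) (σ : Fin B → Bool) : (ι → Bool) ≃ (ι → Bool) where
  toFun := twist col σ
  invFun := twist col σ
  left_inv y := by
    funext i
    unfold twist
    cases y i <;> cases σ (col i) <;> rfl
  right_inv y := by
    funext i
    unfold twist
    cases y i <;> cases σ (col i) <;> rfl

theorem expect_twist (col : ι → Fin B) (F : (ι → Bool) → ℝ) :
    𝔼 y : ι → Bool, 𝔼 σ : Fin B → Bool, F (twist col σ y) = 𝔼 y : ι → Bool, F y := by
  rw [Finset.expect_comm]
  have h : ∀ σ : Fin B → Bool, 𝔼 y : ι → Bool, F (twist col σ y) = 𝔼 y : ι → Bool, F y :=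
    fun σ => Fintype.expect_equiv (twistE col σ) _ _ fun _ => rfl
  simp_rw [h]
  rw [Fintype.expect_const]

theorem rs_twist (col : ι → Fin B) (w : ι → ℝ) (b : Fin B) (σ : Fin B → Bool) (y : ι → Bool) :
    rs (blk col b) w (twist col σ y) = rs (blk col b) w y * sg (σ b) := by
  unfold rs
  rw [Finset.sum_mul]
  refine Finset.sum_congr rfl fun i hi => ?_
  rw [mem_blk] at hi
  simp only [twist]
  rw [sg_beq, hi]
  ring

theorem rs_mg_self (s : Finset ι) (w : ι → ℝ) (y z : ι → Bool) : rs s w (mg s y z) = rs s w y :=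
  Finset.sum_congr rfl fun i hi => by rw [mg_mem hi]

theorem rs_mg_disj {s t : Finset ι} (h : Disjoint s t) (w : ι → ℝ) (y z : ι → Bool) :
    rs s w (mg t y z) = rs s w z :=
  Finset.sum_congr rfl fun i hi => by rw [mg_not_mem (Finset.disjoint_left.mp h hi)]

theorem blk_disj (col : ι → Fin B) {b b' : Fin B} (h : b ≠ b') :
    Disjoint (blk col b) (blk col b') := by
  rw [Finset.disjoint_left]
  intro i hi hi'
  rw [mem_blk] at hi hi'
  exact h (hi.symm.trans hi')

/-- Chebyshev's inequality for the number of large blocks. -/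
theorem cheb (col : ι → Fin B) (w : ι → ℝ) {v : ℝ} (hv : 0 < v) (R : Finset (Fin B))
    (hR : ∀ b ∈ R, v ≤ vb col w b) (hR0 : 0 < R.card) :
    𝔼 y : ι → Bool, ind ((((R.filter fun b => v / 4 ≤ rs (blk col b) w y ^ 2).card : ℕ) : ℝ) <
      3 * R.card / 32) ≤ 256 / (9 * R.card) := by
  obtain ⟨X, hX⟩ : ∃ X : Fin B → (ι → Bool) → ℝ,
      X = fun b y => ind (v / 4 ≤ rs (blk col b) w y ^ 2) := ⟨_, rfl⟩
  obtain ⟨p, hp⟩ : ∃ p : Fin B → ℝ, p = fun b => 𝔼 y : ι → Bool, X b y := ⟨_, rfl⟩
  have hRr : (0 : ℝ) < R.card := by exact_mod_cast hR0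
  have hpb : ∀ b ∈ R, 3 / 16 ≤ p b := by
    intro b hb
    have hvb : 0 < vb col w b := lt_of_lt_of_le hv (hR b hb)
    refine (paley (blk col b) w hvb).trans ?_
    rw [hp]
    refine Finset.expect_le_expect fun y _ => ?_
    rw [hX]
    refine ind_mono fun h => ?_
    have := hR b hb
    unfold vb at this
    linarith
  have hcard : ∀ y, (((R.filter fun b => v / 4 ≤ rs (blk col b) w y ^ 2).card : ℕ) : ℝ) =
      ∑ b ∈ R, X b y := by
    intro y
    rw [Finset.card_filter]
    push_cast
    refine Finset.sum_congr rfl fun b _ => ?_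
    rw [hX]
    unfold ind
    simp only
  have h1 : ∀ y, ind ((((R.filter fun b => v / 4 ≤ rs (blk col b) w y ^ 2).card : ℕ) : ℝ) <
      3 * R.card / 32) ≤ (∑ b ∈ R, (X b y - p b)) ^ 2 / (3 * R.card / 32) ^ 2 := by
    intro y
    rw [hcard]
    refine ind_le_of (by positivity) fun h => ?_
    rw [le_div_iff₀ (by positivity), one_mul, Finset.sum_sub_distrib]
    have h2 : 3 / 16 * R.card ≤ ∑ b ∈ R, p b := by
      calc 3 / 16 * (R.card : ℝ) = ∑ _b ∈ R, (3 / 16 : ℝ) := by
            rw [Finset.sum_const, nsmul_eq_mul, mul_comm]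
        _ ≤ _ := Finset.sum_le_sum hpb
    rw [← sq_abs (∑ b ∈ R, X b y - ∑ b ∈ R, p b)]
    refine pow_le_pow_left₀ (by positivity) ?_ 2
    rw [abs_sub_comm]
    refine le_trans ?_ (le_abs_self _)
    linarith
  refine (Finset.expect_le_expect fun y _ => h1 y).trans ?_
  rw [← Finset.expect_div]
  have hX0 : ∀ b y, X b y ^ 2 = X b y := by
    intro b y
    rw [hX]
    by_cases h : v / 4 ≤ rs (blk col b) w y ^ 2
    · simp only [ind_pos h]; norm_num
    · simp only [ind_neg h]; norm_num
  have hzero : ∀ b, 𝔼 y : ι → Bool, (X b y - p b) = 0 := by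
    intro b
    rw [Finset.expect_sub_distrib, Fintype.expect_const, hp]
    simp
  have hvar : ∀ b, 𝔼 y : ι → Bool, (X b y - p b) ^ 2 ≤ 1 / 4 := by
    intro b
    have e : ∀ y, (X b y - p b) ^ 2 = X b y * (1 - 2 * p b) + p b ^ 2 := by
      intro y
      linear_combination hX0 b y
    simp_rw [e]
    rw [Finset.expect_add_distrib, Fintype.expect_const, ← Finset.expect_mul]
    have : 𝔼 y : ι → Bool, X b y = p b := by rw [hp]
    rw [this]
    nlinarith [sq_nonneg (p b - 1 / 2)]
  have hcross : ∀ b b', b ≠ b' → 𝔼 y : ι → Bool, (X b y - p b) * (X b' y - p b') = 0 := by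
    intro b b' hbb
    rw [expect_indep (blk col b) (fun y => X b y - p b) (fun y => X b' y - p b'), hzero, zero_mul]
    · intro y z
      rw [hX]
      simp only
      rw [rs_mg_self]
    · intro y z
      rw [hX]
      simp only
      rw [rs_mg_disj (blk_disj col hbb.symm)]
  have h3 : 𝔼 y : ι → Bool, (∑ b ∈ R, (X b y - p b)) ^ 2 ≤ R.card / 4 := by
    have e : ∀ y, (∑ b ∈ R, (X b y - p b)) ^ 2 =
        ∑ b ∈ R, ∑ b' ∈ R, (X b y - p b) * (X b' y - p b') := by
      intro y
      rw [sq, Finset.sum_mul_sum]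
    simp_rw [e]
    rw [Finset.expect_sum_comm]
    calc _ ≤ ∑ b ∈ R, (1 / 4 : ℝ) := by
          refine Finset.sum_le_sum fun b hb => ?_
          rw [Finset.expect_sum_comm, ← Finset.add_sum_erase _ _ hb, Finset.sum_eq_zero, add_zero]
          · have := hvar b
            simp_rw [sq] at this
            exact this
          · intro b' hb'
            exact hcross b b' (Finset.ne_of_mem_erase hb').symm
      _ = _ := by rw [Finset.sum_const, nsmul_eq_mul]; ring
  calc _ ≤ ((R.card : ℝ) / 4) / (3 * R.card / 32) ^ 2 :=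
        div_le_div_of_nonneg_right h3 (by positivity)
    _ = _ := by
        field_simp
        ring

/-- **Small ball inequality for blocks.** -/
theorem ball (col : ι → Fin B) (w : ι → ℝ) (b : Fin B) (c : ℝ) {T : ℝ} (hT : 1 ≤ T)
    (hv : 0 < vb col w b) :
    𝔼 y : ι → Bool, ind (|c + ∑ b' ∈ univ.erase b, rs (blk col b') w y| ≤ T * √(vb col w b)) ≤
      150 * T / √((univ.filter fun b' => vb col w b ≤ vb col w b').card) := by
  obtain ⟨v, hv'⟩ : ∃ v, v = vb col w b := ⟨_, rfl⟩
  rw [← hv'] at hv ⊢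
  have hsv : 0 < √v := Real.sqrt_pos.mpr hv
  obtain ⟨R, hR⟩ : ∃ R : Finset (Fin B), R = (univ.filter fun b' => v ≤ vb col w b').erase b :=
    ⟨_, rfl⟩
  have hbm : b ∈ univ.filter fun b' => v ≤ vb col w b' := by
    rw [Finset.mem_filter]
    exact ⟨Finset.mem_univ _, hv'.le⟩
  have hcard : (univ.filter fun b' => v ≤ vb col w b').card = R.card + 1 := by
    rw [hR, Finset.card_erase_of_mem hbm]
    have := Finset.card_pos.mpr ⟨b, hbm⟩
    omega
  rw [hcard]
  rcases Nat.eq_zero_or_pos R.card with h0 | hpos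
  · rw [h0]
    refine (Finset.expect_le (Finset.univ_nonempty) fun y _ => ind_le_one _).trans ?_
    norm_num
    linarith
  have hr : (1 : ℝ) ≤ R.card := by exact_mod_cast hpos
  have hr0 : (0 : ℝ) < R.card := by linarith
  -- the signs of the blocks
  have h1 : ∀ y : ι → Bool, 𝔼 σ : Fin B → Bool,
      ind (|c + ∑ b' ∈ univ.erase b, rs (blk col b') w (twist col σ y)| ≤ T * √v) ≤
      (2 * T + 1) * (1 / √(3 * R.card / 32) +
        ind ((((R.filter fun b => v / 4 ≤ rs (blk col b) w y ^ 2).card : ℕ) : ℝ) <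
          3 * R.card / 32)) := by
    intro y
    have h2 := lo_sub (fun b' => if b' = b then 0 else rs (blk col b') w y)
      (R.filter fun b => v / 4 ≤ rs (blk col b) w y ^ 2) (δ := √v / 2) (t := T * √v)
      (by positivity) (by positivity) (by
        intro b' hb'
        rw [Finset.mem_filter, hR, Finset.mem_erase] at hb'
        rw [if_neg hb'.1.1]
        have h3 : (√v / 2) ^ 2 ≤ rs (blk col b') w y ^ 2 := by
          rw [div_pow, Real.sq_sqrt hv.le]
          linarith [hb'.2]
        exact abs_of_nonneg (a := √v / 2) (by positivity) ▸ sq_le_sq.mp h3) c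
    have e1 : ∀ σ : Fin B → Bool, c + ∑ b' ∈ univ.erase b, rs (blk col b') w (twist col σ y) =
        c + ∑ b', (if b' = b then 0 else rs (blk col b') w y) * sg (σ b') := by
      intro σ
      congr 1
      rw [← Finset.add_sum_erase univ _ (Finset.mem_univ b), if_pos rfl, zero_mul, zero_add]
      refine Finset.sum_congr rfl fun b' hb' => ?_
      rw [if_neg (Finset.ne_of_mem_erase hb'), rs_twist]
    simp_rw [e1]
    refine h2.trans ?_
    have e2 : T * √v / (√v / 2) = 2 * T := by
      field_simp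
    rw [e2, div_eq_mul_one_div]
    refine mul_le_mul_of_nonneg_left ?_ (by linarith)
    obtain ⟨q, hq⟩ : ∃ q : ℝ, q =
      (((R.filter fun b => v / 4 ≤ rs (blk col b) w y ^ 2).card : ℕ) : ℝ) := ⟨_, rfl⟩
    rw [← hq]
    have hq0 : 0 ≤ q := by rw [hq]; exact Nat.cast_nonneg _
    by_cases hlt : q < 3 * R.card / 32
    · rw [ind_pos hlt]
      have h4 : 1 / √(q + 1) ≤ 1 := by
        rw [div_le_one (Real.sqrt_pos.mpr (by positivity))]
        exact Real.one_le_sqrt.mpr (by linarith)
      have h5 : 0 ≤ 1 / √(3 * (R.card : ℝ) / 32) := by positivity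
      linarith
    · rw [ind_neg hlt, add_zero]
      push Not at hlt
      refine one_div_le_one_div_of_le (Real.sqrt_pos.mpr (by positivity)) ?_
      exact Real.sqrt_le_sqrt (by linarith)
  rw [← expect_twist col]
  refine (Finset.expect_le_expect fun y _ => h1 y).trans ?_
  rw [← Finset.mul_expect, Finset.expect_add_distrib, Fintype.expect_const]
  have h3 := cheb col w hv R (fun b' hb' => by
    rw [hR, Finset.mem_erase, Finset.mem_filter] at hb'
    exact hb'.2.2) hpos
  -- the numbers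
  obtain ⟨ρ, hρ⟩ : ∃ ρ : ℝ, ρ = √(R.card : ℝ) := ⟨_, rfl⟩
  have hρ1 : 1 ≤ ρ := by rw [hρ]; exact Real.one_le_sqrt.mpr hr
  have hρ2 : ρ * ρ = R.card := by rw [hρ]; exact Real.mul_self_sqrt hr0.le
  have h6 : 1 / √(3 * (R.card : ℝ) / 32) ≤ 3.3 / ρ := by
    have : ρ / 3.3 ≤ √(3 * (R.card : ℝ) / 32) := by
      apply Real.le_sqrt_of_sq_le
      rw [div_pow, sq, hρ2]
      rw [div_le_div_iff₀ (by norm_num) (by norm_num)]
      nlinarith
    calc 1 / √(3 * (R.card : ℝ) / 32) ≤ 1 / (ρ / 3.3) :=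
          one_div_le_one_div_of_le (by positivity) this
      _ = _ := by field_simp
  have h7 : 256 / (9 * (R.card : ℝ)) ≤ 28.5 / ρ := by
    rw [← hρ2, div_le_div_iff₀ (by positivity) (by positivity)]
    nlinarith [mul_pos (lt_of_lt_of_le one_pos hρ1) (lt_of_lt_of_le one_pos hρ1)]
  have h8 : √((R.card : ℝ) + 1) ≤ 1.42 * ρ := by
    rw [Real.sqrt_le_left (by positivity)]
    nlinarith
  have hs1 : 0 < √((R.card : ℝ) + 1) := Real.sqrt_pos.mpr (by positivity)
  push_cast
  rw [le_div_iff₀ hs1]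
  have h9 : 1 / √(3 * (R.card : ℝ) / 32) + 256 / (9 * (R.card : ℝ)) ≤ 31.8 / ρ := by
    calc _ ≤ 3.3 / ρ + 28.5 / ρ := add_le_add h6 h7
      _ = _ := by rw [← add_div]; norm_num
  calc (2 * T + 1) * (1 / √(3 * (R.card : ℝ) / 32) + _) * √((R.card : ℝ) + 1)
      ≤ (3 * T) * (31.8 / ρ) * (1.42 * ρ) := by
        refine mul_le_mul (mul_le_mul (by linarith) ?_ ?_ (by linarith)) h8 hs1.le (by positivity)
        · exact (add_le_add le_rfl h3).trans h9
        · exact add_nonneg (by positivity) (Finset.expect_nonneg fun _ _ => ind_nonneg _)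
    _ ≤ 150 * T := by
        have : (3 * T) * (31.8 / ρ) * (1.42 * ρ) = 3 * 31.8 * 1.42 * T := by
          field_simp
        rw [this]
        nlinarith

end Pool.Agent.H1.TC
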