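import Pool.Agent.H1.TC.Net

/-!
# The errors of a network
-/

set_option autoImplicit false
set_option linter.unusedSectionVars false

namespace Pool.Agent.H1.TC

open Finset
open Pool.Agent.H1.LT (Simple HasTriangle)
open scoped BigOperators

variable {m n K : ℕ}

/-- The planted sample. -/
def pl (j v : Fin n) (c : Fin K) (v2 : Fin n) (z : Sp n K) : Sp n K :=
  Function.update (Function.update z (Sum.inl j) (v, c)) (Sum.inr v) (v2, c)

/-- The factor. -/
noncomputable def Qn (n d : ℕ) : ℝ := 80 * 2 ^ (d + 3) * cst (2 * n)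

theorem Qn_ge (hn : 0 < n) (d : ℕ) : 1 ≤ Qn n d := by
  unfold Qn
  have h1 : (301 : ℝ) ≤ cst (2 * n) := cst_ge (by
    have : (1 : ℝ) ≤ n := by exact_mod_cast hn
    linarith)
  have h2 : (1 : ℝ) ≤ 2 ^ (d + 3) := one_le_pow₀ (by norm_num)
  nlinarith

theorem close (hn : 0 < n) (hK : 0 < K) (hm : 3 * n ≤ m) (C : Network m) (d : ℕ) {R : ℝ}
    (hR : 1 ≤ R) (hW : (C.wires : ℝ) ≤ R * n)
    (hreq : 80 * (d + 1) * (R * Qn n d) ^ (4 * 3 ^ d) ≤ n) :
    |𝔼 j : Fin n, 𝔼 v : Fin n, 𝔼 c : Fin K, 𝔼 v2 : Fin n, 𝔼 z : Sp n K,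
      ind (C.answer (d + 1) (ta n K) (tb (pl j v c v2 z)) = true) -
      𝔼 z : Sp n K, ind (C.answer (d + 1) (ta n K) (tb z) = true)| ≤ 1 / 20 := by
  have hnr : (0 : ℝ) < n := by exact_mod_cast hn
  have hn1 : (1 : ℝ) ≤ n := by exact_mod_cast hn
  have hQ := Qn_ge hn d
  obtain ⟨Y, hY⟩ : ∃ Y, Y = R * Qn n d := ⟨_, rfl⟩
  have hY1 : 1 ≤ Y := by rw [hY]; nlinarith
  have hRY : R ≤ Y := by rw [hY]; nlinarith
  rw [← hY] at hreq
  have hYD : Y ^ (4 * 3 ^ d) ≤ n := by
    have h1 : (1 : ℝ) ≤ 80 * (d + 1) := by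
      have : (0 : ℝ) ≤ d := Nat.cast_nonneg d
      linarith
    have h2 : 0 ≤ Y ^ (4 * 3 ^ d) := by positivity
    nlinarith
  have h := planted (K := K) hn hK (toNt C n K hm) C.out (M := 2 * n) (Y := Y)
    (by push_cast; exact le_rfl) hY1 (d := d + 1) (by
      rw [Nat.add_sub_cancel]
      calc Y ^ 3 ^ d ≤ Y ^ (4 * 3 ^ d) := pow_le_pow_right₀ hY1 (by
            have : 0 < 3 ^ d := by positivity
            omega)
        _ ≤ n := hYD
        _ ≤ 2 * n := by linarith) (W := R * n) ((toNt_W C hn hm).trans hW)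
  simp only [toNt_run] at h
  refine h.trans ?_
  rw [Nat.add_sub_cancel]
  have hc : 0 < cst (2 * (n : ℝ)) := by
    have := cst_ge (M := 2 * (n : ℝ)) (by linarith)
    linarith
  have e1 : 2 ^ (d + 1 + 1) * cst (2 * (n : ℝ)) * (R * n / Y) / n = 1 / 160 := by
    rw [hY]
    unfold Qn
    have : (2 : ℝ) ^ (d + 3) = 2 * 2 ^ (d + 1 + 1) := by ring
    rw [this]
    field_simp
    norm_num
  have e2 : ((d + 1 : ℕ) : ℝ) * (Y ^ (4 * 3 ^ d - 2) * (R * n)) / n ^ 2 ≤ 1 / 80 := by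
    rw [div_le_iff₀ (by positivity)]
    have h3 : Y ^ (4 * 3 ^ d - 2) * R ≤ Y ^ (4 * 3 ^ d) := by
      have h4 : Y ^ (4 * 3 ^ d) = Y ^ (4 * 3 ^ d - 2) * Y ^ 2 := by
        rw [← pow_add]
        congr 1
        have : 0 < 3 ^ d := by positivity
        omega
      rw [h4]
      refine mul_le_mul_of_nonneg_left ?_ (by positivity)
      nlinarith
    push_cast
    have hd : (0 : ℝ) ≤ (d : ℝ) + 1 := by positivity
    calc ((d : ℝ) + 1) * (Y ^ (4 * 3 ^ d - 2) * (R * n)) =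
        ((d : ℝ) + 1) * (Y ^ (4 * 3 ^ d - 2) * R) * n := by ring
      _ ≤ ((d : ℝ) + 1) * Y ^ (4 * 3 ^ d) * n := by
          refine mul_le_mul_of_nonneg_right ?_ hnr.le
          exact mul_le_mul_of_nonneg_left h3 hd
      _ ≤ 1 / 80 * n * n := by
          refine mul_le_mul_of_nonneg_right ?_ hnr.le
          linarith
      _ = _ := by ring
  rw [e1]
  linarith

/-- The index of the family. -/
abbrev Idx (n K : ℕ) : Type := Bool × (Fin n × (Fin n × (Fin K × (Fin n × Sp n K))))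

/-- The second names of the family. -/
def fb (x : Idx n K) : Fin m → ℕ :=
  tb (if x.1 then pl x.2.1 x.2.2.1 x.2.2.2.1 x.2.2.2.2.1 x.2.2.2.2.2 else x.2.2.2.2.2)

theorem errors (hn : 0 < n) (hm : 3 * n ≤ m) (C : Network m) (d : ℕ) {R : ℝ}
    (hR : 1 ≤ R) (hW : (C.wires : ℝ) ≤ R * n)
    (hreq : 80 * (d + 1) * (R * Qn n d) ^ (4 * 3 ^ d) ≤ n) :
    2 / 5 * (Fintype.card (Idx n (20 * n)) : ℝ) ≤
      ({x : Idx n (20 * n) | ¬ (C.answer (d + 1) (ta n (20 * n)) (fb x) = true ↔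
        HasTriangle (ta (m := m) n (20 * n)) (fb x))} : Set (Idx n (20 * n))).ncard := by
  classical
  have : Nonempty (Fin n) := ⟨⟨0, hn⟩⟩
  have hK : 0 < 20 * n := by omega
  have : Nonempty (Fin (20 * n)) := ⟨⟨0, hK⟩⟩
  have hnr : (0 : ℝ) < n := by exact_mod_cast hn
  obtain ⟨A, hA⟩ : ∃ A : Sp n (20 * n) → ℝ,
    A = fun z => ind (C.answer (d + 1) (ta n (20 * n)) (tb z) = true) := ⟨_, rfl⟩
  have hclose := close hn hK hm C d hR hW hreq
  have htri := prob_triangle (m := m) (n := n) (K := 20 * n) hn hK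
  have hq : (n : ℝ) / ((20 * n : ℕ) : ℝ) = 1 / 20 := by
    push_cast
    field_simp
  rw [hq] at htri
  have e1 : (({x : Idx n (20 * n) | ¬ (C.answer (d + 1) (ta n (20 * n)) (fb x) = true ↔
        HasTriangle (ta (m := m) n (20 * n)) (fb x))} : Set (Idx n (20 * n))).ncard : ℝ) =
      Fintype.card (Idx n (20 * n)) * 𝔼 x : Idx n (20 * n),
        ind (¬ (C.answer (d + 1) (ta n (20 * n)) (fb x) = true ↔
        HasTriangle (ta (m := m) n (20 * n)) (fb x))) := by
    rw [Fintype.card_mul_expect, Set.ncard_eq_toFinset_card', Finset.card_eq_sum_ones]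
    push_cast
    rw [← Finset.sum_filter_add_sum_filter_not univ (fun x : Idx n (20 * n) =>
      ¬ (C.answer (d + 1) (ta n (20 * n)) (fb x) = true ↔
        HasTriangle (ta (m := m) n (20 * n)) (fb x)))]
    rw [Finset.sum_eq_zero (s := univ.filter fun x : Idx n (20 * n) =>
      ¬ ¬ (C.answer (d + 1) (ta n (20 * n)) (fb x) = true ↔
        HasTriangle (ta (m := m) n (20 * n)) (fb x))), add_zero]
    · refine Finset.sum_congr ?_ fun x hx => ?_
      · ext x
        simp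
      · rw [ind_pos]
        simpa using hx
    · intro x hx
      exact ind_neg (Finset.mem_filter.mp hx).2
  have e2 : ∀ F : Idx n (20 * n) → ℝ, 𝔼 x, F x =
      (𝔼 j : Fin n, 𝔼 v : Fin n, 𝔼 c : Fin (20 * n), 𝔼 v2 : Fin n, 𝔼 z : Sp n (20 * n),
        F (true, j, v, c, v2, z) +
      𝔼 j : Fin n, 𝔼 v : Fin n, 𝔼 c : Fin (20 * n), 𝔼 v2 : Fin n, 𝔼 z : Sp n (20 * n),
        F (false, j, v, c, v2, z)) / 2 := by
    intro F
    rw [← Finset.univ_product_univ, Finset.expect_product, Fintype.expect_eq_sum_div_card]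
    simp only [Fintype.sum_bool, Fintype.card_bool]
    have : ∀ b : Bool, 𝔼 y : Fin n × (Fin n × (Fin (20 * n) × (Fin n × Sp n (20 * n)))), F (b, y) =
        𝔼 j : Fin n, 𝔼 v : Fin n, 𝔼 c : Fin (20 * n), 𝔼 v2 : Fin n, 𝔼 z : Sp n (20 * n),
        F (b, j, v, c, v2, z) := by
      intro b
      rw [← Finset.univ_product_univ, Finset.expect_product]
      refine Finset.expect_congr rfl fun j _ => ?_
      rw [← Finset.univ_product_univ, Finset.expect_product]
      refine Finset.expect_congr rfl fun v _ => ?_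
      rw [← Finset.univ_product_univ, Finset.expect_product]
      refine Finset.expect_congr rfl fun c _ => ?_
      rw [← Finset.univ_product_univ, Finset.expect_product]
    rw [this, this]
    norm_num
  rw [e1, mul_comm]
  refine mul_le_mul_of_nonneg_left ?_ (Nat.cast_nonneg _)
  rw [e2]
  have p1 : ∀ (j v : Fin n) (c : Fin (20 * n)) (v2 : Fin n) (z : Sp n (20 * n)),
      ind (¬ (C.answer (d + 1) (ta n (20 * n)) (fb (m := m) (true, j, v, c, v2, z)) = true ↔
        HasTriangle (ta (m := m) n (20 * n)) (fb (true, j, v, c, v2, z)))) =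
      1 - A (pl j v c v2 z) := by
    intro j v c v2 z
    have e : (fb (true, j, v, c, v2, z) : Fin m → ℕ) = tb (pl j v c v2 z) := rfl
    rw [e, hA]
    have ht : HasTriangle (ta (m := m) n (20 * n)) (tb (pl j v c v2 z)) :=
      triangle_t hm z j v v2 c
    by_cases h : C.answer (d + 1) (ta n (20 * n)) (tb (pl j v c v2 z)) = true
    · simp only
      rw [ind_pos h, ind_neg (by simp [h, ht])]
      norm_num
    · simp only
      rw [ind_neg h, ind_pos (fun hc => h (hc.mpr ht))]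
      norm_num
  have p2 : ∀ (j v : Fin n) (c : Fin (20 * n)) (v2 : Fin n) (z : Sp n (20 * n)),
      A z - ind (HasTriangle (ta (m := m) n (20 * n)) (tb z)) ≤
      ind (¬ (C.answer (d + 1) (ta n (20 * n)) (fb (m := m) (false, j, v, c, v2, z)) = true ↔
        HasTriangle (ta (m := m) n (20 * n)) (fb (false, j, v, c, v2, z)))) := by
    intro j v c v2 z
    have e : (fb (false, j, v, c, v2, z) : Fin m → ℕ) = tb z := rfl
    rw [e, hA]
    simp only
    by_cases ht : HasTriangle (ta (m := m) n (20 * n)) (tb z)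
    · rw [ind_pos ht]
      linarith [ind_le_one (C.answer (d + 1) (ta n (20 * n)) (tb z) = true),
        ind_nonneg (¬ (C.answer (d + 1) (ta n (20 * n)) (tb z) = true ↔
          HasTriangle (ta (m := m) n (20 * n)) (tb z)))]
    · rw [ind_neg ht, sub_zero]
      exact ind_mono fun h hc => ht (hc.mp h)
  have q1 : 𝔼 j : Fin n, 𝔼 v : Fin n, 𝔼 c : Fin (20 * n), 𝔼 v2 : Fin n, 𝔼 z : Sp n (20 * n),
      ind (¬ (C.answer (d + 1) (ta n (20 * n)) (fb (m := m) (true, j, v, c, v2, z)) = true ↔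
        HasTriangle (ta (m := m) n (20 * n)) (fb (true, j, v, c, v2, z)))) =
      1 - 𝔼 j : Fin n, 𝔼 v : Fin n, 𝔼 c : Fin (20 * n), 𝔼 v2 : Fin n, 𝔼 z : Sp n (20 * n),
        A (pl j v c v2 z) := by
    simp_rw [p1, Finset.expect_sub_distrib, Fintype.expect_const]
  have q2 : 𝔼 z, A z -
      𝔼 z : Sp n (20 * n), ind (HasTriangle (ta (m := m) n (20 * n)) (tb z)) ≤
      𝔼 j : Fin n, 𝔼 v : Fin n, 𝔼 c : Fin (20 * n), 𝔼 v2 : Fin n, 𝔼 z : Sp n (20 * n),
      ind (¬ (C.answer (d + 1) (ta n (20 * n)) (fb (m := m) (false, j, v, c, v2, z)) = true ↔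
        HasTriangle (ta (m := m) n (20 * n)) (fb (false, j, v, c, v2, z)))) := by
    have e : (𝔼 z, A z -
        𝔼 z : Sp n (20 * n), ind (HasTriangle (ta (m := m) n (20 * n)) (tb z))) =
        𝔼 _j : Fin n, 𝔼 _v : Fin n, 𝔼 _c : Fin (20 * n), 𝔼 _v2 : Fin n, 𝔼 z : Sp n (20 * n),
        (A z - ind (HasTriangle (ta (m := m) n (20 * n)) (tb z))) := by
      rw [Fintype.expect_const, Fintype.expect_const, Fintype.expect_const,
        Fintype.expect_const, Finset.expect_sub_distrib]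
    rw [e]
    exact Finset.expect_le_expect fun j _ => Finset.expect_le_expect fun v _ =>
      Finset.expect_le_expect fun c _ => Finset.expect_le_expect fun v2 _ =>
      Finset.expect_le_expect fun z _ => p2 j v c v2 z
  have hA' : 𝔼 z : Sp n (20 * n), ind (C.answer (d + 1) (ta n (20 * n)) (tb z) = true) =
    𝔼 z, A z := by rw [hA]
  have hA'' : 𝔼 j : Fin n, 𝔼 v : Fin n, 𝔼 c : Fin (20 * n), 𝔼 v2 : Fin n,
      𝔼 z : Sp n (20 * n),
      ind (C.answer (d + 1) (ta n (20 * n)) (tb (pl j v c v2 z)) = true) =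
    𝔼 j : Fin n, 𝔼 v : Fin n, 𝔼 c : Fin (20 * n), 𝔼 v2 : Fin n, 𝔼 z : Sp n (20 * n),
        A (pl j v c v2 z) := by rw [hA]
  rw [hA', hA''] at hclose
  have h1 := (abs_le.mp hclose).2
  rw [q1]
  linarith

end Pool.Agent.H1.TC
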