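import Pool.Agent.H1.TC.Step

/-!
# General alphabets, and the bound
-/

set_option autoImplicit false
set_option linter.unusedSectionVars false

namespace Pool.Agent.H1.TC

open Finset Pool.Agent.H1.LT Pool.Agent.H1.HL
open scoped BigOperators

variable {ι G : Type*} [Fintype ι] [DecidableEq ι] [Fintype G] [DecidableEq G]

/-- Only two letters for each item. -/
def cube {α : Type*} (C : Nt ι G α) (z0 z1 : ι → α) : Nt ι G Bool where
  φ g i b := C.φ g i (if b then z1 i else z0 i)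
  w := C.w
  θ := C.θ
  I := C.I
  J := C.J
  hI g i hi _ _ := C.hI g i hi _ _
  hJ := C.hJ

/-- The selected letters. -/
def sel {α : Type*} (z0 z1 : ι → α) (y : ι → Bool) : ι → α := fun i => if y i then z1 i else z0 i

theorem cube_W {α : Type*} (C : Nt ι G α) (z0 z1 : ι → α) : (cube C z0 z1).W = C.W := rfl

theorem cube_arg {α : Type*} (C : Nt ι G α) (z0 z1 : ι → α) (y : ι → Bool) (u : G → ℝ) :
    (cube C z0 z1).arg u y = C.arg u (sel z0 z1 y) := rfl

theorem cube_run {α : Type*} (C : Nt ι G α) (z0 z1 : ι → α) (y : ι → Bool) (t : ℕ) (u : G → ℝ) :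
    (cube C z0 z1).run y t u = C.run (sel z0 z1 y) t u := rfl

theorem Z_gen {α : Type*} [Fintype α] [Nonempty α] (C : Nt ι G α) (t : ℕ) (u0 : G → ℝ)
    (H : Finset G) (K : ℝ)
    (hK : ∀ C' : Nt ι G Bool, C'.W = C.W → ∀ (S : Finset ι) (a : ι → Bool)
      (u : (ι → Bool) → G → ℝ), One S a u → Z C' t u H S a ≤ K) :
    𝔼 z : ι → α, 𝔼 z' : ι → α, ∑ i, ind (∃ g ∈ H,
      C.Piv t (fun _ => u0) g z (Function.update z i (z' i))) ≤ K := by
  classical
  have h1 : ∀ y : ι → Bool,
      𝔼 z : ι → α, 𝔼 z' : ι → α, ∑ i, ind (∃ g ∈ H,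
        C.Piv t (fun _ => u0) g z (Function.update z i (z' i))) =
      𝔼 z0 : ι → α, 𝔼 z1 : ι → α, ∑ i, ind (∃ g ∈ H,
        (cube C z0 z1).Piv t (fun _ => u0) g y (fl i y)) := by
    intro y
    rw [← expect_swp (univ.filter fun i => y i = true) fun z z' => ∑ i, ind (∃ g ∈ H,
        C.Piv t (fun _ => u0) g z (Function.update z i (z' i)))]
    refine Finset.expect_congr rfl fun z0 _ => Finset.expect_congr rfl fun z1 _ =>
      Finset.sum_congr rfl fun i _ => ?_
    have e1 : mg (univ.filter fun i => y i = true) z1 z0 = sel z0 z1 y := by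
      funext j
      unfold mg sel
      by_cases hj : y j = true
      · rw [if_pos (by rw [Finset.mem_filter]; exact ⟨Finset.mem_univ _, hj⟩), if_pos hj]
      · rw [if_neg (by rw [Finset.mem_filter]; exact fun h => hj h.2), if_neg hj]
    have e2 : Function.update (sel z0 z1 y) i
        (mg (univ.filter fun i => y i = true) z0 z1 i) = sel z0 z1 (fl i y) := by
      funext j
      by_cases hj : j = i
      · subst hj
        rw [Function.update_self]
        unfold mg sel
        rw [fl_self]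
        by_cases hj : y j = true
        · rw [if_pos (by rw [Finset.mem_filter]; exact ⟨Finset.mem_univ _, hj⟩), hj]
          simp
        · rw [if_neg (by rw [Finset.mem_filter]; exact fun h => hj h.2)]
          simp [hj]
      · rw [Function.update_of_ne hj]
        unfold sel
        rw [fl_ne hj]
    rw [e1, e2]
    refine ind_congr ?_
    unfold Nt.Piv
    simp only [cube_arg, cube_run]
  have h2 : 𝔼 z : ι → α, 𝔼 z' : ι → α, ∑ i, ind (∃ g ∈ H,
        C.Piv t (fun _ => u0) g z (Function.update z i (z' i))) =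
      𝔼 z0 : ι → α, 𝔼 z1 : ι → α, Z (cube C z0 z1) t (fun _ => u0) H univ (fun _ => true) := by
    calc _ = 𝔼 y : ι → Bool, 𝔼 z : ι → α, 𝔼 z' : ι → α, ∑ i, ind (∃ g ∈ H,
        C.Piv t (fun _ => u0) g z (Function.update z i (z' i))) := by
          rw [Fintype.expect_const]
      _ = 𝔼 y : ι → Bool, 𝔼 z0 : ι → α, 𝔼 z1 : ι → α, ∑ i, ind (∃ g ∈ H,
        (cube C z0 z1).Piv t (fun _ => u0) g y (fl i y)) :=
          Finset.expect_congr rfl fun y _ => h1 y
      _ = _ := by
          rw [Finset.expect_comm]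
          refine Finset.expect_congr rfl fun z0 _ => ?_
          rw [Finset.expect_comm]
          refine Finset.expect_congr rfl fun z1 _ => ?_
          unfold Z
          refine Finset.expect_congr rfl fun y _ => ?_
          have e : mg univ y (fun _ => true) = y := by
            funext j
            exact mg_mem (Finset.mem_univ j)
          rw [e]
  rw [h2]
  refine Finset.expect_le Finset.univ_nonempty fun z0 _ =>
    Finset.expect_le Finset.univ_nonempty fun z1 _ => ?_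
  exact hK _ (cube_W C z0 z1) _ _ _ fun g => ⟨∅, by simp, fun _ _ _ => rfl⟩

/-- The constant. -/
noncomputable def cst (M : ℝ) : ℝ := 301 + 600 * Real.log (2 * M)

theorem cst_ge {M : ℝ} (hM : 1 ≤ M) : 301 ≤ cst M := by
  unfold cst
  have : 0 ≤ Real.log (2 * M) := Real.log_nonneg (by linarith)
  linarith

/-- The parameters of one step. -/
theorem one_step_num {M r : ℝ} {N : ℕ} (hN : 1 ≤ N) (hM : (N : ℝ) ≤ M) (hr0 : 0 < r)
    (hr1 : r ≤ 1) (hrM : 1 ≤ M * r) {W K A : ℝ} (hW : 0 ≤ W) (hA : 0 ≤ A)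
    (hK : K ≤ A * (r ^ 3 * W)) :
    ∃ (T : ℝ) (B : ℕ), 1 ≤ T ∧ 0 < B ∧
      150 * T * √(2 * (1 + Real.log B)) * (W / √B) + 4 * N * (W * Real.exp (-(T ^ 2 / 2))) +
        B * K ≤ (cst M + 2 * A) * (r * W) := by
  have hNr : (1 : ℝ) ≤ N := by exact_mod_cast hN
  have hM1 : 1 ≤ M := hNr.trans hM
  obtain ⟨L, hL⟩ : ∃ L, L = Real.log (2 * M) := ⟨_, rfl⟩
  have hL0 : 0 < L := by
    rw [hL]
    exact Real.log_pos (by linarith)
  have hL1 : 1 / 2 ≤ L := by
    rw [hL]
    have h1 : Real.log 2 ≤ Real.log (2 * M) := Real.log_le_log (by norm_num) (by linarith)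
    have h2 := Real.log_two_gt_d9
    linarith
  obtain ⟨T, hT⟩ : ∃ T, T = √(4 * L) := ⟨_, rfl⟩
  have hT2 : T ^ 2 = 4 * L := by rw [hT]; exact Real.sq_sqrt (by positivity)
  have hT1 : 1 ≤ T := by
    rw [hT]
    exact Real.one_le_sqrt.mpr (by linarith)
  obtain ⟨B, hB⟩ : ∃ B : ℕ, B = ⌈1 / r ^ 2⌉₊ := ⟨_, rfl⟩
  have hr2 : 1 ≤ 1 / r ^ 2 := by
    rw [le_div_iff₀ (by positivity), one_mul]
    exact pow_le_one₀ hr0.le hr1
  have hB1 : 1 / r ^ 2 ≤ B := by rw [hB]; exact Nat.le_ceil _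
  have hB2 : (B : ℝ) ≤ 2 / r ^ 2 := by
    rw [hB]
    have h1 := (Nat.ceil_lt_add_one (a := 1 / r ^ 2) (by positivity)).le
    calc _ ≤ 1 / r ^ 2 + 1 := h1
      _ ≤ 1 / r ^ 2 + 1 / r ^ 2 := by linarith
      _ = _ := by ring
  have hBr : (0 : ℝ) < B := lt_of_lt_of_le (by positivity) hB1
  have hB0 : 0 < B := by exact_mod_cast hBr
  refine ⟨T, B, hT1, hB0, ?_⟩
  -- first term
  have hsB : 1 / r ≤ √B := by
    apply Real.le_sqrt_of_sq_le
    rw [div_pow, one_pow]
    exact hB1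
  have hsB0 : 0 < √(B : ℝ) := Real.sqrt_pos.mpr hBr
  have h1 : W / √B ≤ r * W := by
    rw [div_le_iff₀ hsB0]
    have h2 : 1 ≤ r * √B := by
      rw [div_le_iff₀ hr0] at hsB
      linarith
    nlinarith
  have hlogB : Real.log B ≤ 2 * L := by
    have h2 : (B : ℝ) ≤ (2 * M) ^ 2 := by
      refine hB2.trans ?_
      rw [div_le_iff₀ (by positivity)]
      have h3 : 1 ≤ (M * r) ^ 2 := one_le_pow₀ hrM
      nlinarith
    have h3 := Real.log_le_log hBr h2
    rw [Real.log_pow] at h3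
    push_cast at h3
    rw [hL]
    linarith
  have hlogB0 : 0 ≤ Real.log B := Real.log_nonneg (by exact_mod_cast hB0)
  have h4 : T * √(2 * (1 + Real.log B)) ≤ 2 + 4 * L := by
    rw [hT, ← Real.sqrt_mul (by positivity)]
    rw [Real.sqrt_le_left (by positivity)]
    nlinarith
  have h5 : 150 * T * √(2 * (1 + Real.log B)) * (W / √B) ≤ (300 + 600 * L) * (r * W) := by
    have e : 150 * T * √(2 * (1 + Real.log B)) = 150 * (T * √(2 * (1 + Real.log B))) := by ring
    rw [e]
    refine mul_le_mul ?_ h1 (by positivity) (by positivity)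
    linarith
  -- second term
  have h6 : 4 * N * (W * Real.exp (-(T ^ 2 / 2))) ≤ 1 * (r * W) := by
    have e : Real.exp (-(T ^ 2 / 2)) = 1 / (2 * M) ^ 2 := by
      rw [hT2, hL]
      have e1 : -(4 * Real.log (2 * M) / 2) = -Real.log ((2 * M) ^ 2) := by
        rw [Real.log_pow]
        push_cast
        ring
      rw [e1, Real.exp_neg, Real.exp_log (by positivity), one_div]
    rw [e, one_mul]
    have h7 : 4 * (N : ℝ) * (1 / (2 * M) ^ 2) ≤ r := by
      rw [mul_one_div, div_le_iff₀ (by positivity)]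
      nlinarith
    calc 4 * (N : ℝ) * (W * (1 / (2 * M) ^ 2)) = 4 * (N : ℝ) * (1 / (2 * M) ^ 2) * W := by ring
      _ ≤ r * W := mul_le_mul_of_nonneg_right h7 hW
  -- third term
  have h8 : (B : ℝ) * K ≤ 2 * A * (r * W) := by
    calc (B : ℝ) * K ≤ B * (A * (r ^ 3 * W)) := mul_le_mul_of_nonneg_left hK hBr.le
      _ ≤ 2 / r ^ 2 * (A * (r ^ 3 * W)) := mul_le_mul_of_nonneg_right hB2 (by positivity)
      _ = _ := by field_simp
  have h9 : (cst M + 2 * A) * (r * W) = (300 + 600 * L) * (r * W) + 1 * (r * W) +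
      2 * A * (r * W) := by
    unfold cst
    rw [← hL]
    ring
  rw [h9]
  linarith

/-- **The bound.** -/
theorem Z_bound {M y : ℝ} (hM : (Fintype.card ι : ℝ) ≤ M) (hN : 1 ≤ Fintype.card ι) (hy0 : 0 < y)
    (hy1 : y ≤ 1) (t : ℕ) (hyM : 1 ≤ M * y ^ 3 ^ t) (H : Finset G) {W : ℝ} (hW : 0 ≤ W)
    (hH : (H.card : ℝ) ≤ (y ^ 3 ^ t) ^ 2 * W) (m : ℕ) (hm : m ≤ t) :
    ∀ C : Nt ι G Bool, C.W ≤ W → ∀ (S : Finset ι) (a : ι → Bool) (u : (ι → Bool) → G → ℝ),
      One S a u → Z C m u H S a ≤ (2 ^ (m + 1) - 1) * cst M * (y ^ 3 ^ (t - m) * W) := by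
  have hNr : (1 : ℝ) ≤ Fintype.card ι := by exact_mod_cast hN
  have hM1 : 1 ≤ M := hNr.trans hM
  have hcst := cst_ge hM1
  induction m with
  | zero =>
    intro C hC S a u hu
    refine (Z_zero C H hu).trans ?_
    have h1 : √(H.card * C.W) ≤ y ^ 3 ^ t * W := by
      rw [Real.sqrt_le_left (by positivity)]
      calc (H.card : ℝ) * C.W ≤ (y ^ 3 ^ t) ^ 2 * W * W :=
            mul_le_mul hH hC C.W_nonneg (by positivity)
        _ = _ := by ring
    have h2 : 0 ≤ y ^ 3 ^ t * W := by positivity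
    simp only [zero_add, pow_one, Nat.sub_zero]
    nlinarith
  | succ m ih =>
    intro C hC S a u hu
    have ih := ih (by omega)
    have e : 3 ^ (t - m) = 3 ^ (t - (m + 1)) * 3 := by
      rw [← pow_succ]
      congr 1
      omega
    obtain ⟨r, hr⟩ : ∃ r, r = y ^ 3 ^ (t - (m + 1)) := ⟨_, rfl⟩
    have hr0 : 0 < r := by rw [hr]; positivity
    have hr1 : r ≤ 1 := by rw [hr]; exact pow_le_one₀ hy0.le hy1
    have hrM : 1 ≤ M * r := by
      refine hyM.trans (mul_le_mul_of_nonneg_left ?_ (by linarith))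
      rw [hr]
      exact pow_le_pow_of_le_one hy0.le hy1 (Nat.pow_le_pow_right (by norm_num) (by omega))
    have hA : (0 : ℝ) ≤ (2 ^ (m + 1) - 1) * cst M := by
      have : (1 : ℝ) ≤ 2 ^ (m + 1) := one_le_pow₀ (by norm_num)
      exact mul_nonneg (by linarith) (by linarith)
    obtain ⟨T, B, hT, hB, hnum⟩ := one_step_num (K := (2 ^ (m + 1) - 1) * cst M *
      (y ^ 3 ^ (t - m) * W)) hN hM hr0 hr1 hrM hW hA (by
        rw [e, pow_mul, ← hr])
    refine (Z_succ C m H _ (fun S a u hu => ih C hC S a u hu) hT hB hu).trans ?_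
    rw [← hr]
    refine le_trans ?_ (hnum.trans (le_of_eq ?_))
    · have hB' : (0 : ℝ) < √B := Real.sqrt_pos.mpr (by exact_mod_cast hB)
      have h1 : C.W / √B ≤ W / √B := div_le_div_of_nonneg_right hC hB'.le
      have h2 : C.W * Real.exp (-(T ^ 2 / 2)) ≤ W * Real.exp (-(T ^ 2 / 2)) :=
        mul_le_mul_of_nonneg_right hC (Real.exp_pos _).le
      have h3 : 0 ≤ 150 * T * √(2 * (1 + Real.log B)) := by positivity
      have h4 := mul_le_mul_of_nonneg_left h1 h3
      have h5 := mul_le_mul_of_nonneg_left h2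
        (show (0 : ℝ) ≤ 4 * Fintype.card ι by positivity)
      linarith
    · rw [pow_succ 2 (m + 1)]
      ring

end Pool.Agent.H1.TC
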