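import Pool.Agent.H1.TC.Num
import Pool.Agent.H1.LT.Inst

/-!
# The lists of edges
-/

set_option autoImplicit false
set_option linter.unusedSectionVars false

namespace Pool.Agent.H1.TC

open Finset
open Pool.Agent.H1.LT (Simple HasTriangle)
open scoped BigOperators

/-- The samples. -/
abbrev Sp (n K : ℕ) : Type := (Fin n ⊕ Fin n) → Fin n × Fin K

variable {m n K : ℕ}

/-- First names. -/
def ta (n K : ℕ) (k : Fin m) : ℕ :=
  if (k : ℕ) < n then k else if (k : ℕ) < 3 * n then k - n else 2 * n + K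

/-- Second names. -/
def tb (z : Sp n K) (k : Fin m) : ℕ :=
  if h : (k : ℕ) < n then n + (z (Sum.inl ⟨k, h⟩)).1 else
    if h2 : (k : ℕ) - n < n then 2 * n + (z (Sum.inl ⟨k - n, h2⟩)).2 else
      if h3 : (k : ℕ) - 2 * n < n then 2 * n + (z (Sum.inr ⟨k - 2 * n, h3⟩)).2 else
        2 * n + K + 1 + (k - 3 * n)

theorem cases4 (z : Sp n K) (k : Fin m) :
    ((k : ℕ) < n ∧ ta n K k = k ∧ ∃ x : Fin n × Fin K, tb z k = n + x.1 ∧
      ∀ j : Fin n, (j : ℕ) = k → z (Sum.inl j) = x) ∨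
    ((n ≤ (k : ℕ) ∧ (k : ℕ) < 2 * n) ∧ ta n K k = k - n ∧ ∃ x : Fin n × Fin K,
      tb z k = 2 * n + x.2 ∧ ∀ j : Fin n, (j : ℕ) = k - n → z (Sum.inl j) = x) ∨
    ((2 * n ≤ (k : ℕ) ∧ (k : ℕ) < 3 * n) ∧ ta n K k = k - n ∧ ∃ x : Fin n × Fin K,
      tb z k = 2 * n + x.2 ∧ ∀ j : Fin n, (j : ℕ) = k - 2 * n → z (Sum.inr j) = x) ∨
    (3 * n ≤ (k : ℕ) ∧ ta n K k = 2 * n + K ∧ tb z k = 2 * n + K + 1 + (k - 3 * n)) := by
  unfold ta tb
  by_cases h1 : (k : ℕ) < n
  · refine Or.inl ⟨h1, by rw [if_pos h1], z (Sum.inl ⟨k, h1⟩), by rw [dif_pos h1], fun j hj => ?_⟩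
    congr 2
    exact Fin.ext hj
  · by_cases h2 : (k : ℕ) - n < n
    · refine Or.inr (Or.inl ⟨by omega, by rw [if_neg h1, if_pos (by omega)],
        z (Sum.inl ⟨k - n, h2⟩), by rw [dif_neg h1, dif_pos h2], fun j hj => ?_⟩)
      congr 2
      exact Fin.ext hj
    · by_cases h3 : (k : ℕ) - 2 * n < n
      · refine Or.inr (Or.inr (Or.inl ⟨by omega, by rw [if_neg h1, if_pos (by omega)],
          z (Sum.inr ⟨k - 2 * n, h3⟩), by rw [dif_neg h1, dif_neg h2, dif_pos h3],
          fun j hj => ?_⟩))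
        congr 2
        exact Fin.ext hj
      · exact Or.inr (Or.inr (Or.inr ⟨by omega, by rw [if_neg h1, if_neg (by omega)],
          by rw [dif_neg h1, dif_neg h2, dif_neg h3]⟩))

theorem simple_t (h2 : m ≤ 3 * n + 2) (z : Sp n K) :
    Simple (2 * n + K + 3) (ta (m := m) n K) (tb z) := by
  refine ⟨fun i => ?_, fun i j hab hbb => ?_⟩
  · have hi := i.isLt
    rcases cases4 z i with ⟨h, ha, x, hb, -⟩ | ⟨h, ha, x, hb, -⟩ | ⟨h, ha, x, hb, -⟩ | ⟨h, ha, hb⟩
    all_goals
      rw [ha, hb]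
    · have := x.1.isLt
      omega
    · have := x.2.isLt
      omega
    · have := x.2.isLt
      omega
    · omega
  · have hi := i.isLt
    have hj := j.isLt
    apply Fin.ext
    rcases cases4 z i with ⟨h, ha, x, hb, -⟩ | ⟨h, ha, x, hb, -⟩ | ⟨h, ha, x, hb, -⟩ | ⟨h, ha, hb⟩
    all_goals
      rw [ha] at hab
      rw [hb] at hbb
      rcases cases4 z j with ⟨h', ha', x', hb', -⟩ | ⟨h', ha', x', hb', -⟩ |
        ⟨h', ha', x', hb', -⟩ | ⟨h', ha', hb'⟩
    all_goals
      rw [ha'] at hab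
      rw [hb'] at hbb
      try have e1 := x.1.isLt
      try have e2 := x.2.isLt
      try have e3 := x'.1.isLt
      try have e4 := x'.2.isLt
      omega

theorem of_triangle (z : Sp n K) (h : HasTriangle (ta (m := m) n K) (tb z)) :
    ∃ j, (z (Sum.inl j)).2 = (z (Sum.inr (z (Sum.inl j)).1)).2 := by
  obtain ⟨i, j, l, e1, e2, e3⟩ := h
  rcases cases4 z i with ⟨h, ha, x, hb, hx⟩ | ⟨h, ha, x, hb, -⟩ | ⟨h, ha, x, hb, -⟩ | ⟨h, ha, hb⟩
  · rw [ha] at e1
    rw [hb] at e2
    have hx1 := x.1.isLt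
    rcases cases4 z l with ⟨h', ha', x', hb', -⟩ | ⟨h', ha', x', hb', -⟩ |
        ⟨h', ha', x', hb', hx'⟩ | ⟨h', ha', hb'⟩
    · exfalso; rw [ha'] at e2; omega
    · exfalso; rw [ha'] at e2; omega
    · rw [ha'] at e2
      rw [hb'] at e3
      rcases cases4 z j with ⟨h'', ha'', x'', hb'', -⟩ | ⟨h'', ha'', x'', hb'', hx''⟩ |
        ⟨h'', ha'', x'', hb'', -⟩ | ⟨h'', ha'', hb''⟩
      · exfalso
        rw [hb''] at e3
        have := x''.1.isLt
        omega
      · rw [ha''] at e1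
        rw [hb''] at e3
        have q1 := hx ⟨i, h⟩ rfl
        have q2 := hx'' ⟨i, h⟩ (by simp only; omega)
        have q3 := hx' x.1 (by omega)
        refine ⟨⟨i, h⟩, ?_⟩
        rw [q1, q3, ← q1, q2]
        exact Fin.ext (by omega)
      · exfalso; rw [ha''] at e1; omega
      · exfalso; rw [ha''] at e1; omega
    · exfalso; rw [ha'] at e2; omega
  · exfalso
    rw [hb] at e2
    rcases cases4 z l with ⟨h', ha', x', hb', -⟩ | ⟨h', ha', x', hb', -⟩ |
        ⟨h', ha', x', hb', -⟩ | ⟨h', ha', hb'⟩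
    all_goals
      have e5 := x.2.isLt
      rw [ha'] at e2
      omega
  · exfalso
    rw [hb] at e2
    rcases cases4 z l with ⟨h', ha', x', hb', -⟩ | ⟨h', ha', x', hb', -⟩ |
        ⟨h', ha', x', hb', -⟩ | ⟨h', ha', hb'⟩
    all_goals
      have e5 := x.2.isLt
      rw [ha'] at e2
      omega
  · exfalso
    rw [hb] at e2
    rcases cases4 z l with ⟨h', ha', x', hb', -⟩ | ⟨h', ha', x', hb', -⟩ |
        ⟨h', ha', x', hb', -⟩ | ⟨h', ha', hb'⟩
    all_goals
      rw [ha'] at e2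
      omega

theorem triangle_t (h1 : 3 * n ≤ m) (z : Sp n K) (j v v2 : Fin n) (c : Fin K) :
    HasTriangle (ta (m := m) n K)
      (tb (Function.update (Function.update z (Sum.inl j) (v, c)) (Sum.inr v) (v2, c))) := by
  have hj := j.isLt
  have hv := v.isLt
  obtain ⟨z', hz'⟩ : ∃ z', z' =
    Function.update (Function.update z (Sum.inl j) (v, c)) (Sum.inr v) (v2, c) := ⟨_, rfl⟩
  have q1 : z' (Sum.inl j) = (v, c) := by
    rw [hz', Function.update_of_ne Sum.inl_ne_inr, Function.update_self]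
  have q2 : z' (Sum.inr v) = (v2, c) := by rw [hz', Function.update_self]
  rw [← hz']
  refine ⟨⟨j, by omega⟩, ⟨n + j, by omega⟩, ⟨2 * n + v, by omega⟩, ?_, ?_, ?_⟩
  · unfold ta
    simp only
    rw [if_pos hj, if_neg (by omega), if_pos (by omega)]
    omega
  · unfold ta tb
    simp only
    rw [dif_pos hj, if_neg (by omega), if_pos (by omega)]
    have : (⟨(j : ℕ), hj⟩ : Fin n) = j := rfl
    rw [this, q1]
    simp only
    omega
  · unfold tb
    simp only
    rw [dif_neg (by omega), dif_pos (by omega), dif_neg (by omega), dif_neg (by omega),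
      dif_pos (by omega)]
    have e1 : (⟨n + (j : ℕ) - n, by omega⟩ : Fin n) = j := Fin.ext (by simp)
    have e2 : (⟨2 * n + (v : ℕ) - 2 * n, by omega⟩ : Fin n) = v := Fin.ext (by simp)
    rw [e1, e2, q1, q2]

/-- A random sample rarely gives a triangle. -/
theorem prob_triangle (hn : 0 < n) (hK : 0 < K) :
    𝔼 z : Sp n K, ind (HasTriangle (ta (m := m) n K) (tb z)) ≤ n / K := by
  have : Nonempty (Fin n) := ⟨⟨0, hn⟩⟩
  have : Nonempty (Fin K) := ⟨⟨0, hK⟩⟩
  have hKr : (0 : ℝ) < K := by exact_mod_cast hK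
  have h1 : ∀ z : Sp n K, ind (HasTriangle (ta (m := m) n K) (tb z)) ≤
      ∑ j, ind ((z (Sum.inl j)).2 = (z (Sum.inr (z (Sum.inl j)).1)).2) := by
    intro z
    refine ind_le_of (Finset.sum_nonneg fun _ _ => ind_nonneg _) fun h => ?_
    obtain ⟨j, hj⟩ := of_triangle z h
    refine le_trans (ind_pos hj).ge ?_
    exact Finset.single_le_sum (f := fun j =>
      ind ((z (Sum.inl j)).2 = (z (Sum.inr (z (Sum.inl j)).1)).2))
      (fun _ _ => ind_nonneg _) (Finset.mem_univ j)
  refine (Finset.expect_le_expect fun z _ => h1 z).trans ?_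
  rw [Finset.expect_sum_comm]
  have h2 : ∀ j : Fin n, 𝔼 z : Sp n K,
      ind ((z (Sum.inl j)).2 = (z (Sum.inr (z (Sum.inl j)).1)).2) = 1 / K := by
    intro j
    rw [← expect_update (Sum.inl j), Finset.expect_comm]
    have h3 : ∀ (z : Sp n K) (p : Fin n × Fin K),
        ind ((Function.update z (Sum.inl j) p (Sum.inl j)).2 =
          (Function.update z (Sum.inl j) p
            (Sum.inr (Function.update z (Sum.inl j) p (Sum.inl j)).1)).2) =
        ind (p.2 = (z (Sum.inr p.1)).2) := by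
      intro z p
      rw [Function.update_self, Function.update_of_ne Sum.inr_ne_inl]
    simp_rw [h3]
    have h4 : ∀ z : Sp n K, 𝔼 p : Fin n × Fin K, ind (p.2 = (z (Sum.inr p.1)).2) = 1 / K := by
      intro z
      rw [← Finset.univ_product_univ, Finset.expect_product]
      have h5 : ∀ v : Fin n, 𝔼 c : Fin K, ind (c = (z (Sum.inr v)).2) = 1 / K := by
        intro v
        rw [Fintype.expect_eq_sum_div_card, Fintype.card_fin]
        congr 1
        rw [Finset.sum_eq_single (z (Sum.inr v)).2]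
        · exact ind_pos rfl
        · intro b _ hb
          exact ind_neg hb
        · intro hb
          exact absurd (Finset.mem_univ _) hb
      simp only
      simp_rw [h5]
      rw [Fintype.expect_const]
    simp_rw [h4]
    rw [Fintype.expect_const]
  simp_rw [h2]
  rw [Finset.sum_const, Finset.card_univ, Fintype.card_fin, nsmul_eq_mul, mul_one_div]

end Pool.Agent.H1.TC
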