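import Pool.Agent.H1.TC.Inst

/-!
# Networks of threshold units reading a list of edges
-/

set_option autoImplicit false
set_option linter.unusedSectionVars false

namespace Pool.Agent.H1.TC

open Finset
open Pool.Agent.H1.LT (Simple HasTriangle)
open scoped BigOperators

/-- A network of threshold units. The unit `g` receives `f g i (a i) (b i)` from the edge
`(a i, b i)` at the place `i` of the list, and `w g h` from each unit `h` which is on. -/
structure Network (m : ℕ) where
  /-- the number of the units -/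
  s : ℕ
  /-- what a unit receives from an edge -/
  f : Fin s → Fin m → ℕ → ℕ → ℝ
  /-- the weights between the units -/
  w : Fin s → Fin s → ℝ
  /-- the thresholds -/
  θ : Fin s → ℝ
  /-- the output unit -/
  out : Fin s

namespace Network

variable {m : ℕ}

/-- The units which are on after `t` rounds; at the start none is on. -/
noncomputable def state (C : Network m) (a b : Fin m → ℕ) : ℕ → Fin C.s → Bool
  | 0, _ => false
  | t + 1, g => decide (C.θ g ≤ ∑ i, C.f g i (a i) (b i) +
      ∑ h, if C.state a b t h then C.w g h else 0)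

/-- The answer after `t` rounds. -/
noncomputable def answer (C : Network m) (t : ℕ) (a b : Fin m → ℕ) : Bool := C.state a b t C.out

/-- The places of the list read by a unit. -/
def reads (C : Network m) (g : Fin C.s) : Set (Fin m) :=
  {i | ∃ x y x' y', C.f g i x y ≠ C.f g i x' y'}

/-- The number of wires: pairs (unit, edge read) and pairs of units with nonzero weight. -/
noncomputable def wires (C : Network m) : ℕ :=
  ∑ g, ((C.reads g).ncard + ({h | C.w g h ≠ 0} : Set (Fin C.s)).ncard)

end Network

variable {m n K : ℕ}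

theorem sum_split (hm : 3 * n ≤ m) (F : Fin m → ℝ) :
    ∑ k, F k = ∑ j : Fin n, F ⟨j, by omega⟩ + ∑ j : Fin n, F ⟨n + j, by omega⟩ +
      ∑ v : Fin n, F ⟨2 * n + v, by omega⟩ +
      ∑ k : Fin m, if 3 * n ≤ (k : ℕ) then F k else 0 := by
  obtain ⟨r, rfl⟩ : ∃ r, m = n + (n + (n + r)) := ⟨m - 3 * n, by omega⟩
  have e1 : ∀ j : Fin n, Fin.castAdd (n + (n + r)) j = ⟨j, by omega⟩ := fun j => rfl
  have e2 : ∀ j : Fin n, Fin.natAdd n (Fin.castAdd (n + r) j) = ⟨n + j, by omega⟩ := fun j => rfl
  have e3 : ∀ j : Fin n, Fin.natAdd n (Fin.natAdd n (Fin.castAdd r j)) =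
      ⟨2 * n + j, by omega⟩ := by
    intro j
    apply Fin.ext
    simp only [Fin.val_natAdd, Fin.val_castAdd]
    omega
  rw [Fin.sum_univ_add F, Fin.sum_univ_add fun i => F (Fin.natAdd n i),
    Fin.sum_univ_add fun i => F (Fin.natAdd n (Fin.natAdd n i)),
    Fin.sum_univ_add fun k : Fin (n + (n + (n + r))) => if 3 * n ≤ (k : ℕ) then F k else 0,
    Fin.sum_univ_add fun k : Fin (n + (n + r)) =>
      if 3 * n ≤ ((Fin.natAdd n k : Fin (n + (n + (n + r)))) : ℕ) then F (Fin.natAdd n k) else 0,
    Fin.sum_univ_add fun k : Fin (n + r) =>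
      if 3 * n ≤ ((Fin.natAdd n (Fin.natAdd n k) : Fin (n + (n + (n + r)))) : ℕ) then
        F (Fin.natAdd n (Fin.natAdd n k)) else 0]
  have z1 : ∑ i : Fin n, (if 3 * n ≤ ((Fin.castAdd (n + (n + r)) i : Fin _) : ℕ) then
      F (Fin.castAdd (n + (n + r)) i) else 0) = 0 :=
    Finset.sum_eq_zero fun i _ => by
      rw [if_neg]
      simp only [Fin.val_castAdd]
      omega
  have z2 : ∑ i : Fin n, (if 3 * n ≤ ((Fin.natAdd n (Fin.castAdd (n + r) i) : Fin _) : ℕ) then
      F (Fin.natAdd n (Fin.castAdd (n + r) i)) else 0) = 0 :=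
    Finset.sum_eq_zero fun i _ => by
      rw [if_neg]
      simp only [Fin.val_natAdd, Fin.val_castAdd]
      omega
  have z3 : ∑ i : Fin n, (if 3 * n ≤ ((Fin.natAdd n (Fin.natAdd n (Fin.castAdd r i)) :
      Fin _) : ℕ) then F (Fin.natAdd n (Fin.natAdd n (Fin.castAdd r i))) else 0) = 0 :=
    Finset.sum_eq_zero fun i _ => by
      rw [if_neg]
      simp only [Fin.val_natAdd, Fin.val_castAdd]
      omega
  have z4 : ∑ i : Fin r, (if 3 * n ≤ ((Fin.natAdd n (Fin.natAdd n (Fin.natAdd n i)) :
      Fin _) : ℕ) then F (Fin.natAdd n (Fin.natAdd n (Fin.natAdd n i))) else 0) =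
      ∑ i : Fin r, F (Fin.natAdd n (Fin.natAdd n (Fin.natAdd n i))) :=
    Finset.sum_congr rfl fun i _ => by
      rw [if_pos]
      simp only [Fin.val_natAdd]
      omega
  rw [z1, z2, z3, z4]
  simp only [e1, e2, e3]
  ring

/-- The network for the samples. -/
noncomputable def toNt (C : Network m) (n K : ℕ) (hm : 3 * n ≤ m) :
    Nt (Fin n ⊕ Fin n) (Fin C.s) (Fin n × Fin K) where
  φ g i p := match i with
    | Sum.inl j => C.f g ⟨j, by omega⟩ j (n + p.1) + C.f g ⟨n + j, by omega⟩ j (2 * n + p.2)
    | Sum.inr v => C.f g ⟨2 * n + v, by omega⟩ (n + v) (2 * n + p.2)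
  w := C.w
  θ g := C.θ g - ∑ k : Fin m, if 3 * n ≤ (k : ℕ) then
    C.f g k (2 * n + K) (2 * n + K + 1 + (k - 3 * n)) else 0
  I g := by
    classical
    exact univ.filter fun i => match i with
      | Sum.inl j => (⟨j, by omega⟩ : Fin m) ∈ C.reads g ∨ (⟨n + j, by omega⟩ : Fin m) ∈ C.reads g
      | Sum.inr v => (⟨2 * n + v, by omega⟩ : Fin m) ∈ C.reads g
  J g := by
    classical
    exact univ.filter fun h => C.w g h ≠ 0
  hI g i hi x y := by
    classical
    have hc : ∀ (k : Fin m), k ∉ C.reads g → ∀ x y x' y', C.f g k x y = C.f g k x' y' := by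
      intro k hk x y x' y'
      by_contra hne
      exact hk ⟨x, y, x', y', hne⟩
    rw [Finset.mem_filter, not_and] at hi
    have hi := hi (Finset.mem_univ _)
    match i with
    | Sum.inl j =>
      simp only [not_or] at hi
      simp only
      rw [hc _ hi.1 j (n + x.1) j (n + y.1), hc _ hi.2 j (2 * n + x.2) j (2 * n + y.2)]
    | Sum.inr v =>
      simp only
      exact hc _ hi _ _ _ _
  hJ g h hh := by
    classical
    rw [Finset.mem_filter, not_and, not_not] at hh
    exact hh (Finset.mem_univ _)

theorem toNt_W (C : Network m) (hn : 0 < n) (hm : 3 * n ≤ m) :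
    (toNt C n K hm).W ≤ C.wires := by
  classical
  unfold Nt.W Network.wires
  push_cast
  refine Finset.sum_le_sum fun g _ => ?_
  have h1 : ((toNt C n K hm).I g).card ≤ (C.reads g).ncard := by
    obtain ⟨ψ, hψ⟩ : ∃ ψ : Fin m → Fin n ⊕ Fin n, ψ = fun k : Fin m =>
        if h : (k : ℕ) < n then Sum.inl ⟨k, h⟩ else
          if h : (k : ℕ) - n < n then Sum.inl ⟨k - n, h⟩ else
            if h : (k : ℕ) - 2 * n < n then Sum.inr ⟨k - 2 * n, h⟩ else Sum.inl ⟨0, hn⟩ :=
      ⟨_, rfl⟩
    have h2 : (toNt C n K hm).I g ⊆ ((C.reads g).toFinset.image ψ) := by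
      intro i hi
      simp only [toNt, Finset.mem_filter] at hi
      rw [Finset.mem_image]
      match i with
      | Sum.inl j =>
        have hj := j.isLt
        rcases hi.2 with h | h
        · refine ⟨_, Set.mem_toFinset.mpr h, ?_⟩
          rw [hψ]
          simp only
          rw [dif_pos hj]
        · refine ⟨_, Set.mem_toFinset.mpr h, ?_⟩
          rw [hψ]
          simp only
          rw [dif_neg (by omega), dif_pos (by omega)]
          congr 1
          exact Fin.ext (by simp)
      | Sum.inr v =>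
        have hv := v.isLt
        refine ⟨_, Set.mem_toFinset.mpr hi.2, ?_⟩
        rw [hψ]
        simp only
        rw [dif_neg (by omega), dif_neg (by omega), dif_pos (by omega)]
        congr 1
        exact Fin.ext (by simp)
    calc _ ≤ ((C.reads g).toFinset.image ψ).card := Finset.card_le_card h2
      _ ≤ (C.reads g).toFinset.card := Finset.card_image_le
      _ = _ := (Set.ncard_eq_toFinset_card' _).symm
  have h3 : ((toNt C n K hm).J g).card = ({h | C.w g h ≠ 0} : Set (Fin C.s)).ncard := by
    rw [Set.ncard_eq_toFinset_card']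
    congr 1
    ext h
    simp [toNt]
  have h4 : (((toNt C n K hm).I g).card : ℝ) ≤ (C.reads g).ncard := by exact_mod_cast h1
  have h5 : (((toNt C n K hm).J g).card : ℝ) =
    (({h | C.w g h ≠ 0} : Set (Fin C.s)).ncard : ℝ) := by exact_mod_cast h3
  linarith

theorem toNt_run (C : Network m) (hm : 3 * n ≤ m) (z : Sp n K) (t : ℕ) (g : Fin C.s) :
    (toNt C n K hm).run z t (fun _ => 0) g = ind (C.state (ta n K) (tb z) t g = true) := by
  induction t generalizing g with
  | zero =>
    rw [Nt.run_zero]
    exact (ind_neg (by simp [Network.state])).symm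
  | succ t ih =>
    rw [Nt.run_succ']
    unfold Nt.step
    refine ind_congr ?_
    rw [Network.state, decide_eq_true_iff]
    have e1 : ∑ h, (toNt C n K hm).w g h * (toNt C n K hm).run z t (fun _ => 0) h =
        ∑ h, if C.state (ta n K) (tb z) t h then C.w g h else 0 := by
      refine Finset.sum_congr rfl fun h _ => ?_
      rw [ih h]
      by_cases hs : C.state (ta n K) (tb z) t h = true
      · rw [ind_pos hs, if_pos hs, mul_one]
        rfl
      · rw [ind_neg hs, if_neg hs, mul_zero]
    have e2 : ∑ i, C.f g i (ta n K i) (tb z i) = ∑ i, (toNt C n K hm).φ g i (z i) +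
        ∑ k : Fin m, if 3 * n ≤ (k : ℕ) then
          C.f g k (2 * n + K) (2 * n + K + 1 + (k - 3 * n)) else 0 := by
      rw [sum_split hm, Fintype.sum_sum_type]
      have p1 : ∀ j : Fin n, C.f g ⟨j, by omega⟩ (ta n K (⟨j, by omega⟩ : Fin m))
          (tb z (⟨j, by omega⟩ : Fin m)) =
          C.f g ⟨j, by omega⟩ j (n + (z (Sum.inl j)).1) := by
        intro j
        have hj := j.isLt
        unfold ta tb
        simp only
        rw [if_pos hj, dif_pos hj]
      have p2 : ∀ j : Fin n, C.f g ⟨n + j, by omega⟩ (ta n K (⟨n + j, by omega⟩ : Fin m))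
          (tb z (⟨n + j, by omega⟩ : Fin m)) =
          C.f g ⟨n + j, by omega⟩ j (2 * n + (z (Sum.inl j)).2) := by
        intro j
        have hj := j.isLt
        unfold ta tb
        simp only
        rw [if_neg (by omega), if_pos (by omega), dif_neg (by omega), dif_pos (by omega)]
        have e1 : (⟨n + (j : ℕ) - n, by omega⟩ : Fin n) = j := Fin.ext (by simp)
        have e2 : n + (j : ℕ) - n = j := by omega
        rw [e1, e2]
      have p3 : ∀ v : Fin n, C.f g ⟨2 * n + v, by omega⟩ (ta n K (⟨2 * n + v, by omega⟩ : Fin m))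
          (tb z (⟨2 * n + v, by omega⟩ : Fin m)) =
          C.f g ⟨2 * n + v, by omega⟩ (n + v) (2 * n + (z (Sum.inr v)).2) := by
        intro v
        have hv := v.isLt
        unfold ta tb
        simp only
        rw [if_neg (by omega), if_pos (by omega), dif_neg (by omega), dif_neg (by omega),
          dif_pos (by omega)]
        have e1 : (⟨2 * n + (v : ℕ) - 2 * n, by omega⟩ : Fin n) = v := Fin.ext (by simp)
        have e2 : 2 * n + (v : ℕ) - n = n + v := by omega
        rw [e1, e2]
      have p4 : ∀ k : Fin m, (if 3 * n ≤ (k : ℕ) then C.f g k (ta n K k) (tb z k) else 0) =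
          if 3 * n ≤ (k : ℕ) then C.f g k (2 * n + K) (2 * n + K + 1 + (k - 3 * n)) else 0 := by
        intro k
        split_ifs with hk
        · unfold ta tb
          rw [if_neg (by omega), if_neg (by omega), dif_neg (by omega), dif_neg (by omega),
            dif_neg (by omega)]
        · rfl
      simp only [p1, p2, p3, p4, toNt]
      rw [Finset.sum_add_distrib]
    rw [e2]
    unfold Nt.arg
    rw [e1]
    have e3 : (toNt C n K hm).θ g = C.θ g - ∑ k : Fin m, if 3 * n ≤ (k : ℕ) then
        C.f g k (2 * n + K) (2 * n + K + 1 + (k - 3 * n)) else 0 := rfl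
    rw [e3]
    constructor
    · intro h
      linarith
    · intro h
      linarith

end Pool.Agent.H1.TC
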