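import Pool.Agent.H1.TC.Pair

/-!
# The planted pair is not noticed
-/

set_option autoImplicit false
set_option linter.unusedSectionVars false

namespace Pool.Agent.H1.TC

open Finset Pool.Agent.H1.LT Pool.Agent.H1.HL
open scoped BigOperators

variable {ι G α : Type*} [Fintype ι] [DecidableEq ι] [Fintype G] [DecidableEq G]

theorem expect_update [Fintype α] [Nonempty α] (i : ι) (F : (ι → α) → ℝ) :
    𝔼 p : α, 𝔼 z : ι → α, F (Function.update z i p) = 𝔼 z : ι → α, F z := by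
  rw [Finset.expect_comm, ← expect_mg {i} F]
  refine Finset.expect_congr rfl fun y _ => ?_
  rw [← expect_coord i fun p => F (Function.update y i p)]
  refine Finset.expect_congr rfl fun z _ => ?_
  congr 1
  funext j
  by_cases hj : j = i
  · subst hj
    rw [Function.update_self, mg_mem (Finset.mem_singleton_self j)]
  · rw [Function.update_of_ne hj, mg_not_mem (by rwa [Finset.mem_singleton])]

/-- The cutoffs. -/
noncomputable def cut (Y : ℝ) (t : ℕ) : ℝ := Y ^ (3 ^ (t + 1) - 1)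

theorem cut_ge {Y : ℝ} (hY : 1 ≤ Y) (t : ℕ) : 1 ≤ cut Y t := one_le_pow₀ hY

theorem three_pow (t : ℕ) : 3 ≤ 3 ^ (t + 1) := by
  have := Nat.pow_le_pow_right (show 0 < 3 by norm_num) (show 1 ≤ t + 1 by omega)
  simpa using this

theorem cut_succ (Y : ℝ) (t : ℕ) : cut Y (t + 1) = cut Y t * Y ^ (2 * 3 ^ (t + 1)) := by
  unfold cut
  rw [← pow_add]
  congr 1
  have h := three_pow t
  have : 3 ^ (t + 1 + 1) = 3 * 3 ^ (t + 1) := by ring
  omega

/-- The size of the sets. -/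
theorem sum_Er_le (C : Nt ι G α) {Y : ℝ} (hY : 1 ≤ Y) {W : ℝ} (hW : C.W ≤ W) (t : ℕ) :
    (∑ g, ((Er C (cut Y) t g).card : ℝ)) * Y ^ (2 * 3 ^ t) ≤ cut Y t * W := by
  cases t with
  | zero =>
    have h := sum_Er_zero C (cut Y)
    have e : cut Y 0 = Y ^ (2 * 3 ^ 0) := by
      unfold cut
      norm_num
    rw [e, mul_comm]
    exact mul_le_mul_of_nonneg_left (h.trans hW) (by positivity)
  | succ t =>
    have h := sum_Er_succ C (cut Y) t (cut_ge hY t)
    rw [cut_succ]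
    have h0 : 0 ≤ cut Y t := by linarith [cut_ge hY t]
    calc _ ≤ cut Y t * C.W * Y ^ (2 * 3 ^ (t + 1)) := mul_le_mul_of_nonneg_right h (by positivity)
      _ ≤ cut Y t * W * Y ^ (2 * 3 ^ (t + 1)) := by
          refine mul_le_mul_of_nonneg_right ?_ (by positivity)
          exact mul_le_mul_of_nonneg_left hW h0
      _ = _ := by ring

theorem card_Hr_le (C : Nt ι G α) {Y : ℝ} (hY : 1 ≤ Y) {W : ℝ} (hW : C.W ≤ W) (t : ℕ) :
    ((Hr C (cut Y) t).card : ℝ) ≤ ((1 / Y) ^ 3 ^ t) ^ 2 * W := by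
  have h1 := card_Hr C (cut Y) t
  have h2 := sum_Er_le C hY hW t
  have h0 : 0 < cut Y t := by linarith [cut_ge hY t]
  have hp : 0 < Y ^ (2 * 3 ^ t) := by positivity
  have h3 : ((Hr C (cut Y) t).card : ℝ) * Y ^ (2 * 3 ^ t) * cut Y t ≤ W * cut Y t := by
    calc _ = ((Hr C (cut Y) t).card : ℝ) * cut Y t * Y ^ (2 * 3 ^ t) := by ring
      _ ≤ (∑ g, ((Er C (cut Y) t g).card : ℝ)) * Y ^ (2 * 3 ^ t) :=
          mul_le_mul_of_nonneg_right h1 hp.le
      _ ≤ _ := by rw [mul_comm W]; exact h2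
  have h4 := le_of_mul_le_mul_right h3 h0
  rw [← le_div_iff₀ hp] at h4
  refine h4.trans (le_of_eq ?_)
  rw [← pow_mul, one_div, inv_pow, mul_comm (3 ^ t) 2]
  ring

theorem sum_two_pow (d : ℕ) : ∑ t ∈ range d, ((2 : ℝ) ^ (t + 1) - 1) ≤ 2 ^ (d + 1) := by
  induction d with
  | zero => norm_num
  | succ d ih =>
    rw [Finset.sum_range_succ]
    have : (2 : ℝ) ^ (d + 1 + 1) = 2 ^ (d + 1) + 2 ^ (d + 1) := by ring
    linarith

/-- One item is rarely important for a large gate. -/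
theorem bad1_le [Fintype α] [Nonempty α] (C : Nt ι G α) {M Y : ℝ}
    (hM : (Fintype.card ι : ℝ) ≤ M) (hN : 1 ≤ Fintype.card ι) (hY : 1 ≤ Y) {d : ℕ}
    (hYM : Y ^ 3 ^ (d - 1) ≤ M) {W : ℝ} (hW : C.W ≤ W) :
    ∑ i, 𝔼 p : α, 𝔼 z : ι → α, ind (Bad1 C (cut Y) (fun _ => 0) d z i p) ≤
      2 ^ (d + 1) * cst M * (W / Y) := by
  classical
  have hY0 : 0 < Y := by linarith
  have hW0 : 0 ≤ W := C.W_nonneg.trans hW
  have hM1 : 1 ≤ M := by
    have : (1 : ℝ) ≤ Fintype.card ι := by exact_mod_cast hN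
    linarith
  have h1 : ∑ i, 𝔼 p : α, 𝔼 z : ι → α, ind (Bad1 C (cut Y) (fun _ => 0) d z i p) =
      𝔼 z : ι → α, 𝔼 z' : ι → α, ∑ i, ind (Bad1 C (cut Y) (fun _ => 0) d z i (z' i)) := by
    calc _ = ∑ i, 𝔼 z : ι → α, 𝔼 z' : ι → α,
          ind (Bad1 C (cut Y) (fun _ => 0) d z i (z' i)) := by
          refine Finset.sum_congr rfl fun i _ => ?_
          rw [Finset.expect_comm]
          refine Finset.expect_congr rfl fun z _ => ?_
          rw [← expect_coord i fun p => ind (Bad1 C (cut Y) (fun _ => 0) d z i p)]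
      _ = _ := by
          rw [← Finset.expect_sum_comm]
          refine Finset.expect_congr rfl fun z _ => ?_
          rw [← Finset.expect_sum_comm]
  rw [h1]
  have h2 : ∀ z z' : ι → α, ∑ i, ind (Bad1 C (cut Y) (fun _ => 0) d z i (z' i)) ≤
      ∑ t ∈ range d, ∑ i, ind (∃ g ∈ Hr C (cut Y) t,
        C.Piv t (fun _ _ => 0) g z (Function.update z i (z' i))) := by
    intro z z'
    rw [Finset.sum_comm]
    exact Finset.sum_le_sum fun i _ => ind_exists_mem _ _
  calc _ ≤ 𝔼 z : ι → α, 𝔼 z' : ι → α, ∑ t ∈ range d, ∑ i, ind (∃ g ∈ Hr C (cut Y) t,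
        C.Piv t (fun _ _ => 0) g z (Function.update z i (z' i))) :=
        Finset.expect_le_expect fun z _ => Finset.expect_le_expect fun z' _ => h2 z z'
    _ = ∑ t ∈ range d, 𝔼 z : ι → α, 𝔼 z' : ι → α, ∑ i, ind (∃ g ∈ Hr C (cut Y) t,
        C.Piv t (fun _ _ => 0) g z (Function.update z i (z' i))) := by
        simp_rw [Finset.expect_sum_comm]
    _ ≤ ∑ t ∈ range d, (2 ^ (t + 1) - 1) * (cst M * (W / Y)) := by
        refine Finset.sum_le_sum fun t ht => ?_
        rw [Finset.mem_range] at ht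
        refine Z_gen C t (fun _ => 0) (Hr C (cut Y) t) _ ?_
        intro C' hC' S a u hu
        have hb := Z_bound (y := 1 / Y) hM hN (by positivity)
          (by rw [div_le_one hY0]; exact hY) t (by
            rw [one_div, inv_pow, ← div_eq_mul_inv, le_div_iff₀ (by positivity), one_mul]
            refine le_trans ?_ hYM
            exact pow_le_pow_right₀ hY (Nat.pow_le_pow_right (by norm_num) (by omega)))
          (Hr C (cut Y) t) hW0 (card_Hr_le C hY hW t) t le_rfl C' (by rw [hC']; exact hW) S a u hu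
        refine hb.trans (le_of_eq ?_)
        rw [Nat.sub_self, pow_zero, pow_one]
        ring
    _ = (∑ t ∈ range d, ((2 : ℝ) ^ (t + 1) - 1)) * (cst M * (W / Y)) := by
        rw [Finset.sum_mul]
    _ ≤ 2 ^ (d + 1) * (cst M * (W / Y)) := by
        refine mul_le_mul_of_nonneg_right (sum_two_pow d) ?_
        have := cst_ge hM1
        positivity
    _ = _ := by ring

/-- Two items rarely meet. -/
theorem bad2_le {n : ℕ} (C : Nt (Fin n ⊕ Fin n) G α) {Y : ℝ} (hY : 1 ≤ Y) {d : ℕ} {W : ℝ}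
    (hW : C.W ≤ W) :
    ∑ j : Fin n, ∑ v : Fin n, ind (Bad2 C (cut Y) d (Sum.inl j) (Sum.inr v)) ≤
      d * (Y ^ (4 * 3 ^ (d - 1) - 2) * W) := by
  classical
  have hY0 : 0 < Y := by linarith
  have hW0 : 0 ≤ W := C.W_nonneg.trans hW
  have h1 : ∀ j v : Fin n, ind (Bad2 C (cut Y) d (Sum.inl j) (Sum.inr v)) ≤
      ∑ t ∈ range d, ∑ g ∈ univ \ Hr C (cut Y) t,
        ind (Sum.inl j ∈ Er C (cut Y) t g) * ind (Sum.inr v ∈ Er C (cut Y) t g) := by
    intro j v
    refine (ind_exists_mem _ _).trans (Finset.sum_le_sum fun t _ => ?_)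
    refine (ind_exists_mem _ _).trans (Finset.sum_le_sum fun g _ => ?_)
    refine ind_le_of (mul_nonneg (ind_nonneg _) (ind_nonneg _)) fun h => ?_
    rw [ind_pos h.1, ind_pos h.2, one_mul]
  have hcard : ∀ (F : Finset (Fin n ⊕ Fin n)), (∑ j : Fin n, ind (Sum.inl j ∈ F)) ≤ F.card ∧
      (∑ v : Fin n, ind (Sum.inr v ∈ F)) ≤ F.card := by
    intro F
    have h2 : ∑ x : Fin n ⊕ Fin n, ind (x ∈ F) = F.card := by
      have : ∀ x, ind (x ∈ F) = if x ∈ F then (1 : ℝ) else 0 := by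
        intro x
        by_cases hx : x ∈ F
        · rw [ind_pos hx, if_pos hx]
        · rw [ind_neg hx, if_neg hx]
      simp_rw [this]
      rw [Finset.sum_ite_mem, Finset.univ_inter]
      simp
    rw [Fintype.sum_sum_type] at h2
    have h3 : 0 ≤ ∑ j : Fin n, ind (Sum.inl j ∈ F) := Finset.sum_nonneg fun _ _ => ind_nonneg _
    have h4 : 0 ≤ ∑ v : Fin n, ind (Sum.inr v ∈ F) := Finset.sum_nonneg fun _ _ => ind_nonneg _
    constructor <;> linarith
  calc _ ≤ ∑ j : Fin n, ∑ v : Fin n, ∑ t ∈ range d, ∑ g ∈ univ \ Hr C (cut Y) t,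
        ind (Sum.inl j ∈ Er C (cut Y) t g) * ind (Sum.inr v ∈ Er C (cut Y) t g) :=
        Finset.sum_le_sum fun j _ => Finset.sum_le_sum fun v _ => h1 j v
    _ = ∑ t ∈ range d, ∑ g ∈ univ \ Hr C (cut Y) t,
        (∑ j : Fin n, ind (Sum.inl j ∈ Er C (cut Y) t g)) *
          ∑ v : Fin n, ind (Sum.inr v ∈ Er C (cut Y) t g) := by
        simp_rw [Finset.sum_mul_sum]
        rw [Finset.sum_congr rfl fun j _ => Finset.sum_comm, Finset.sum_comm]
        refine Finset.sum_congr rfl fun t _ => ?_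
        rw [Finset.sum_congr rfl fun j _ => Finset.sum_comm, Finset.sum_comm]
    _ ≤ ∑ t ∈ range d, ∑ g ∈ univ \ Hr C (cut Y) t, ((Er C (cut Y) t g).card : ℝ) ^ 2 := by
        refine Finset.sum_le_sum fun t _ => Finset.sum_le_sum fun g _ => ?_
        rw [sq]
        exact mul_le_mul (hcard _).1 (hcard _).2 (Finset.sum_nonneg fun _ _ => ind_nonneg _)
          (Nat.cast_nonneg _)
    _ ≤ ∑ _t ∈ range d, Y ^ (4 * 3 ^ (d - 1) - 2) * W := by
        refine Finset.sum_le_sum fun t ht => ?_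
        rw [Finset.mem_range] at ht
        have hc := cut_ge hY t
        refine (sum_sq C (cut Y) t (by linarith)).trans ?_
        have h5 := sum_Er_le C hY hW t
        have hp : 0 < Y ^ (2 * 3 ^ t) := by positivity
        rw [← le_div_iff₀ hp] at h5
        calc _ ≤ cut Y t * (cut Y t * W / Y ^ (2 * 3 ^ t)) :=
              mul_le_mul_of_nonneg_left h5 (by linarith)
          _ = Y ^ (4 * 3 ^ t - 2) * W := by
              unfold cut
              rw [mul_div_assoc', div_eq_iff hp.ne']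
              have e : Y ^ (4 * 3 ^ t - 2) * Y ^ (2 * 3 ^ t) =
                  Y ^ (3 ^ (t + 1) - 1) * Y ^ (3 ^ (t + 1) - 1) := by
                rw [← pow_add, ← pow_add]
                congr 1
                have h6 : 1 ≤ 3 ^ t := Nat.one_le_pow _ _ (by norm_num)
                have h7 : 3 ^ (t + 1) = 3 * 3 ^ t := by ring
                omega
              calc _ = Y ^ (3 ^ (t + 1) - 1) * Y ^ (3 ^ (t + 1) - 1) * W := by ring
                _ = Y ^ (4 * 3 ^ t - 2) * Y ^ (2 * 3 ^ t) * W := by rw [e]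
                _ = _ := by ring
          _ ≤ _ := by
              refine mul_le_mul_of_nonneg_right ?_ hW0
              refine pow_le_pow_right₀ hY ?_
              have : 3 ^ t ≤ 3 ^ (d - 1) := Nat.pow_le_pow_right (by norm_num) (by omega)
              omega
    _ = _ := by rw [Finset.sum_const, Finset.card_range, nsmul_eq_mul]

/-- **The planted pair is not noticed.** -/
theorem planted {n K : ℕ} (hn : 0 < n) (hK : 0 < K) (C : Nt (Fin n ⊕ Fin n) G (Fin n × Fin K))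
    (o : G) {M Y : ℝ} (hM : ((2 * n : ℕ) : ℝ) ≤ M) (hY : 1 ≤ Y) {d : ℕ}
    (hYM : Y ^ 3 ^ (d - 1) ≤ M) {W : ℝ} (hW : C.W ≤ W) :
    |𝔼 j : Fin n, 𝔼 v : Fin n, 𝔼 c : Fin K, 𝔼 v2 : Fin n, 𝔼 z : (Fin n ⊕ Fin n) → Fin n × Fin K,
      C.run (Function.update (Function.update z (Sum.inl j) (v, c)) (Sum.inr v) (v2, c)) d
        (fun _ => 0) o -
      𝔼 z : (Fin n ⊕ Fin n) → Fin n × Fin K, C.run z d (fun _ => 0) o| ≤
    2 * (2 * (2 ^ (d + 1) * cst M * (W / Y) / n) +
      d * (Y ^ (4 * 3 ^ (d - 1) - 2) * W) / n ^ 2) := by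
  classical
  have : Nonempty (Fin n) := ⟨⟨0, hn⟩⟩
  have : Nonempty (Fin K) := ⟨⟨0, hK⟩⟩
  have hnr : (0 : ℝ) < n := by exact_mod_cast hn
  obtain ⟨f, hf⟩ : ∃ f : ((Fin n ⊕ Fin n) → Fin n × Fin K) → ℝ,
    f = fun z => C.run z d (fun _ => 0) o := ⟨_, rfl⟩
  obtain ⟨β, hβ⟩ : ∃ β : Fin n ⊕ Fin n → Fin n × Fin K → ((Fin n ⊕ Fin n) → Fin n × Fin K) → ℝ,
    β = fun i p z => ind (Bad1 C (cut Y) (fun _ => 0) d z i p) := ⟨_, rfl⟩
  have hprod : ∀ F : Fin n × Fin K → ℝ, 𝔼 v : Fin n, 𝔼 c : Fin K, F (v, c) = 𝔼 p, F p := by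
    intro F
    rw [← Finset.univ_product_univ, Finset.expect_product]
  have hprod' : ∀ F : Fin n × Fin K → ℝ, 𝔼 c : Fin K, 𝔼 v : Fin n, F (v, c) = 𝔼 p, F p := by
    intro F
    rw [Finset.expect_comm, hprod]
  have hpt : ∀ (j v : Fin n) (c : Fin K) (v2 : Fin n) (z : (Fin n ⊕ Fin n) → Fin n × Fin K),
      |f (Function.update (Function.update z (Sum.inl j) (v, c)) (Sum.inr v) (v2, c)) -
        (f (Function.update z (Sum.inl j) (v, c)) + f (Function.update z (Sum.inr v) (v2, c)) -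
          f z)| ≤
      2 * (β (Sum.inl j) (v, c) z + β (Sum.inr v) (v2, c) z +
        ind (Bad2 C (cut Y) d (Sum.inl j) (Sum.inr v))) := by
    intro j v c v2 z
    rw [hf, hβ]
    exact pair C (cut Y) d o Sum.inl_ne_inr z (v, c) (v2, c)
  -- the marginals
  have m1 : 𝔼 j : Fin n, 𝔼 v : Fin n, 𝔼 c : Fin K, 𝔼 _v2 : Fin n, 𝔼 z,
      f (Function.update z (Sum.inl j) (v, c)) = 𝔼 z, f z := by
    simp_rw [Fintype.expect_const (ι := Fin n)]
    have : ∀ j : Fin n, 𝔼 v : Fin n, 𝔼 c : Fin K, 𝔼 z,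
        f (Function.update z (Sum.inl j) (v, c)) = 𝔼 z, f z := by
      intro j
      rw [hprod fun p => 𝔼 z, f (Function.update z (Sum.inl j) p), expect_update]
    simp_rw [this]
    rw [Fintype.expect_const]
  have m2 : 𝔼 _j : Fin n, 𝔼 v : Fin n, 𝔼 c : Fin K, 𝔼 v2 : Fin n, 𝔼 z,
      f (Function.update z (Sum.inr v) (v2, c)) = 𝔼 z, f z := by
    rw [Fintype.expect_const]
    have : ∀ v : Fin n, 𝔼 c : Fin K, 𝔼 v2 : Fin n, 𝔼 z,
        f (Function.update z (Sum.inr v) (v2, c)) = 𝔼 z, f z := by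
      intro v
      rw [hprod' fun p => 𝔼 z, f (Function.update z (Sum.inr v) p), expect_update]
    simp_rw [this]
    rw [Fintype.expect_const]
  have m3 : 𝔼 _j : Fin n, 𝔼 _v : Fin n, 𝔼 _c : Fin K, 𝔼 _v2 : Fin n, 𝔼 z, f z = 𝔼 z, f z := by
    rw [Fintype.expect_const, Fintype.expect_const, Fintype.expect_const, Fintype.expect_const]
  have b1 := bad1_le C (M := M) (by
    rw [Fintype.card_sum, Fintype.card_fin]
    have e : n + n = 2 * n := by ring
    rw [e]
    exact hM) (by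
    rw [Fintype.card_sum, Fintype.card_fin]
    omega) hY hYM hW
  have b2 := bad2_le C hY (d := d) hW
  have n1 : 𝔼 j : Fin n, 𝔼 v : Fin n, 𝔼 c : Fin K, 𝔼 _v2 : Fin n, 𝔼 z,
      β (Sum.inl j) (v, c) z ≤ 2 ^ (d + 1) * cst M * (W / Y) / n := by
    simp_rw [Fintype.expect_const (ι := Fin n)]
    have e : ∀ j : Fin n, 𝔼 v : Fin n, 𝔼 c : Fin K, 𝔼 z, β (Sum.inl j) (v, c) z =
        𝔼 p, 𝔼 z, β (Sum.inl j) p z := fun j => hprod fun p => 𝔼 z, β (Sum.inl j) p z
    simp_rw [e]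
    rw [Fintype.expect_eq_sum_div_card, Fintype.card_fin]
    refine div_le_div_of_nonneg_right ?_ hnr.le
    refine le_trans ?_ b1
    rw [Fintype.sum_sum_type, hβ]
    have : 0 ≤ ∑ x : Fin n, 𝔼 p : Fin n × Fin K, 𝔼 z,
        ind (Bad1 C (cut Y) (fun _ => 0) d z (Sum.inr x) p) :=
      Finset.sum_nonneg fun _ _ => Finset.expect_nonneg fun _ _ =>
        Finset.expect_nonneg fun _ _ => ind_nonneg _
    linarith
  have n2 : 𝔼 _j : Fin n, 𝔼 v : Fin n, 𝔼 c : Fin K, 𝔼 v2 : Fin n, 𝔼 z,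
      β (Sum.inr v) (v2, c) z ≤ 2 ^ (d + 1) * cst M * (W / Y) / n := by
    rw [Fintype.expect_const]
    have e : ∀ v : Fin n, 𝔼 c : Fin K, 𝔼 v2 : Fin n, 𝔼 z, β (Sum.inr v) (v2, c) z =
        𝔼 p, 𝔼 z, β (Sum.inr v) p z := fun v => hprod' fun p => 𝔼 z, β (Sum.inr v) p z
    simp_rw [e]
    rw [Fintype.expect_eq_sum_div_card, Fintype.card_fin]
    refine div_le_div_of_nonneg_right ?_ hnr.le
    refine le_trans ?_ b1
    rw [Fintype.sum_sum_type, hβ]
    have : 0 ≤ ∑ x : Fin n, 𝔼 p : Fin n × Fin K, 𝔼 z,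
        ind (Bad1 C (cut Y) (fun _ => 0) d z (Sum.inl x) p) :=
      Finset.sum_nonneg fun _ _ => Finset.expect_nonneg fun _ _ =>
        Finset.expect_nonneg fun _ _ => ind_nonneg _
    linarith
  have n3 : 𝔼 j : Fin n, 𝔼 v : Fin n, 𝔼 _c : Fin K, 𝔼 _v2 : Fin n,
      𝔼 _z : (Fin n ⊕ Fin n) → Fin n × Fin K,
      ind (Bad2 C (cut Y) d (Sum.inl j) (Sum.inr v)) ≤
      d * (Y ^ (4 * 3 ^ (d - 1) - 2) * W) / n ^ 2 := by
    simp_rw [Fintype.expect_const]
    rw [Fintype.expect_eq_sum_div_card, Fintype.card_fin]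
    simp_rw [Fintype.expect_eq_sum_div_card, Fintype.card_fin]
    rw [← Finset.sum_div, div_div, ← sq]
    exact div_le_div_of_nonneg_right b2 (by positivity)
  have key : 𝔼 j : Fin n, 𝔼 v : Fin n, 𝔼 c : Fin K, 𝔼 v2 : Fin n, 𝔼 z,
      |f (Function.update (Function.update z (Sum.inl j) (v, c)) (Sum.inr v) (v2, c)) -
        (f (Function.update z (Sum.inl j) (v, c)) + f (Function.update z (Sum.inr v) (v2, c)) -
          f z)| ≤
      2 * (2 * (2 ^ (d + 1) * cst M * (W / Y) / n) +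
        d * (Y ^ (4 * 3 ^ (d - 1) - 2) * W) / n ^ 2) := by
    calc _ ≤ 𝔼 j : Fin n, 𝔼 v : Fin n, 𝔼 c : Fin K, 𝔼 v2 : Fin n, 𝔼 z,
        (2 * (β (Sum.inl j) (v, c) z + β (Sum.inr v) (v2, c) z +
          ind (Bad2 C (cut Y) d (Sum.inl j) (Sum.inr v)))) :=
          Finset.expect_le_expect fun j _ => Finset.expect_le_expect fun v _ =>
            Finset.expect_le_expect fun c _ => Finset.expect_le_expect fun v2 _ =>
              Finset.expect_le_expect fun z _ => hpt j v c v2 z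
      _ = 2 * (𝔼 j : Fin n, 𝔼 v : Fin n, 𝔼 c : Fin K, 𝔼 _v2 : Fin n, 𝔼 z,
            β (Sum.inl j) (v, c) z +
          𝔼 _j : Fin n, 𝔼 v : Fin n, 𝔼 c : Fin K, 𝔼 v2 : Fin n, 𝔼 z,
            β (Sum.inr v) (v2, c) z +
          𝔼 j : Fin n, 𝔼 v : Fin n, 𝔼 _c : Fin K, 𝔼 _v2 : Fin n,
            𝔼 _z : (Fin n ⊕ Fin n) → Fin n × Fin K,
            ind (Bad2 C (cut Y) d (Sum.inl j) (Sum.inr v))) := by
          simp_rw [← Finset.mul_expect, Finset.expect_add_distrib]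
      _ ≤ _ := by linarith
  refine le_trans ?_ key
  have e : (𝔼 j : Fin n, 𝔼 v : Fin n, 𝔼 c : Fin K, 𝔼 v2 : Fin n,
      𝔼 z : (Fin n ⊕ Fin n) → Fin n × Fin K,
      C.run (Function.update (Function.update z (Sum.inl j) (v, c)) (Sum.inr v) (v2, c)) d
        (fun _ => 0) o -
      𝔼 z : (Fin n ⊕ Fin n) → Fin n × Fin K, C.run z d (fun _ => 0) o) =
      𝔼 j : Fin n, 𝔼 v : Fin n, 𝔼 c : Fin K, 𝔼 v2 : Fin n, 𝔼 z,
      (f (Function.update (Function.update z (Sum.inl j) (v, c)) (Sum.inr v) (v2, c)) -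
        (f (Function.update z (Sum.inl j) (v, c)) + f (Function.update z (Sum.inr v) (v2, c)) -
          f z)) := by
    simp_rw [Finset.expect_sub_distrib, Finset.expect_add_distrib]
    rw [m1, m2, m3, hf]
    ring
  rw [e]
  refine (Finset.abs_expect_le _ _).trans (Finset.expect_le_expect fun j _ => ?_)
  refine (Finset.abs_expect_le _ _).trans (Finset.expect_le_expect fun v _ => ?_)
  refine (Finset.abs_expect_le _ _).trans (Finset.expect_le_expect fun c _ => ?_)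
  refine (Finset.abs_expect_le _ _).trans (Finset.expect_le_expect fun v2 _ => ?_)
  exact Finset.abs_expect_le _ _

end Pool.Agent.H1.TC
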