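import Pool.Agent.H1.TC.Gen

/-!
# Two items do not interact
-/

set_option autoImplicit false
set_option linter.unusedSectionVars false

namespace Pool.Agent.H1.TC

open Finset Pool.Agent.H1.LT Pool.Agent.H1.HL
open scoped BigOperators

variable {ι G α : Type*} [Fintype ι] [DecidableEq ι] [Fintype G] [DecidableEq G]

/-- The items which reach a gate through small gates. -/
noncomputable def Er (C : Nt ι G α) (s : ℕ → ℝ) : ℕ → G → Finset ι
  | 0, g => C.I g
  | t + 1, g => by
      classical
      exact C.I g ∪ ((C.J g).filter fun h => ((Er C s t h).card : ℝ) ≤ s t).biUnion (Er C s t)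

/-- The large gates. -/
noncomputable def Hr (C : Nt ι G α) (s : ℕ → ℝ) (t : ℕ) : Finset G := by
  classical
  exact univ.filter fun g => s t < ((Er C s t g).card : ℝ)

theorem mem_Hr {C : Nt ι G α} {s : ℕ → ℝ} {t : ℕ} {g : G} :
    g ∈ Hr C s t ↔ s t < ((Er C s t g).card : ℝ) := by
  classical
  simp [Hr]

theorem mem_Er_succ {C : Nt ι G α} {s : ℕ → ℝ} {t : ℕ} {g : G} {i : ι} :
    i ∈ Er C s (t + 1) g ↔ i ∈ C.I g ∨ ∃ h ∈ C.J g, h ∉ Hr C s t ∧ i ∈ Er C s t h := by
  classical
  simp only [Er, Finset.mem_union, Finset.mem_biUnion, Finset.mem_filter, mem_Hr, not_lt]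
  constructor
  · rintro (h | ⟨h, ⟨h1, h2⟩, h3⟩)
    · exact Or.inl h
    · exact Or.inr ⟨h, h1, h2, h3⟩
  · rintro (h | ⟨h, h1, h2, h3⟩)
    · exact Or.inl h
    · exact Or.inr ⟨h, ⟨h1, h2⟩, h3⟩

theorem sum_Er_zero (C : Nt ι G α) (s : ℕ → ℝ) : ∑ g, ((Er C s 0 g).card : ℝ) ≤ C.W := by
  unfold Nt.W
  refine Finset.sum_le_sum fun g _ => ?_
  unfold Er
  push_cast
  linarith [Nat.cast_nonneg (α := ℝ) (C.J g).card]

theorem sum_Er_succ (C : Nt ι G α) (s : ℕ → ℝ) (t : ℕ) (hs : 1 ≤ s t) :
    ∑ g, ((Er C s (t + 1) g).card : ℝ) ≤ s t * C.W := by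
  classical
  unfold Nt.W
  rw [Finset.mul_sum]
  refine Finset.sum_le_sum fun g _ => ?_
  have h1 : ((Er C s (t + 1) g).card : ℝ) ≤ (C.I g).card +
      ∑ h ∈ (C.J g).filter (fun h => ((Er C s t h).card : ℝ) ≤ s t), ((Er C s t h).card : ℝ) := by
    have h2 : (Er C s (t + 1) g).card ≤ (C.I g).card +
        ∑ h ∈ (C.J g).filter (fun h => ((Er C s t h).card : ℝ) ≤ s t), (Er C s t h).card := by
      simp only [Er]
      exact (Finset.card_union_le _ _).trans (add_le_add le_rfl Finset.card_biUnion_le)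
    exact_mod_cast h2
  refine h1.trans ?_
  have h3 : ∑ h ∈ (C.J g).filter (fun h => ((Er C s t h).card : ℝ) ≤ s t),
      ((Er C s t h).card : ℝ) ≤ ∑ _h ∈ (C.J g).filter (fun h => ((Er C s t h).card : ℝ) ≤ s t),
        s t := Finset.sum_le_sum fun h hh => (Finset.mem_filter.mp hh).2
  have h4 : ∑ _h ∈ (C.J g).filter (fun h => ((Er C s t h).card : ℝ) ≤ s t), s t ≤
      s t * (C.J g).card := by
    rw [Finset.sum_const, nsmul_eq_mul, mul_comm]
    refine mul_le_mul_of_nonneg_left ?_ (by linarith)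
    exact_mod_cast Finset.card_le_card (Finset.filter_subset _ _)
  push_cast
  have h5 : ((C.I g).card : ℝ) ≤ s t * (C.I g).card := by
    have : (0 : ℝ) ≤ (C.I g).card := Nat.cast_nonneg _
    nlinarith
  linarith

theorem card_Hr (C : Nt ι G α) (s : ℕ → ℝ) (t : ℕ) :
    ((Hr C s t).card : ℝ) * s t ≤ ∑ g, ((Er C s t g).card : ℝ) := by
  calc ((Hr C s t).card : ℝ) * s t = ∑ _g ∈ Hr C s t, s t := by
        rw [Finset.sum_const, nsmul_eq_mul]
    _ ≤ ∑ g ∈ Hr C s t, ((Er C s t g).card : ℝ) :=
        Finset.sum_le_sum fun g hg => (mem_Hr.mp hg).le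
    _ ≤ _ := Finset.sum_le_univ_sum_of_nonneg fun _ => Nat.cast_nonneg _

/-- The meetings in small gates. -/
theorem sum_sq (C : Nt ι G α) (s : ℕ → ℝ) (t : ℕ) (hs : 0 ≤ s t) :
    ∑ g ∈ univ \ Hr C s t, ((Er C s t g).card : ℝ) ^ 2 ≤ s t * ∑ g, ((Er C s t g).card : ℝ) := by
  rw [Finset.mul_sum]
  calc _ ≤ ∑ g ∈ univ \ Hr C s t, s t * ((Er C s t g).card : ℝ) := by
        refine Finset.sum_le_sum fun g hg => ?_
        rw [Finset.mem_sdiff, mem_Hr, not_lt] at hg
        rw [sq]
        exact mul_le_mul_of_nonneg_right hg.2 (Nat.cast_nonneg _)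
    _ ≤ _ := Finset.sum_le_sum_of_subset_of_nonneg Finset.sdiff_subset fun g _ _ => by positivity

/-- An item reaches the value of a gate after some rounds. -/
def Rch (C : Nt ι G α) (s : ℕ → ℝ) (i : ι) : ℕ → G → Prop
  | 0, _ => False
  | t + 1, g => g ∉ Hr C s t ∧ i ∈ Er C s t g

theorem mem_Er {C : Nt ι G α} {s : ℕ → ℝ} {t : ℕ} {g : G} {i : ι} :
    i ∈ Er C s t g ↔ i ∈ C.I g ∨ ∃ h ∈ C.J g, Rch C s i t h := by
  cases t with
  | zero => simp [Er, Rch]
  | succ t => exact mem_Er_succ

theorem arg_congr (C : Nt ι G α) (s : ℕ → ℝ) (u0 : G → ℝ) {i : ι} {z : ι → α} {p : α} {t : ℕ}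
    (hr : ∀ g, C.run (Function.update z i p) t u0 g ≠ C.run z t u0 g → Rch C s i t g) {g : G}
    (hg : C.arg (C.run (Function.update z i p) t u0) (Function.update z i p) g ≠
      C.arg (C.run z t u0) z g) : i ∈ Er C s t g := by
  by_contra hi
  rw [mem_Er, not_or] at hi
  apply hg
  unfold Nt.arg
  congr 2
  · refine Finset.sum_congr rfl fun k _ => ?_
    by_cases hk : k = i
    · subst hk
      exact C.hI g k hi.1 _ _
    · rw [Function.update_of_ne hk]
  · refine Finset.sum_congr rfl fun h _ => ?_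
    by_cases hJ : h ∈ C.J g
    · have : C.run (Function.update z i p) t u0 h = C.run z t u0 h := by
        by_contra hne
        exact hi.2 ⟨h, hJ, hr h hne⟩
      rw [this]
    · rw [C.hJ g h hJ, zero_mul, zero_mul]

theorem square (C : Nt ι G α) (s : ℕ → ℝ) (u0 : G → ℝ) {i j : ι} (hij : i ≠ j) (z : ι → α)
    (p q : α) (d : ℕ)
    (h1 : ∀ t < d, ∀ g ∈ Hr C s t, ¬ C.Piv t (fun _ => u0) g z (Function.update z i p))
    (h2 : ∀ t < d, ∀ g ∈ Hr C s t, ¬ C.Piv t (fun _ => u0) g z (Function.update z j q))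
    (h3 : ∀ t < d, ∀ g, g ∉ Hr C s t → i ∈ Er C s t g → j ∉ Er C s t g) :
    ∀ t ≤ d, ∀ g,
      (C.run (Function.update (Function.update z i p) j q) t u0 g + C.run z t u0 g =
        C.run (Function.update z i p) t u0 g + C.run (Function.update z j q) t u0 g) ∧
      (C.run (Function.update z i p) t u0 g ≠ C.run z t u0 g → Rch C s i t g) ∧
      (C.run (Function.update z j q) t u0 g ≠ C.run z t u0 g → Rch C s j t g) := by
  intro t
  induction t with
  | zero =>
    intro _ g
    simp [Nt.run_zero]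
  | succ t ih =>
    intro ht g
    have ih := ih (by omega)
    obtain ⟨x11, hx11⟩ : ∃ x, x = Function.update (Function.update z i p) j q := ⟨_, rfl⟩
    obtain ⟨x10, hx10⟩ : ∃ x, x = Function.update z i p := ⟨_, rfl⟩
    obtain ⟨x01, hx01⟩ : ∃ x, x = Function.update z j q := ⟨_, rfl⟩
    have hI1 := fun g => arg_congr (g := g) C s u0 (i := i) (z := z) (p := p) (t := t)
      fun g => (ih g).2.1
    have hI2 := fun g => arg_congr (g := g) C s u0 (i := j) (z := z) (p := q) (t := t)
      fun g => (ih g).2.2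
    have q1 := h1 t (by omega)
    have q2 := h2 t (by omega)
    have q3 := h3 t (by omega)
    have hadd : C.arg (C.run x11 t u0) x11 g + C.arg (C.run z t u0) z g =
        C.arg (C.run x10 t u0) x10 g + C.arg (C.run x01 t u0) x01 g := by
      unfold Nt.arg
      have s1 : ∑ k, C.φ g k (x11 k) + ∑ k, C.φ g k (z k) =
          ∑ k, C.φ g k (x10 k) + ∑ k, C.φ g k (x01 k) := by
        rw [← Finset.sum_add_distrib, ← Finset.sum_add_distrib]
        refine Finset.sum_congr rfl fun k _ => ?_
        rw [hx11, hx10, hx01]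
        by_cases hj : k = j
        · subst hj
          rw [Function.update_self, Function.update_self, Function.update_of_ne hij.symm]
          ring
        · rw [Function.update_of_ne hj, Function.update_of_ne hj]
      have s2 : ∑ h, C.w g h * C.run x11 t u0 h + ∑ h, C.w g h * C.run z t u0 h =
          ∑ h, C.w g h * C.run x10 t u0 h + ∑ h, C.w g h * C.run x01 t u0 h := by
        rw [← Finset.sum_add_distrib, ← Finset.sum_add_distrib]
        refine Finset.sum_congr rfl fun h _ => ?_
        have := (ih h).1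
        rw [← hx11, ← hx10, ← hx01] at this
        rw [← mul_add, ← mul_add, this]
      linarith
    rw [← hx10] at q1 hI1
    rw [← hx01] at q2 hI2
    rw [← hx11, ← hx10, ← hx01]
    obtain ⟨A11, hA11⟩ : ∃ A, A = C.arg (C.run x11 t u0) x11 g := ⟨_, rfl⟩
    obtain ⟨A00, hA00⟩ : ∃ A, A = C.arg (C.run z t u0) z g := ⟨_, rfl⟩
    obtain ⟨A10, hA10⟩ : ∃ A, A = C.arg (C.run x10 t u0) x10 g := ⟨_, rfl⟩
    obtain ⟨A01, hA01⟩ : ∃ A, A = C.arg (C.run x01 t u0) x01 g := ⟨_, rfl⟩
    have hI1 := hI1 g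
    have hI2 := hI2 g
    have q1 := q1 g
    have q2 := q2 g
    have q3 := q3 g
    unfold Nt.Piv at q1 q2
    simp only [← hA10, ← hA00, ← hA01] at q1 q2
    rw [← hA11, ← hA00, ← hA10, ← hA01] at hadd
    rw [← hA10, ← hA00] at hI1
    rw [← hA01, ← hA00] at hI2
    rw [Nt.run_succ', Nt.run_succ', Nt.run_succ', Nt.run_succ']
    unfold Nt.step
    rw [← hA11, ← hA00, ← hA10, ← hA01]
    have hsm : ∀ A : ℝ, |A00| > |A - A00| → ind (0 ≤ A) = ind (0 ≤ A00) := by
      intro A hA
      refine ind_congr ?_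
      have h4 := abs_lt.mp hA
      rcases le_or_gt 0 A00 with h0 | h0
      · rw [abs_of_nonneg h0] at h4
        exact ⟨fun _ => h0, fun _ => by linarith [h4.1]⟩
      · rw [abs_of_neg h0] at h4
        exact ⟨fun h => absurd h (by linarith [h4.2]), fun h => absurd h (not_le.mpr h0)⟩
    refine ⟨?_, ?_, ?_⟩
    · by_cases e1 : A10 = A00
      · have e2 : A11 = A01 := by linarith
        rw [e1, e2]
        ring
      · by_cases e2 : A01 = A00
        · have e3 : A11 = A10 := by linarith
          rw [e2, e3]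
        · have hH : g ∈ Hr C s t := by
            by_contra hH
            exact q3 hH (hI1 e1) (hI2 e2)
          have b1 : 2 * |A10 - A00| < |A00| := by
            by_contra hb
            push Not at hb
            exact q1 hH ⟨e1, hb⟩
          have b2 : 2 * |A01 - A00| < |A00| := by
            by_contra hb
            push Not at hb
            exact q2 hH ⟨e2, hb⟩
          have n1 := abs_nonneg (A10 - A00)
          have n2 := abs_nonneg (A01 - A00)
          have b3 : |A11 - A00| ≤ |A10 - A00| + |A01 - A00| := by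
            have : A11 - A00 = (A10 - A00) + (A01 - A00) := by linarith
            rw [this]
            exact abs_add_le _ _
          rw [hsm A11 (by linarith), hsm A10 (by linarith), hsm A01 (by linarith)]
    · intro hne
      have e1 : A10 ≠ A00 := fun h => hne (by rw [h])
      have hH : g ∉ Hr C s t := by
        intro hH
        apply q1 hH
        refine ⟨e1, ?_⟩
        by_contra hb
        push Not at hb
        exact hne (hsm A10 (by linarith [abs_nonneg (A10 - A00)]))
      exact ⟨hH, hI1 e1⟩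
    · intro hne
      have e1 : A01 ≠ A00 := fun h => hne (by rw [h])
      have hH : g ∉ Hr C s t := by
        intro hH
        apply q2 hH
        refine ⟨e1, ?_⟩
        by_contra hb
        push Not at hb
        exact hne (hsm A01 (by linarith [abs_nonneg (A01 - A00)]))
      exact ⟨hH, hI2 e1⟩

/-- Something goes wrong at the item `i`. -/
def Bad1 (C : Nt ι G α) (s : ℕ → ℝ) (u0 : G → ℝ) (d : ℕ) (z : ι → α) (i : ι) (p : α) : Prop :=
  ∃ t ∈ Finset.range d, ∃ g ∈ Hr C s t, C.Piv t (fun _ => u0) g z (Function.update z i p)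

/-- The items `i` and `j` meet. -/
def Bad2 (C : Nt ι G α) (s : ℕ → ℝ) (d : ℕ) (i j : ι) : Prop :=
  ∃ t ∈ Finset.range d, ∃ g ∈ univ \ Hr C s t, i ∈ Er C s t g ∧ j ∈ Er C s t g

theorem pair (C : Nt ι G α) (s : ℕ → ℝ) (d : ℕ) (o : G) {i j : ι} (hij : i ≠ j) (z : ι → α)
    (p q : α) :
    |C.run (Function.update (Function.update z i p) j q) d (fun _ => 0) o -
      (C.run (Function.update z i p) d (fun _ => 0) o +
        C.run (Function.update z j q) d (fun _ => 0) o - C.run z d (fun _ => 0) o)| ≤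
    2 * (ind (Bad1 C s (fun _ => 0) d z i p) + ind (Bad1 C s (fun _ => 0) d z j q) +
      ind (Bad2 C s d i j)) := by
  have h01 : ∀ x : ι → α, 0 ≤ C.run x d (fun _ => 0) o ∧ C.run x d (fun _ => 0) o ≤ 1 := by
    intro x
    cases d with
    | zero => simp [Nt.run_zero]
    | succ d =>
      rw [Nt.run_succ']
      exact ⟨ind_nonneg _, ind_le_one _⟩
  have n1 := ind_nonneg (Bad1 C s (fun _ => 0) d z i p)
  have n2 := ind_nonneg (Bad1 C s (fun _ => 0) d z j q)
  have n3 := ind_nonneg (Bad2 C s d i j)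
  have hgen : |C.run (Function.update (Function.update z i p) j q) d (fun _ => 0) o -
      (C.run (Function.update z i p) d (fun _ => 0) o +
        C.run (Function.update z j q) d (fun _ => 0) o - C.run z d (fun _ => 0) o)| ≤ 2 := by
    have a1 := h01 (Function.update (Function.update z i p) j q)
    have a2 := h01 (Function.update z i p)
    have a3 := h01 (Function.update z j q)
    have a4 := h01 z
    rw [abs_le]
    constructor <;> linarith [a1.1, a1.2, a2.1, a2.2, a3.1, a3.2, a4.1, a4.2]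
  by_cases b1 : Bad1 C s (fun _ => 0) d z i p
  · rw [ind_pos b1]
    linarith
  by_cases b2 : Bad1 C s (fun _ => 0) d z j q
  · rw [ind_pos b2]
    linarith
  by_cases b3 : Bad2 C s d i j
  · rw [ind_pos b3]
    linarith
  have h := (square C s (fun _ => 0) hij z p q d
    (fun t ht g hg hP => b1 ⟨t, Finset.mem_range.mpr ht, g, hg, hP⟩)
    (fun t ht g hg hP => b2 ⟨t, Finset.mem_range.mpr ht, g, hg, hP⟩)
    (fun t ht g hg hi hj => b3 ⟨t, Finset.mem_range.mpr ht, g,
      Finset.mem_sdiff.mpr ⟨Finset.mem_univ _, hg⟩, hi, hj⟩) d le_rfl o).1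
  have e : C.run (Function.update (Function.update z i p) j q) d (fun _ => 0) o -
      (C.run (Function.update z i p) d (fun _ => 0) o +
        C.run (Function.update z j q) d (fun _ => 0) o - C.run z d (fun _ => 0) o) = 0 := by
    linarith
  rw [e, abs_zero]
  linarith

end Pool.Agent.H1.TC
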