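import Pool.Agent.H1.TC.Stage

/-!
# Threshold networks and their restrictions
-/

set_option autoImplicit false
set_option linter.unusedSectionVars false

namespace Pool.Agent.H1.TC

open Finset Pool.Agent.H1.LT Pool.Agent.H1.HL
open scoped BigOperators

/-- A threshold network with gates `G` and items `ι`. -/
structure Nt (ι G α : Type*) where
  φ : G → ι → α → ℝ
  w : G → G → ℝ
  θ : G → ℝ
  I : G → Finset ι
  J : G → Finset G
  hI : ∀ g i, i ∉ I g → ∀ x y, φ g i x = φ g i y
  hJ : ∀ g h, h ∉ J g → w g h = 0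

namespace Nt

variable {ι G α : Type*} [Fintype ι] [DecidableEq ι] [Fintype G] [DecidableEq G]

/-- The argument of a gate. -/
noncomputable def arg (C : Nt ι G α) (u : G → ℝ) (x : ι → α) (g : G) : ℝ :=
  ∑ i, C.φ g i (x i) + ∑ h, C.w g h * u h - C.θ g

/-- One round. -/
noncomputable def step (C : Nt ι G α) (x : ι → α) (u : G → ℝ) : G → ℝ :=
  fun g => ind (0 ≤ C.arg u x g)

/-- Several rounds. -/
noncomputable def run (C : Nt ι G α) (x : ι → α) (t : ℕ) (u : G → ℝ) : G → ℝ := (C.step x)^[t] u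

theorem run_zero (C : Nt ι G α) (x : ι → α) (u : G → ℝ) : C.run x 0 u = u := rfl

theorem run_succ (C : Nt ι G α) (x : ι → α) (t : ℕ) (u : G → ℝ) :
    C.run x (t + 1) u = C.run x t (C.step x u) := Function.iterate_succ_apply _ _ _

theorem run_succ' (C : Nt ι G α) (x : ι → α) (t : ℕ) (u : G → ℝ) :
    C.run x (t + 1) u = C.step x (C.run x t u) := Function.iterate_succ_apply' _ _ _

/-- The change from `x` to `x'` is not small against the argument of `g`. -/
def Piv (C : Nt ι G α) (t : ℕ) (u : (ι → α) → G → ℝ) (g : G) (x x' : ι → α) : Prop :=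
  C.arg (C.run x' t (u x')) x' g ≠ C.arg (C.run x t (u x)) x g ∧
    |C.arg (C.run x t (u x)) x g| ≤
      2 * |C.arg (C.run x' t (u x')) x' g - C.arg (C.run x t (u x)) x g|

/-- The number of wires. -/
noncomputable def W (C : Nt ι G α) : ℝ := ∑ g, (((C.I g).card + (C.J g).card : ℕ) : ℝ)

theorem W_nonneg (C : Nt ι G α) : 0 ≤ C.W := Finset.sum_nonneg fun _ _ => Nat.cast_nonneg _

end Nt

variable {ι G : Type*} [Fintype ι] [DecidableEq ι] [Fintype G] [DecidableEq G]

/-- Functions of at most one live item. -/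
def One (S : Finset ι) (a : ι → Bool) (u : (ι → Bool) → G → ℝ) : Prop :=
  ∀ g, ∃ F : Finset ι, F.card ≤ 1 ∧ ∀ y z : ι → Bool, (∀ i ∈ F, y i = z i) →
    u (mg S y a) g = u (mg S z a) g

theorem affine_one (f : (ι → Bool) → ℝ) (F : Finset ι) (hF : F.card ≤ 1)
    (h : ∀ y z : ι → Bool, (∀ i ∈ F, y i = z i) → f y = f z) :
    ∃ (c : ℝ) (w : ι → ℝ), (∀ i, i ∉ F → w i = 0) ∧ ∀ y, f y = c + ∑ i, w i * sg (y i) := by
  rcases Nat.eq_zero_or_pos F.card with h0 | hpos
  · rw [Finset.card_eq_zero] at h0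
    exact ⟨f fun _ => true, fun _ => 0, fun _ _ => rfl, fun y => by
      rw [h y (fun _ => true) (by rw [h0]; simp)]
      simp⟩
  · obtain ⟨i₀, h1⟩ := Finset.card_eq_one.mp (le_antisymm hF hpos)
    refine ⟨(f (fun _ => true) + f fun _ => false) / 2,
      fun i => if i = i₀ then (f (fun _ => true) - f fun _ => false) / 2 else 0, fun i hi => ?_,
      fun y => ?_⟩
    · rw [h1, Finset.mem_singleton] at hi
      exact if_neg hi
    · have e : ∑ i, (if i = i₀ then (f (fun _ => true) - f fun _ => false) / 2 else 0) * sg (y i) =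
          (f (fun _ => true) - f fun _ => false) / 2 * sg (y i₀) := by
        rw [Finset.sum_eq_single i₀]
        · rw [if_pos rfl]
        · intro i _ hi
          rw [if_neg hi, zero_mul]
        · intro h'
          exact absurd (Finset.mem_univ _) h'
      rw [e]
      cases hy : y i₀
      · rw [h y (fun _ => false) (by rw [h1]; simpa using hy), sg_false]
        ring
      · rw [h y (fun _ => true) (by rw [h1]; simpa using hy), sg_true]
        ring

theorem one_inter {S F : Finset ι} {a : ι → Bool} {f : (ι → Bool) → ℝ}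
    (h : ∀ y z : ι → Bool, (∀ i ∈ F, y i = z i) → f (mg S y a) = f (mg S z a)) :
    ∀ y z : ι → Bool, (∀ i ∈ F ∩ S, y i = z i) → f (mg S y a) = f (mg S z a) := by
  intro y z hyz
  have e : mg S (mg S z y) a = mg S z a := by
    funext i
    by_cases hi : i ∈ S
    · rw [mg_mem hi, mg_mem hi, mg_mem hi]
    · rw [mg_not_mem hi, mg_not_mem hi]
  rw [← e]
  refine h _ _ fun i hi => ?_
  by_cases hS : i ∈ S
  · rw [mg_mem hS]
    exact hyz i (Finset.mem_inter.mpr ⟨hi, hS⟩)
  · rw [mg_not_mem hS]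

/-- The argument of a gate is affine. -/
theorem affine (C : Nt ι G Bool) {S : Finset ι} {a : ι → Bool} {u : (ι → Bool) → G → ℝ}
    (h : One S a u) (g : G) :
    ∃ (c : ℝ) (w : ι → ℝ) (F : Finset ι), F ⊆ S ∧ F.card ≤ (C.I g).card + (C.J g).card ∧
      (∀ i, i ∉ F → w i = 0) ∧
      ∀ y, C.arg (u (mg S y a)) (mg S y a) g = c + ∑ i, w i * sg (y i) := by
  classical
  choose Fh hFh1 hFh2 using h
  -- the items
  have h1 : ∀ i : ι, ∃ (c : ℝ) (w : ι → ℝ),
      (∀ j, j ∉ (if i ∈ C.I g ∩ S then ({i} : Finset ι) else ∅) → w j = 0) ∧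
      ∀ y, C.φ g i (mg S y a i) = c + ∑ j, w j * sg (y j) := by
    intro i
    refine affine_one (fun y => C.φ g i (mg S y a i)) _ (by split_ifs <;> simp) ?_
    intro y z hyz
    by_cases hi : i ∈ C.I g
    · by_cases hS : i ∈ S
      · rw [if_pos (Finset.mem_inter.mpr ⟨hi, hS⟩)] at hyz
        rw [mg_mem hS, mg_mem hS, hyz i (Finset.mem_singleton_self i)]
      · rw [mg_not_mem hS, mg_not_mem hS]
    · exact C.hI g i hi _ _
  have h2 : ∀ k : G, ∃ (c : ℝ) (w : ι → ℝ),
      (∀ j, j ∉ (if k ∈ C.J g then Fh k ∩ S else ∅) → w j = 0) ∧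
      ∀ y, C.w g k * u (mg S y a) k = c + ∑ j, w j * sg (y j) := by
    intro k
    refine affine_one (fun y => C.w g k * u (mg S y a) k) _ (by
      split_ifs
      · exact (Finset.card_le_card Finset.inter_subset_left).trans (hFh1 k)
      · simp) ?_
    intro y z hyz
    by_cases hk : k ∈ C.J g
    · rw [if_pos hk] at hyz
      rw [one_inter (f := fun x => u x k) (hFh2 k) y z hyz]
    · rw [C.hJ g k hk, zero_mul, zero_mul]
  choose c1 w1 hw1 e1 using h1
  choose c2 w2 hw2 e2 using h2
  refine ⟨∑ i, c1 i + ∑ k, c2 k - C.θ g, fun j => ∑ i, w1 i j + ∑ k, w2 k j,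
    (C.I g ∩ S) ∪ (C.J g).biUnion fun k => Fh k ∩ S, ?_, ?_, ?_, ?_⟩
  · intro i hi
    rw [Finset.mem_union, Finset.mem_biUnion] at hi
    rcases hi with hi | ⟨k, _, hi⟩
    · exact Finset.mem_of_mem_inter_right hi
    · exact Finset.mem_of_mem_inter_right hi
  · refine (Finset.card_union_le _ _).trans (add_le_add
      (Finset.card_le_card Finset.inter_subset_left) ?_)
    refine Finset.card_biUnion_le.trans ?_
    calc ∑ k ∈ C.J g, (Fh k ∩ S).card ≤ ∑ _k ∈ C.J g, 1 :=
          Finset.sum_le_sum fun k _ =>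
            (Finset.card_le_card Finset.inter_subset_left).trans (hFh1 k)
      _ = _ := by simp
  · intro j hj
    rw [Finset.mem_union, not_or] at hj
    have z1 : ∑ i, w1 i j = 0 := by
      refine Finset.sum_eq_zero fun i _ => hw1 i j ?_
      split_ifs with hi
      · rw [Finset.mem_singleton]
        rintro rfl
        exact hj.1 hi
      · exact Finset.notMem_empty j
    have z2 : ∑ k, w2 k j = 0 := by
      refine Finset.sum_eq_zero fun k _ => hw2 k j ?_
      split_ifs with hk
      · intro h'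
        exact hj.2 (Finset.mem_biUnion.mpr ⟨k, hk, h'⟩)
      · exact Finset.notMem_empty j
    show ∑ i, w1 i j + ∑ k, w2 k j = 0
    rw [z1, z2, add_zero]
  · intro y
    unfold Nt.arg
    rw [Finset.sum_congr rfl fun i _ => e1 i y, Finset.sum_congr rfl fun k _ => e2 k y,
      Finset.sum_add_distrib, Finset.sum_add_distrib]
    have s1 : ∑ i, ∑ j, w1 i j * sg (y j) = ∑ j, (∑ i, w1 i j) * sg (y j) := by
      rw [Finset.sum_comm]
      exact Finset.sum_congr rfl fun j _ => by rw [Finset.sum_mul]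
    have s2 : ∑ k, ∑ j, w2 k j * sg (y j) = ∑ j, (∑ k, w2 k j) * sg (y j) := by
      rw [Finset.sum_comm]
      exact Finset.sum_congr rfl fun j _ => by rw [Finset.sum_mul]
    rw [s1, s2]
    simp_rw [add_mul]
    rw [Finset.sum_add_distrib]
    ring

/-- The average number of items for which some gate of `H` is pivotal. -/
noncomputable def Z (C : Nt ι G Bool) (t : ℕ) (u : (ι → Bool) → G → ℝ) (H : Finset G)
    (S : Finset ι) (a : ι → Bool) : ℝ :=
  𝔼 y : ι → Bool, ∑ i ∈ S, ind (∃ g ∈ H, C.Piv t u g (mg S y a) (fl i (mg S y a)))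

theorem fl_mg {S : Finset ι} {i : ι} (hi : i ∈ S) (y a : ι → Bool) :
    fl i (mg S y a) = mg S (fl i y) a := by
  funext j
  by_cases hj : j = i
  · subst hj
    rw [fl_self, mg_mem hi, mg_mem hi, fl_self]
  · rw [fl_ne hj]
    by_cases hS : j ∈ S
    · rw [mg_mem hS, mg_mem hS, fl_ne hj]
    · rw [mg_not_mem hS, mg_not_mem hS]

theorem sum_fl (w : ι → ℝ) (i : ι) (y : ι → Bool) :
    ∑ j, w j * sg (fl i y j) = ∑ j, w j * sg (y j) - 2 * (w i * sg (y i)) := by
  rw [← Finset.add_sum_erase univ _ (Finset.mem_univ i),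
    ← Finset.add_sum_erase univ (fun j => w j * sg (y j)) (Finset.mem_univ i), fl_self, sg_not,
    Finset.sum_congr rfl fun j hj => by rw [fl_ne (Finset.ne_of_mem_erase hj)]]
  ring

theorem Z_zero (C : Nt ι G Bool) {u : (ι → Bool) → G → ℝ} (H : Finset G)
    {S : Finset ι} {a : ι → Bool} (h : One S a u) :
    Z C 0 u H S a ≤ 10 * √(H.card * C.W) := by
  classical
  choose c w F hFS hFc hw harg using fun g => affine C h g
  have h1 : ∀ y : ι → Bool,
      ∑ i ∈ S, ind (∃ g ∈ H, C.Piv 0 u g (mg S y a) (fl i (mg S y a))) ≤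
      ∑ g ∈ H, ∑ i ∈ F g,
        ind (w g i ≠ 0 ∧ |c g + ∑ j, w g j * sg (y j)| ≤ 4 * |w g i|) := by
    intro y
    calc _ ≤ ∑ i ∈ S, ∑ g ∈ H, ind (C.Piv 0 u g (mg S y a) (fl i (mg S y a))) :=
          Finset.sum_le_sum fun i _ => ind_exists_mem _ _
      _ = ∑ g ∈ H, ∑ i ∈ S, ind (C.Piv 0 u g (mg S y a) (fl i (mg S y a))) := Finset.sum_comm
      _ ≤ _ := by
          refine Finset.sum_le_sum fun g _ => ?_
          rw [← Finset.sum_subset (hFS g)]
          · refine Finset.sum_le_sum fun i hi => ind_mono ?_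
            rintro ⟨p1, p2⟩
            rw [fl_mg (hFS g hi), Nt.run_zero, Nt.run_zero, harg, harg, sum_fl] at p1 p2
            have e : c g + (∑ j, w g j * sg (y j) - 2 * (w g i * sg (y i))) -
                (c g + ∑ j, w g j * sg (y j)) = -(2 * (w g i * sg (y i))) := by ring
            rw [e, abs_neg, abs_mul, abs_mul, abs_sg, mul_one, abs_two] at p2
            refine ⟨fun h0 => p1 ?_, by linarith⟩
            rw [h0]
            ring
          · intro i hi hi'
            apply ind_neg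
            rintro ⟨p1, -⟩
            apply p1
            rw [fl_mg hi, Nt.run_zero, Nt.run_zero, harg, harg, sum_fl, hw g i hi']
            ring
  unfold Z
  refine (Finset.expect_le_expect fun y _ => h1 y).trans ?_
  rw [Finset.expect_sum_comm]
  calc _ ≤ ∑ g ∈ H, 10 * √(F g).card := by
        refine Finset.sum_le_sum fun g _ => ?_
        rw [Finset.expect_sum_comm]
        exact gate_base (F g) (w g) (c g)
    _ = 10 * ∑ g ∈ H, 1 * √(F g).card := by
        rw [Finset.mul_sum]
        exact Finset.sum_congr rfl fun g _ => by rw [one_mul]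
    _ ≤ 10 * (√(H.card) * √C.W) := by
        refine mul_le_mul_of_nonneg_left ?_ (by norm_num)
        refine (Real.sum_mul_le_sqrt_mul_sqrt _ _ _).trans ?_
        refine mul_le_mul (Real.sqrt_le_sqrt (by simp)) (Real.sqrt_le_sqrt ?_)
          (Real.sqrt_nonneg _) (Real.sqrt_nonneg _)
        unfold Nt.W
        calc ∑ g ∈ H, √((F g).card : ℝ) ^ 2 = ∑ g ∈ H, ((F g).card : ℝ) :=
              Finset.sum_congr rfl fun g _ => Real.sq_sqrt (Nat.cast_nonneg _)
          _ ≤ ∑ g ∈ H, (((C.I g).card + (C.J g).card : ℕ) : ℝ) :=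
              Finset.sum_le_sum fun g _ => by exact_mod_cast hFc g
          _ ≤ _ := Finset.sum_le_univ_sum_of_nonneg fun _ => Nat.cast_nonneg _
    _ = _ := by rw [Real.sqrt_mul (Nat.cast_nonneg _)]

end Pool.Agent.H1.TC
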