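import Pool.Agent.H1.TC.Block

/-!
# The choice of the blocks
-/

set_option autoImplicit false
set_option linter.unusedSectionVars false

namespace Pool.Agent.H1.TC

open Finset Pool.Agent.H1.LT Pool.Agent.H1.HL
open scoped BigOperators

variable {ι : Type*} [Fintype ι] [DecidableEq ι] {B : ℕ}

theorem rank_sum_type {κ : Type*} [Fintype κ] (A : κ → ℝ) (φ : ℕ → ℝ) (hφ : Antitone φ) :
    ∑ t, φ ((univ.filter fun i => A t ≤ A i).card) ≤ ∑ r ∈ range (Fintype.card κ), φ (r + 1) := by
  classical
  obtain ⟨e⟩ : Nonempty (κ ≃ Fin (Fintype.card κ)) := ⟨Fintype.equivFin κ⟩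
  refine le_trans (le_of_eq ?_) (rank_sum (A ∘ e.symm) φ hφ)
  rw [← Equiv.sum_comp e.symm]
  refine Finset.sum_congr rfl fun t _ => ?_
  congr 1
  refine Finset.card_bij (fun i _ => e i) ?_ ?_ ?_
  · intro i hi
    rw [Finset.mem_filter] at hi ⊢
    exact ⟨Finset.mem_univ _, by simpa using hi.2⟩
  · intro i _ j _ h
    exact e.injective h
  · intro i hi
    refine ⟨e.symm i, ?_, by simp⟩
    rw [Finset.mem_filter] at hi ⊢
    exact ⟨Finset.mem_univ _, by simpa using hi.2⟩

theorem rank_sum_finset {κ : Type*} (F : Finset κ) (A : κ → ℝ) (φ : ℕ → ℝ) (hφ : Antitone φ) :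
    ∑ t ∈ F, φ ((F.filter fun i => A t ≤ A i).card) ≤ ∑ r ∈ range F.card, φ (r + 1) := by
  classical
  have h := rank_sum_type (κ := F) (fun i => A i) φ hφ
  rw [Fintype.card_coe] at h
  refine le_trans (le_of_eq ?_) h
  rw [← Finset.sum_coe_sort F fun t => φ ((F.filter fun i => A t ≤ A i).card)]
  refine Finset.sum_congr rfl fun t _ => ?_
  congr 1
  symm
  refine Finset.card_bij (fun i _ => (i : κ)) ?_ ?_ ?_
  · intro i hi
    rw [Finset.mem_filter] at hi ⊢
    exact ⟨i.2, hi.2⟩
  · intro i _ j _ h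
    exact Subtype.ext h
  · intro i hi
    rw [Finset.mem_filter] at hi
    exact ⟨⟨i, hi.1⟩, by rw [Finset.mem_filter]; exact ⟨Finset.mem_univ _, hi.2⟩, rfl⟩

/-- How often a threshold gate is almost balanced, at the scale of one of its weights. -/
theorem gate_base (F : Finset ι) (w : ι → ℝ) (c : ℝ) :
    ∑ i ∈ F, 𝔼 y : ι → Bool, ind (w i ≠ 0 ∧ |c + ∑ j, w j * sg (y j)| ≤ 4 * |w i|) ≤
      10 * √F.card := by
  have hφ : Antitone fun n : ℕ => 5 / √((n : ℝ) + 1) := by
    intro a b hab
    have h1 : (a : ℝ) ≤ b := by exact_mod_cast hab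
    refine div_le_div_of_nonneg_left (by norm_num) (Real.sqrt_pos.mpr (by positivity)) ?_
    exact Real.sqrt_le_sqrt (by linarith)
  have h1 : ∀ i ∈ F, 𝔼 y : ι → Bool, ind (w i ≠ 0 ∧ |c + ∑ j, w j * sg (y j)| ≤ 4 * |w i|) ≤
      5 / √(((F.filter fun j => |w i| ≤ |w j|).card : ℝ) + 1) := by
    intro i _
    by_cases hw : w i = 0
    · have : ∀ y : ι → Bool, ind (w i ≠ 0 ∧ |c + ∑ j, w j * sg (y j)| ≤ 4 * |w i|) = 0 :=
        fun y => ind_neg fun h => h.1 hw
      simp_rw [this]
      rw [Finset.expect_const_zero]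
      positivity
    · have hw' : 0 < |w i| := abs_pos.mpr hw
      have h := lo_sub w (F.filter fun j => |w i| ≤ |w j|) hw' (t := 4 * |w i|) (by positivity)
        (fun j hj => (Finset.mem_filter.mp hj).2) c
      refine (Finset.expect_le_expect fun y _ => ind_mono fun h => h.2).trans (h.trans ?_)
      rw [mul_div_cancel_right₀ _ hw'.ne']
      norm_num
  refine (Finset.sum_le_sum h1).trans ?_
  refine (rank_sum_finset F (fun i => |w i|) (fun n : ℕ => 5 / √((n : ℝ) + 1)) hφ).trans ?_
  calc ∑ r ∈ range F.card, 5 / √(((r + 1 : ℕ) : ℝ) + 1) ≤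
      ∑ r ∈ range F.card, 5 * (1 / √((r : ℝ) + 1)) := by
        refine Finset.sum_le_sum fun r _ => ?_
        push_cast
        rw [mul_one_div]
        refine div_le_div_of_nonneg_left (by norm_num) (Real.sqrt_pos.mpr (by positivity)) ?_
        exact Real.sqrt_le_sqrt (by linarith)
    _ = 5 * ∑ r ∈ range F.card, 1 / √((r : ℝ) + 1) := by rw [← Finset.mul_sum]
    _ ≤ 5 * (2 * √F.card) := mul_le_mul_of_nonneg_left (sum_inv_sqrt _) (by norm_num)
    _ = _ := by ring

/-- The pairs in a common block. -/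
noncomputable def prs (col : ι → Fin B) (F : Finset ι) : ℝ :=
  ∑ i ∈ F, ∑ j ∈ F.erase i, ind (col i = col j)

theorem prs_nonneg (col : ι → Fin B) (F : Finset ι) : 0 ≤ prs col F :=
  Finset.sum_nonneg fun _ _ => Finset.sum_nonneg fun _ _ => ind_nonneg _

theorem expect_same (hB : 0 < B) {i j : ι} (h : i ≠ j) :
    𝔼 col : ι → Fin B, ind (col i = col j) = 1 / B := by
  have : Nonempty (Fin B) := ⟨⟨0, hB⟩⟩
  rw [← expect_mg {i}]
  have h1 : ∀ y z : ι → Fin B, ind (mg {i} z y i = mg {i} z y j) = ind (z i = y j) := by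
    intro y z
    rw [mg_mem (Finset.mem_singleton_self i), mg_not_mem (by
      rw [Finset.mem_singleton]
      exact h.symm)]
  simp_rw [h1]
  have h2 : ∀ y : ι → Fin B, 𝔼 z : ι → Fin B, ind (z i = y j) = 1 / B := by
    intro y
    rw [expect_coord i fun x => ind (x = y j), Fintype.expect_eq_sum_div_card, Fintype.card_fin]
    congr 1
    rw [Finset.sum_eq_single (y j)]
    · exact ind_pos rfl
    · intro b _ hb
      exact ind_neg hb
    · intro hb
      exact absurd (Finset.mem_univ _) hb
  simp_rw [h2]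
  rw [Fintype.expect_const]

theorem expect_prs (hB : 0 < B) (F : Finset ι) :
    𝔼 col : ι → Fin B, √(prs col F) ≤ F.card / √B := by
  have : Nonempty (Fin B) := ⟨⟨0, hB⟩⟩
  have hBr : (0 : ℝ) < B := by exact_mod_cast hB
  have h1 : 𝔼 col : ι → Fin B, prs col F ≤ F.card ^ 2 / B := by
    unfold prs
    rw [Finset.expect_sum_comm]
    calc _ ≤ ∑ i ∈ F, ∑ j ∈ F.erase i, (1 / (B : ℝ)) := by
          refine Finset.sum_le_sum fun i _ => ?_
          rw [Finset.expect_sum_comm]
          refine Finset.sum_le_sum fun j hj => ?_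
          exact (expect_same hB (Finset.ne_of_mem_erase hj).symm).le
      _ ≤ ∑ i ∈ F, ∑ j ∈ F, (1 / (B : ℝ)) := by
          refine Finset.sum_le_sum fun i _ => ?_
          exact Finset.sum_le_sum_of_subset_of_nonneg (Finset.erase_subset _ _)
            fun _ _ _ => by positivity
      _ = _ := by
          rw [Finset.sum_const, Finset.sum_const, nsmul_eq_mul, nsmul_eq_mul]
          ring
  have h2 := Finset.expect_mul_sq_le_sq_mul_sq univ (fun col : ι → Fin B => √(prs col F))
    (fun _ => (1 : ℝ))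
  simp only [mul_one, one_pow] at h2
  rw [Fintype.expect_const, mul_one] at h2
  have h3 : ∀ col : ι → Fin B, √(prs col F) ^ 2 = prs col F :=
    fun col => Real.sq_sqrt (prs_nonneg col F)
  simp_rw [h3] at h2
  have h4 : (𝔼 col : ι → Fin B, √(prs col F)) ^ 2 ≤ (F.card / √B) ^ 2 := by
    rw [div_pow, Real.sq_sqrt hBr.le]
    exact h2.trans h1
  exact abs_le_of_sq_le_sq' h4 (by positivity) |>.2

theorem block_pairs (col : ι → Fin B) (F : Finset ι) :
    ∑ b, (if 2 ≤ (F.filter fun i => col i = b).card then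
      ((F.filter fun i => col i = b).card : ℝ) else 0) ^ 2 ≤ 2 * prs col F := by
  classical
  have h1 : ∀ i ∈ F, ∑ j ∈ F.erase i, ind (col i = col j) =
      ((F.filter fun j => col j = col i).card : ℝ) - 1 := by
    intro i hi
    have e : ∑ j ∈ F, ind (col i = col j) = ((F.filter fun j => col j = col i).card : ℝ) := by
      rw [Finset.card_filter]
      push_cast
      refine Finset.sum_congr rfl fun j _ => ?_
      by_cases h : col j = col i
      · rw [ind_pos h.symm, if_pos h]
      · rw [ind_neg fun h' => h h'.symm, if_neg h]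
    rw [← e, ← Finset.add_sum_erase F _ hi, ind_pos rfl]
    ring
  have h2 : prs col F = ∑ b, ((F.filter fun i => col i = b).card : ℝ) *
      (((F.filter fun i => col i = b).card : ℝ) - 1) := by
    unfold prs
    rw [Finset.sum_congr rfl h1, ← Finset.sum_fiberwise F col]
    refine Finset.sum_congr rfl fun b _ => ?_
    rw [Finset.sum_congr rfl fun i hi => by
      rw [(Finset.mem_filter.mp hi).2], Finset.sum_const, nsmul_eq_mul]
  rw [h2, Finset.mul_sum]
  refine Finset.sum_le_sum fun b _ => ?_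
  obtain ⟨k, hk⟩ : ∃ k, k = (F.filter fun i => col i = b).card := ⟨_, rfl⟩
  rw [← hk]
  split_ifs with h
  · have : (2 : ℝ) ≤ k := by exact_mod_cast h
    nlinarith
  · have hk' : k = 0 ∨ k = 1 := by omega
    rcases hk' with h' | h' <;> rw [h'] <;> norm_num

theorem sum_inv_rank (col : ι → Fin B) (w : ι → ℝ) :
    ∑ b, (1 / √((univ.filter fun b' => vb col w b ≤ vb col w b').card)) ^ 2 ≤
      1 + Real.log B := by
  have hφ : Antitone fun n : ℕ => 1 / (max (n : ℝ) 1) := by
    intro a b hab
    have h1 : (a : ℝ) ≤ b := by exact_mod_cast hab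
    refine one_div_le_one_div_of_le (by positivity) ?_
    exact max_le_max h1 le_rfl
  have h := rank_sum (fun b => vb col w b) (fun n : ℕ => 1 / (max (n : ℝ) 1)) hφ
  have h2 : ∑ r ∈ range B, (1 / max (((r + 1 : ℕ) : ℝ)) 1) ≤ 1 + Real.log B := by
    have h3 := harmonic_le_one_add_log B
    refine le_trans (le_of_eq ?_) h3
    unfold harmonic
    push_cast
    refine Finset.sum_congr rfl fun r _ => ?_
    rw [max_eq_left (by
      have : (0 : ℝ) ≤ r := Nat.cast_nonneg r
      linarith), one_div]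
  refine le_trans (Finset.sum_le_sum fun b _ => ?_) (h.trans h2)
  have h4 : (0 : ℝ) ≤ ((univ.filter fun b' => vb col w b ≤ vb col w b').card : ℝ) :=
    Nat.cast_nonneg _
  have h5 : (1 : ℝ) ≤ ((univ.filter fun b' => vb col w b ≤ vb col w b').card : ℝ) := by
    have : 0 < (univ.filter fun b' => vb col w b ≤ vb col w b').card :=
      Finset.card_pos.mpr ⟨b, by rw [Finset.mem_filter]; exact ⟨Finset.mem_univ _, le_rfl⟩⟩
    exact_mod_cast this
  rw [div_pow, Real.sq_sqrt h4, one_pow, max_eq_left h5]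

/-- **The choice of the blocks.** -/
theorem stage {G : Type*} [Fintype G] (F : G → Finset ι) (w : G → ι → ℝ) (c : G → ℝ) {T : ℝ}
    (hT : 1 ≤ T) (hB : 0 < B) :
    ∃ col : ι → Fin B, ∑ b, ∑ g, (if 2 ≤ ((F g).filter fun i => col i = b).card then
      (((F g).filter fun i => col i = b).card : ℝ) else 0) *
      (𝔼 y : ι → Bool, ind (0 < vb col (w g) b ∧
        |c g + ∑ b' ∈ univ.erase b, rs (blk col b') (w g) y| ≤ T * √(vb col (w g) b))) ≤
      150 * T * √(2 * (1 + Real.log B)) * ((∑ g, ((F g).card : ℝ)) / √B) := by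
  classical
  have : Nonempty (Fin B) := ⟨⟨0, hB⟩⟩
  have hav : 𝔼 col : ι → Fin B, ∑ g, √(prs col (F g)) ≤ (∑ g, ((F g).card : ℝ)) / √B := by
    rw [Finset.expect_sum_comm, Finset.sum_div]
    exact Finset.sum_le_sum fun g _ => expect_prs hB (F g)
  obtain ⟨col, -, hcol⟩ := Finset.exists_le_of_expect_le (Finset.univ_nonempty) hav
  refine ⟨col, ?_⟩
  have hlog : 0 ≤ 1 + Real.log B := by
    have : 0 ≤ Real.log B := Real.log_nonneg (by exact_mod_cast hB)
    linarith
  have hg : ∀ g, ∑ b, (if 2 ≤ ((F g).filter fun i => col i = b).card then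
      (((F g).filter fun i => col i = b).card : ℝ) else 0) *
      (𝔼 y : ι → Bool, ind (0 < vb col (w g) b ∧
        |c g + ∑ b' ∈ univ.erase b, rs (blk col b') (w g) y| ≤ T * √(vb col (w g) b))) ≤
      150 * T * √(2 * (1 + Real.log B)) * √(prs col (F g)) := by
    intro g
    have h1 : ∀ b, (𝔼 y : ι → Bool, ind (0 < vb col (w g) b ∧
        |c g + ∑ b' ∈ univ.erase b, rs (blk col b') (w g) y| ≤ T * √(vb col (w g) b))) ≤
        150 * T * (1 / √((univ.filter fun b' => vb col (w g) b ≤ vb col (w g) b').card)) := by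
      intro b
      by_cases hv : 0 < vb col (w g) b
      · refine (Finset.expect_le_expect fun y _ => ind_mono fun h => h.2).trans ?_
        rw [mul_one_div]
        exact ball col (w g) b (c g) hT hv
      · have : ∀ y : ι → Bool, ind (0 < vb col (w g) b ∧
          |c g + ∑ b' ∈ univ.erase b, rs (blk col b') (w g) y| ≤ T * √(vb col (w g) b)) = 0 :=
          fun y => ind_neg fun h => hv h.1
        simp_rw [this]
        rw [Finset.expect_const_zero]
        positivity
    calc _ ≤ ∑ b, (if 2 ≤ ((F g).filter fun i => col i = b).card then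
          (((F g).filter fun i => col i = b).card : ℝ) else 0) *
          (150 * T * (1 / √((univ.filter fun b' => vb col (w g) b ≤ vb col (w g) b').card))) := by
            refine Finset.sum_le_sum fun b _ => mul_le_mul_of_nonneg_left (h1 b) ?_
            split_ifs <;> positivity
      _ = 150 * T * ∑ b, (if 2 ≤ ((F g).filter fun i => col i = b).card then
          (((F g).filter fun i => col i = b).card : ℝ) else 0) *
          (1 / √((univ.filter fun b' => vb col (w g) b ≤ vb col (w g) b').card)) := by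
            rw [Finset.mul_sum]
            exact Finset.sum_congr rfl fun b _ => by ring
      _ ≤ 150 * T * (√(2 * prs col (F g)) * √(1 + Real.log B)) := by
            refine mul_le_mul_of_nonneg_left ?_ (by positivity)
            refine (Real.sum_mul_le_sqrt_mul_sqrt _ _ _).trans ?_
            exact mul_le_mul (Real.sqrt_le_sqrt (block_pairs col (F g)))
              (Real.sqrt_le_sqrt (sum_inv_rank col (w g))) (Real.sqrt_nonneg _)
              (Real.sqrt_nonneg _)
      _ = _ := by
            rw [Real.sqrt_mul (by norm_num : (0 : ℝ) ≤ 2),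
              Real.sqrt_mul (by norm_num : (0 : ℝ) ≤ 2)]
            ring
  rw [Finset.sum_comm]
  calc _ ≤ ∑ g, 150 * T * √(2 * (1 + Real.log B)) * √(prs col (F g)) :=
        Finset.sum_le_sum fun g _ => hg g
    _ = 150 * T * √(2 * (1 + Real.log B)) * ∑ g, √(prs col (F g)) := by rw [← Finset.mul_sum]
    _ ≤ _ := mul_le_mul_of_nonneg_left hcol (by positivity)

end Pool.Agent.H1.TC
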