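import Pool.Agent.H1.TC.Rec

/-!
# One step of the recursion
-/

set_option autoImplicit false
set_option linter.unusedSectionVars false

namespace Pool.Agent.H1.TC

open Finset Pool.Agent.H1.LT Pool.Agent.H1.HL
open scoped BigOperators

variable {ι G : Type*} [Fintype ι] [DecidableEq ι] [Fintype G] [DecidableEq G] {B : ℕ}

/-- The part outside the block. -/
noncomputable def dead (col : ι → Fin B) (b : Fin B) (c : G → ℝ) (w : G → ι → ℝ)
    (y : ι → Bool) (g : G) : ℝ :=
  c g + ∑ b' ∈ univ.erase b, rs (blk col b') (w g) y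

theorem dead_live (col : ι → Fin B) (b : Fin B) (c : G → ℝ) (w : G → ι → ℝ)
    (y : ι → Bool) (g : G) :
    c g + ∑ i, w g i * sg (y i) = dead col b c w y g + rs (blk col b) (w g) y := by
  unfold dead
  have h : ∑ i, w g i * sg (y i) = ∑ b', rs (blk col b') (w g) y := by
    unfold rs blk
    rw [Finset.sum_fiberwise univ col fun i => w g i * sg (y i)]
  rw [h, ← Finset.sum_erase_add univ _ (Finset.mem_univ b)]
  ring

theorem dead_congr (col : ι → Fin B) (b : Fin B) (c : G → ℝ) (w : G → ι → ℝ)
    {y z : ι → Bool} (h : ∀ i, col i ≠ b → y i = z i) : dead col b c w y = dead col b c w z := by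
  funext g
  unfold dead rs
  congr 1
  refine Finset.sum_congr rfl fun b' hb' => Finset.sum_congr rfl fun i hi => ?_
  rw [mem_blk] at hi
  rw [h i (by rw [hi]; exact Finset.ne_of_mem_erase hb')]

/-- The items which are given up. -/
noncomputable def kill (Fb : G → Finset ι) (v : G → ℝ) (T : ℝ) (D : G → ℝ) : Finset ι := by
  classical
  exact (univ.filter fun g => 2 ≤ (Fb g).card ∧ 0 < v g ∧ |D g| ≤ T * √(v g)).biUnion Fb

/-- The new initial functions. -/
noncomputable def u2 (C : Nt ι G Bool) (u : (ι → Bool) → G → ℝ) (Fb : G → Finset ι)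
    (S' : Finset ι) (D : G → ℝ) (x : ι → Bool) (g : G) : ℝ := by
  classical
  exact if (Fb g ∩ S').card ≤ 1 then C.step x (u x) g else ind (0 ≤ D g)

/-- Some gate has a large live part. -/
def Big (Fb : G → Finset ι) (w : G → ι → ℝ) (v : G → ℝ) (L : Finset ι) (T : ℝ)
    (y : ι → Bool) : Prop :=
  ∃ g, 2 ≤ (Fb g).card ∧ T * √(v g) < |rs L (w g) y|

theorem mg_mg_eq {S L S' : Finset ι} (h1 : S' ⊆ L) (h2 : L ⊆ S) (z1 z0 y0 a : ι → Bool) :
    mg S (mg L (mg S' z1 z0) y0) a = mg S' z1 (mg S (mg L z0 y0) a) := by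
  funext i
  by_cases hi : i ∈ S'
  · rw [mg_mem (h2 (h1 hi)), mg_mem (h1 hi), mg_mem hi, mg_mem hi]
  · rw [mg_not_mem hi]
    by_cases hS : i ∈ S
    · rw [mg_mem hS, mg_mem hS]
      by_cases hL : i ∈ L
      · rw [mg_mem hL, mg_mem hL, mg_not_mem hi]
      · rw [mg_not_mem hL, mg_not_mem hL]
    · rw [mg_not_mem hS, mg_not_mem hS]

theorem mg_mg_one {S S' : Finset ι} (h : S' ⊆ S) (z y a : ι → Bool) :
    mg S' z (mg S y a) = mg S (mg S' z y) a := by
  funext i
  by_cases hi : i ∈ S'
  · rw [mg_mem hi, mg_mem (h hi), mg_mem hi]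
  · rw [mg_not_mem hi]
    by_cases hS : i ∈ S
    · rw [mg_mem hS, mg_mem hS, mg_not_mem hi]
    · rw [mg_not_mem hS, mg_not_mem hS]

section step

variable (C : Nt ι G Bool) (t : ℕ) (H : Finset G) {T : ℝ} {S : Finset ι} {a : ι → Bool}
  {u : (ι → Bool) → G → ℝ} {c : G → ℝ} {w : G → ι → ℝ} {F : G → Finset ι} (col : ι → Fin B)
  (b : Fin B)

theorem step_eq
    (harg : ∀ g y, C.arg (u (mg S y a)) (mg S y a) g = c g + ∑ i, w g i * sg (y i))
    {y y' : ι → Bool} (hyy : ∀ i, col i ≠ b → y' i = y i)
    (hbig : ¬ Big (fun g => (F g).filter fun i => col i = b) w (fun g => vb col (w g) b)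
      (blk col b) T y') (g : G) :
    C.step (mg S y' a) (u (mg S y' a)) g =
      u2 C u (fun g => (F g).filter fun i => col i = b)
        ((S.filter fun i => col i = b) \ kill (fun g => (F g).filter fun i => col i = b)
          (fun g => vb col (w g) b) T (dead col b c w y)) (dead col b c w y) (mg S y' a) g := by
  unfold u2
  split_ifs with hc
  · rfl
  · have h2 : 2 ≤ ((F g).filter fun i => col i = b).card := by
      push Not at hc
      exact Nat.succ_le_of_lt (hc.trans_le (Finset.card_le_card Finset.inter_subset_left))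
    have hnb : ¬ (0 < vb col (w g) b ∧ |dead col b c w y g| ≤ T * √(vb col (w g) b)) := by
      intro hb
      apply hc
      have : ((F g).filter fun i => col i = b) ∩ ((S.filter fun i => col i = b) \
          kill (fun g => (F g).filter fun i => col i = b) (fun g => vb col (w g) b) T
            (dead col b c w y)) = ∅ := by
        rw [Finset.eq_empty_iff_forall_notMem]
        intro i hi
        rw [Finset.mem_inter, Finset.mem_sdiff] at hi
        apply hi.2.2
        unfold kill
        rw [Finset.mem_biUnion]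
        exact ⟨g, by rw [Finset.mem_filter]; exact ⟨Finset.mem_univ _, h2, hb⟩, hi.1⟩
      rw [this]
      simp
    have hl : |rs (blk col b) (w g) y'| ≤ T * √(vb col (w g) b) := by
      by_contra hcon
      push Not at hcon
      exact hbig ⟨g, h2, hcon⟩
    unfold Nt.step
    rw [harg, dead_live col b c w y' g, dead_congr col b c w hyy]
    refine ind_congr ?_
    rcases (vb_nonneg col (w g) b).lt_or_eq with hv | hv
    · have hd : T * √(vb col (w g) b) < |dead col b c w y g| := by
        by_contra hcon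
        push Not at hcon
        exact hnb ⟨hv, hcon⟩
      have h3 := abs_lt.mp (lt_of_le_of_lt hl hd)
      rcases le_or_gt 0 (dead col b c w y g) with h0 | h0
      · rw [abs_of_nonneg h0] at h3
        exact ⟨fun _ => h0, fun _ => by linarith [h3.1]⟩
      · rw [abs_of_neg h0] at h3
        exact ⟨fun h => absurd h (by linarith [h3.2]), fun h => absurd h (not_le.mpr h0)⟩
    · rw [← hv, Real.sqrt_zero, mul_zero] at hl
      have h0 : rs (blk col b) (w g) y' = 0 := abs_eq_zero.mp (le_antisymm hl (abs_nonneg _))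
      rw [h0, add_zero]

theorem one_u2 (hw : ∀ g i, i ∉ F g → w g i = 0)
    (harg : ∀ g y, C.arg (u (mg S y a)) (mg S y a) g = c g + ∑ i, w g i * sg (y i))
    {S' : Finset ι} (hS' : S' ⊆ S.filter fun i => col i = b) (D : G → ℝ) (y1 : ι → Bool) :
    One S' (mg S y1 a) (u2 C u (fun g => (F g).filter fun i => col i = b) S' D) := by
  intro g
  by_cases hc : (((F g).filter fun i => col i = b) ∩ S').card ≤ 1
  · refine ⟨_, hc, fun y z hyz => ?_⟩
    have hSS : S' ⊆ S := hS'.trans (Finset.filter_subset _ _)
    unfold u2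
    rw [if_pos hc, if_pos hc]
    unfold Nt.step
    rw [mg_mg_one hSS, mg_mg_one hSS, harg, harg]
    have e : ∑ i, w g i * sg (mg S' y y1 i) = ∑ i, w g i * sg (mg S' z y1 i) := by
      refine Finset.sum_congr rfl fun i _ => ?_
      by_cases hi : i ∈ S'
      · by_cases hF : i ∈ F g
        · rw [mg_mem hi, mg_mem hi, hyz i]
          rw [Finset.mem_inter, Finset.mem_filter]
          exact ⟨⟨hF, (Finset.mem_filter.mp (hS' hi)).2⟩, hi⟩
        · rw [hw g i hF, zero_mul, zero_mul]
      · rw [mg_not_mem hi, mg_not_mem hi]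
    rw [e]
  · refine ⟨∅, by simp, fun y z _ => ?_⟩
    unfold u2
    rw [if_neg hc, if_neg hc]

theorem block_step (K : ℝ)
    (hK : ∀ (S : Finset ι) (a : ι → Bool) (u : (ι → Bool) → G → ℝ), One S a u →
      Z C t u H S a ≤ K) (hT : 0 ≤ T)
    (hFc : ∀ g, (F g).card ≤ (C.I g).card + (C.J g).card) (hw : ∀ g i, i ∉ F g → w g i = 0)
    (harg : ∀ g y, C.arg (u (mg S y a)) (mg S y a) g = c g + ∑ i, w g i * sg (y i)) :
    𝔼 y : ι → Bool, ∑ i ∈ S.filter (fun i => col i = b),
      ind (∃ g ∈ H, C.Piv (t + 1) u g (mg S y a) (fl i (mg S y a))) ≤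
    ∑ g, (if 2 ≤ ((F g).filter fun i => col i = b).card then
      (((F g).filter fun i => col i = b).card : ℝ) else 0) *
      (𝔼 y : ι → Bool, ind (0 < vb col (w g) b ∧
        |dead col b c w y g| ≤ T * √(vb col (w g) b))) +
    4 * (S.filter fun i => col i = b).card * (C.W * Real.exp (-(T ^ 2 / 2))) + K := by
  classical
  obtain ⟨L, hL⟩ : ∃ L, L = S.filter fun i => col i = b := ⟨_, rfl⟩
  obtain ⟨Fb, hFb⟩ : ∃ Fb : G → Finset ι, Fb = fun g => (F g).filter fun i => col i = b :=
    ⟨_, rfl⟩
  obtain ⟨v, hv⟩ : ∃ v : G → ℝ, v = fun g => vb col (w g) b := ⟨_, rfl⟩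
  obtain ⟨kl, hkl⟩ : ∃ kl : (G → ℝ) → Finset ι, kl = kill Fb v T := ⟨_, rfl⟩
  obtain ⟨Q, hQ⟩ : ∃ Q : (ι → Bool) → ι → (ι → Bool) → Prop, Q = fun y0 i y =>
    ∃ g ∈ H, C.Piv t (u2 C u Fb (L \ kl (dead col b c w y0)) (dead col b c w y0)) g
      (mg S y a) (fl i (mg S y a)) := ⟨_, rfl⟩
  have hLmem : ∀ {i}, i ∈ L ↔ i ∈ S ∧ col i = b := by
    intro i
    rw [hL, Finset.mem_filter]
  have hLS : L ⊆ S := fun i hi => (hLmem.mp hi).1
  -- the pointwise bound
  have hpt : ∀ y : ι → Bool, ∑ i ∈ L,
      ind (∃ g ∈ H, C.Piv (t + 1) u g (mg S y a) (fl i (mg S y a))) ≤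
      ∑ g, (if 2 ≤ (Fb g).card then ((Fb g).card : ℝ) else 0) *
        ind (0 < v g ∧ |dead col b c w y g| ≤ T * √(v g)) +
      ∑ i ∈ L, (ind (Big Fb w v (blk col b) T y) + ind (Big Fb w v (blk col b) T (fl i y))) +
      ∑ i ∈ L \ kl (dead col b c w y), ind (Q y i y) := by
    intro y
    have e1 : ∑ i ∈ L, ind (∃ g ∈ H, C.Piv (t + 1) u g (mg S y a) (fl i (mg S y a))) =
        ∑ i ∈ L ∩ kl (dead col b c w y),
          ind (∃ g ∈ H, C.Piv (t + 1) u g (mg S y a) (fl i (mg S y a))) +
        ∑ i ∈ L \ kl (dead col b c w y),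
          ind (∃ g ∈ H, C.Piv (t + 1) u g (mg S y a) (fl i (mg S y a))) := by
      rw [Finset.sum_inter_add_sum_sdiff]
    rw [e1]
    have p1 : ∑ i ∈ L ∩ kl (dead col b c w y),
        ind (∃ g ∈ H, C.Piv (t + 1) u g (mg S y a) (fl i (mg S y a))) ≤
        ∑ g, (if 2 ≤ (Fb g).card then ((Fb g).card : ℝ) else 0) *
          ind (0 < v g ∧ |dead col b c w y g| ≤ T * √(v g)) := by
      calc _ ≤ ∑ _i ∈ L ∩ kl (dead col b c w y), (1 : ℝ) :=
            Finset.sum_le_sum fun i _ => ind_le_one _
        _ = ((L ∩ kl (dead col b c w y)).card : ℝ) := by simp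
        _ ≤ ((kl (dead col b c w y)).card : ℝ) := by
            exact_mod_cast Finset.card_le_card Finset.inter_subset_right
        _ ≤ ∑ g ∈ univ.filter fun g => 2 ≤ (Fb g).card ∧ 0 < v g ∧
              |dead col b c w y g| ≤ T * √(v g), ((Fb g).card : ℝ) := by
            rw [hkl]
            unfold kill
            exact_mod_cast Finset.card_biUnion_le
        _ = _ := by
            rw [Finset.sum_filter]
            refine Finset.sum_congr rfl fun g _ => ?_
            by_cases h2 : 2 ≤ (Fb g).card
            · rw [if_pos h2]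
              by_cases h3 : 0 < v g ∧ |dead col b c w y g| ≤ T * √(v g)
              · rw [if_pos ⟨h2, h3⟩, ind_pos h3, mul_one]
              · rw [if_neg fun h => h3 h.2, ind_neg h3, mul_zero]
            · rw [if_neg h2, if_neg fun h => h2 h.1, zero_mul]
    have p2 : ∑ i ∈ L \ kl (dead col b c w y),
        ind (∃ g ∈ H, C.Piv (t + 1) u g (mg S y a) (fl i (mg S y a))) ≤
        ∑ i ∈ L \ kl (dead col b c w y), ((ind (Big Fb w v (blk col b) T y) +
          ind (Big Fb w v (blk col b) T (fl i y))) + ind (Q y i y)) := by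
      refine Finset.sum_le_sum fun i hi => ?_
      have hiL : i ∈ L := (Finset.mem_sdiff.mp hi).1
      have hiS := (hLmem.mp hiL).1
      have hib := (hLmem.mp hiL).2
      by_cases hb1 : Big Fb w v (blk col b) T y
      · rw [ind_pos hb1]
        linarith [ind_le_one (∃ g ∈ H, C.Piv (t + 1) u g (mg S y a) (fl i (mg S y a))),
          ind_nonneg (Q y i y), ind_nonneg (Big Fb w v (blk col b) T (fl i y))]
      by_cases hb2 : Big Fb w v (blk col b) T (fl i y)
      · rw [ind_pos hb2]
        linarith [ind_le_one (∃ g ∈ H, C.Piv (t + 1) u g (mg S y a) (fl i (mg S y a))),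
          ind_nonneg (Q y i y), ind_nonneg (Big Fb w v (blk col b) T y)]
      rw [ind_neg hb1, ind_neg hb2, zero_add, zero_add]
      refine ind_mono ?_
      rintro ⟨g, hg, hP⟩
      rw [hQ]
      refine ⟨g, hg, ?_⟩
      have s1 : C.step (mg S y a) (u (mg S y a)) =
          u2 C u Fb (L \ kl (dead col b c w y)) (dead col b c w y) (mg S y a) := by
        funext g
        rw [hFb, hv] at hb1
        rw [hkl, hFb, hv, hL]
        exact step_eq C col b harg (fun _ _ => rfl) hb1 g
      have s2 : C.step (fl i (mg S y a)) (u (fl i (mg S y a))) =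
          u2 C u Fb (L \ kl (dead col b c w y)) (dead col b c w y) (fl i (mg S y a)) := by
        funext g
        rw [hFb, hv] at hb2
        rw [hkl, hFb, hv, hL, fl_mg hiS]
        refine step_eq C col b harg (fun j hj => ?_) hb2 g
        rw [fl_ne]
        rintro rfl
        exact hj hib
      unfold Nt.Piv at hP ⊢
      rw [Nt.run_succ, Nt.run_succ, s1, s2] at hP
      exact hP
    have p3 : ∑ i ∈ L \ kl (dead col b c w y), (ind (Big Fb w v (blk col b) T y) +
          ind (Big Fb w v (blk col b) T (fl i y))) ≤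
        ∑ i ∈ L, (ind (Big Fb w v (blk col b) T y) +
          ind (Big Fb w v (blk col b) T (fl i y))) :=
      Finset.sum_le_sum_of_subset_of_nonneg Finset.sdiff_subset
        fun _ _ _ => add_nonneg (ind_nonneg _) (ind_nonneg _)
    rw [Finset.sum_add_distrib] at p2
    linarith
  -- large live parts are rare
  have hBig : 𝔼 y : ι → Bool, ind (Big Fb w v (blk col b) T y) ≤
      2 * (C.W * Real.exp (-(T ^ 2 / 2))) := by
    have h1 : ∀ y : ι → Bool, ind (Big Fb w v (blk col b) T y) ≤
        ∑ g, (if 2 ≤ (Fb g).card then (1 : ℝ) else 0) *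
          ind (T * √(v g) < |rs (blk col b) (w g) y|) := by
      intro y
      refine ind_le_of (Finset.sum_nonneg fun g _ =>
        mul_nonneg (by split_ifs <;> norm_num) (ind_nonneg _)) ?_
      rintro ⟨g, hg, hg'⟩
      refine le_trans ?_ (Finset.single_le_sum (f := fun g =>
        (if 2 ≤ (Fb g).card then (1 : ℝ) else 0) *
          ind (T * √(v g) < |rs (blk col b) (w g) y|)) (fun g _ =>
        mul_nonneg (by split_ifs <;> norm_num) (ind_nonneg _)) (Finset.mem_univ g))
      rw [if_pos hg, ind_pos hg', one_mul]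
    refine (Finset.expect_le_expect fun y _ => h1 y).trans ?_
    rw [Finset.expect_sum_comm]
    calc _ ≤ ∑ g, (((C.I g).card + (C.J g).card : ℕ) : ℝ) *
          (2 * Real.exp (-(T ^ 2 / 2))) := by
          refine Finset.sum_le_sum fun g _ => ?_
          rw [← Finset.mul_expect]
          refine mul_le_mul ?_ ?_ (Finset.expect_nonneg fun _ _ => ind_nonneg _)
            (Nat.cast_nonneg _)
          · split_ifs with h2
            · have h3 : (Fb g).card ≤ (F g).card := by
                rw [hFb]
                exact Finset.card_le_card (Finset.filter_subset _ _)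
              have h4 := hFc g
              have : 1 ≤ (C.I g).card + (C.J g).card := by omega
              exact_mod_cast this
            · exact Nat.cast_nonneg _
          · rw [hv]
            exact hoeffding_rs (blk col b) (w g) hT
      _ = _ := by
          rw [← Finset.sum_mul]
          unfold Nt.W
          ring
  -- the restricted network
  have hthird : 𝔼 y : ι → Bool, ∑ i ∈ L \ kl (dead col b c w y), ind (Q y i y) ≤ K := by
    rw [← expect_mg L]
    refine Finset.expect_le (Finset.univ_nonempty) fun y0 _ => ?_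
    have hd : ∀ z : ι → Bool, dead col b c w (mg L z y0) = dead col b c w y0 := by
      intro z
      refine dead_congr col b c w fun i hi => mg_not_mem fun h => hi (hLmem.mp h).2
    have hQd : ∀ (z : ι → Bool) (i : ι), Q (mg L z y0) i (mg L z y0) = Q y0 i (mg L z y0) := by
      intro z i
      rw [hQ]
      simp only [hd]
    simp_rw [hd, hQd]
    obtain ⟨S', hS'⟩ : ∃ S', S' = L \ kl (dead col b c w y0) := ⟨_, rfl⟩
    rw [← hS']
    have hS'L : S' ⊆ L := by rw [hS']; exact Finset.sdiff_subset
    rw [← expect_mg S']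
    refine Finset.expect_le (Finset.univ_nonempty) fun z0 _ => ?_
    have h1 := hK S' (mg S (mg L z0 y0) a)
      (u2 C u Fb S' (dead col b c w y0)) (by
        rw [hFb]
        exact one_u2 C col b hw harg (by rw [← hL]; exact hS'L) _ _)
    refine le_trans (le_of_eq ?_) h1
    unfold Z
    refine Finset.expect_congr rfl fun z1 _ => Finset.sum_congr rfl fun i _ => ?_
    rw [hQ]
    simp only
    rw [← hS', mg_mg_eq hS'L hLS]
  -- the sum
  rw [hFb, hv] at hpt hBig
  rw [hL] at hpt hthird
  refine (Finset.expect_le_expect fun y _ => hpt y).trans ?_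
  rw [Finset.expect_add_distrib, Finset.expect_add_distrib]
  refine add_le_add (add_le_add ?_ ?_) hthird
  · rw [Finset.expect_sum_comm]
    refine (Finset.sum_congr rfl fun g _ => ?_).le
    rw [← Finset.mul_expect]
  · rw [Finset.expect_sum_comm]
    calc _ ≤ ∑ _i ∈ S.filter (fun i => col i = b), 4 * (C.W * Real.exp (-(T ^ 2 / 2))) := by
          refine Finset.sum_le_sum fun i _ => ?_
          rw [Finset.expect_add_distrib,
            expect_fl i fun y => ind (Big (fun g => (F g).filter fun i => col i = b) w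
              (fun g => vb col (w g) b) (blk col b) T y)]
          linarith
      _ = _ := by
          rw [Finset.sum_const, nsmul_eq_mul]
          ring

end step

/-- **One step.** -/
theorem Z_succ (C : Nt ι G Bool) (t : ℕ) (H : Finset G) (K : ℝ)
    (hK : ∀ (S : Finset ι) (a : ι → Bool) (u : (ι → Bool) → G → ℝ), One S a u →
      Z C t u H S a ≤ K) {T : ℝ} (hT : 1 ≤ T) (hB : 0 < B) {S : Finset ι} {a : ι → Bool}
    {u : (ι → Bool) → G → ℝ} (h : One S a u) :
    Z C (t + 1) u H S a ≤ 150 * T * √(2 * (1 + Real.log B)) * (C.W / √B) +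
      4 * Fintype.card ι * (C.W * Real.exp (-(T ^ 2 / 2))) + B * K := by
  classical
  choose c w F hFS hFc hw harg using fun g => affine C h g
  obtain ⟨col, hcol⟩ := stage (B := B) F w c hT hB
  have h1 : Z C (t + 1) u H S a = ∑ b, 𝔼 y : ι → Bool, ∑ i ∈ S.filter (fun i => col i = b),
      ind (∃ g ∈ H, C.Piv (t + 1) u g (mg S y a) (fl i (mg S y a))) := by
    unfold Z
    rw [← Finset.expect_sum_comm]
    refine Finset.expect_congr rfl fun y _ => ?_
    rw [Finset.sum_fiberwise]
  rw [h1]
  calc _ ≤ ∑ b, (∑ g, (if 2 ≤ ((F g).filter fun i => col i = b).card then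
        (((F g).filter fun i => col i = b).card : ℝ) else 0) *
        (𝔼 y : ι → Bool, ind (0 < vb col (w g) b ∧
          |dead col b c w y g| ≤ T * √(vb col (w g) b))) +
      4 * (S.filter fun i => col i = b).card * (C.W * Real.exp (-(T ^ 2 / 2))) + K) :=
        Finset.sum_le_sum fun b _ => block_step C t H col b K hK (by linarith) hFc hw harg
    _ = (∑ b, ∑ g, (if 2 ≤ ((F g).filter fun i => col i = b).card then
        (((F g).filter fun i => col i = b).card : ℝ) else 0) *
        (𝔼 y : ι → Bool, ind (0 < vb col (w g) b ∧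
          |dead col b c w y g| ≤ T * √(vb col (w g) b)))) +
        4 * (∑ b, ((S.filter fun i => col i = b).card : ℝ)) *
          (C.W * Real.exp (-(T ^ 2 / 2))) + B * K := by
        rw [Finset.sum_add_distrib, Finset.sum_add_distrib, Finset.sum_const, Finset.card_univ,
          Fintype.card_fin, nsmul_eq_mul, Finset.mul_sum, Finset.sum_mul]
    _ ≤ _ := by
        refine add_le_add (add_le_add ?_ ?_) le_rfl
        · refine hcol.trans ?_
          refine mul_le_mul_of_nonneg_left ?_ (by positivity)
          refine div_le_div_of_nonneg_right ?_ (Real.sqrt_nonneg _)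
          unfold Nt.W
          exact Finset.sum_le_sum fun g _ => by exact_mod_cast hFc g
        · refine mul_le_mul_of_nonneg_right ?_ (mul_nonneg C.W_nonneg (Real.exp_pos _).le)
          refine mul_le_mul_of_nonneg_left ?_ (by norm_num)
          have e : ∑ b, ((S.filter fun i => col i = b).card) = S.card := by
            rw [Finset.card_eq_sum_card_fiberwise (f := col) (t := univ)
              fun _ _ => Finset.mem_univ _]
          have : ∑ b, ((S.filter fun i => col i = b).card : ℝ) = S.card := by exact_mod_cast e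
          rw [this]
          exact_mod_cast Finset.card_le_univ S

end Pool.Agent.H1.TC
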